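import Pool.Agent.TH708.Shr.Core

/-!
# Circuits whose AND gates share few inputs: pairs of bits
-/

set_option autoImplicit false
set_option linter.unusedSectionVars false

namespace Pool.Agent.TH708.Shr

open Finset

variable {X : Type} {k s : ℕ}

/-- Disjoint pairs of tracked bits. -/
structure Pairing (k : ℕ) where
  /-- the index set -/
  Λ : Type
  [fin : Fintype Λ]
  [dec : DecidableEq Λ]
  /-- the first bit -/
  e : Λ → Fin k
  /-- the second bit -/
  e' : Λ → Fin k
  inj : Function.Injective e
  inj' : Function.Injective e'
  ne : ∀ a b, e a ≠ e' b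

attribute [instance] Pairing.fin Pairing.dec

namespace Pairing

variable (π : Pairing k)

open Classical in
/-- The tight assignment. -/
noncomputable def tight (w : π.Λ → Bool) (i : Fin k) : Bool :=
  if h : ∃ a, π.e a = i then w h.choose else
    if h : ∃ a, π.e' a = i then !(w h.choose) else true

theorem tight_e (w : π.Λ → Bool) (a : π.Λ) : π.tight w (π.e a) = w a := by
  have h : ∃ b, π.e b = π.e a := ⟨a, rfl⟩
  unfold tight
  rw [dif_pos h, π.inj h.choose_spec]

theorem tight_e' (w : π.Λ → Bool) (a : π.Λ) : π.tight w (π.e' a) = !(w a) := by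
  have h0 : ¬ ∃ b, π.e b = π.e' a := fun ⟨b, hb⟩ => π.ne b a hb
  have h : ∃ b, π.e' b = π.e' a := ⟨a, rfl⟩
  unfold tight
  rw [dif_neg h0, dif_pos h, π.inj' h.choose_spec]

theorem tight_off (w : π.Λ → Bool) (i : Fin k) (h : ∀ a, π.e a ≠ i) (h' : ∀ a, π.e' a ≠ i) :
    π.tight w i = true := by
  unfold tight
  rw [dif_neg (fun ⟨a, ha⟩ => h a ha), dif_neg (fun ⟨a, ha⟩ => h' a ha)]

/-- The bits outside the pairs are true. -/
def Supp (y : Fin k → Bool) : Prop := ∀ i, (∀ a, π.e a ≠ i) → (∀ a, π.e' a ≠ i) → y i = true

theorem tight_supp (w : π.Λ → Bool) : π.Supp (π.tight w) := fun i h h' => π.tight_off w i h h'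

/-- The true bits of the tight assignment. -/
noncomputable def rel (w : π.Λ → Bool) : Finset (Fin k) :=
  univ.image fun a => if w a then π.e a else π.e' a

theorem rel_inj (w : π.Λ → Bool) :
    Function.Injective fun a => if w a then π.e a else π.e' a := by
  intro a b hab
  simp only at hab
  by_cases ha : w a = true <;> by_cases hb : w b = true <;> simp only [ha, hb, if_true, if_false,
    Bool.false_eq_true] at hab
  · exact π.inj hab
  · exact absurd hab (π.ne _ _)
  · exact absurd hab.symm (π.ne _ _)
  · exact π.inj' hab

theorem card_rel (w : π.Λ → Bool) : (π.rel w).card = Fintype.card π.Λ := by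
  rw [rel, card_image_of_injective _ (π.rel_inj w), card_univ]

/-- The pairs split by a set. -/
noncomputable def split (A : Finset (Fin k)) : Finset π.Λ :=
  univ.filter fun a => ¬ (π.e a ∈ A ↔ π.e' a ∈ A)

theorem mem_split {A : Finset (Fin k)} {a : π.Λ} :
    a ∈ π.split A ↔ ¬ (π.e a ∈ A ↔ π.e' a ∈ A) := by
  rw [split, mem_filter, and_iff_right (mem_univ _)]

/-- The pairs inside a set. -/
noncomputable def both (A : Finset (Fin k)) : Finset π.Λ :=
  univ.filter fun a => π.e a ∈ A ∧ π.e' a ∈ A

/-- The pairs outside a set. -/
noncomputable def none (A : Finset (Fin k)) : Finset π.Λ :=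
  univ.filter fun a => π.e a ∉ A ∧ π.e' a ∉ A

theorem rel_inter (w : π.Λ → Bool) (A : Finset (Fin k)) :
    (A ∩ π.rel w).card ≤ (π.both A).card + (π.split A).card := by
  classical
  have h : A ∩ π.rel w ⊆ (π.both A ∪ π.split A).image fun a => if w a then π.e a else π.e' a := by
    intro i hi
    rw [mem_inter, rel, mem_image] at hi
    obtain ⟨hiA, a, _, ha⟩ := hi
    rw [mem_image]
    refine ⟨a, ?_, ha⟩
    rw [mem_union, both, split, mem_filter, mem_filter]
    have : π.e a ∈ A ∨ π.e' a ∈ A := by
      by_cases hw : w a = true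
      · left; simp only [hw, if_true] at ha; rw [ha]; exact hiA
      · right; simp only [hw, if_false, Bool.false_eq_true] at ha; rw [ha]; exact hiA
    by_cases h1 : π.e a ∈ A <;> by_cases h2 : π.e' a ∈ A <;> simp_all
  exact (card_le_card h).trans (card_image_le.trans (card_union_le _ _))

theorem rel_sdiff (w : π.Λ → Bool) (A : Finset (Fin k)) :
    (π.rel w \ A).card ≤ (π.none A).card + (π.split A).card := by
  classical
  have h : π.rel w \ A ⊆ (π.none A ∪ π.split A).image fun a => if w a then π.e a else π.e' a := by
    intro i hi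
    rw [mem_sdiff, rel, mem_image] at hi
    obtain ⟨⟨a, _, ha⟩, hiA⟩ := hi
    rw [mem_image]
    refine ⟨a, ?_, ha⟩
    rw [mem_union, none, split, mem_filter, mem_filter]
    have : π.e a ∉ A ∨ π.e' a ∉ A := by
      by_cases hw : w a = true
      · left; simp only [hw, if_true] at ha; rw [ha]; exact hiA
      · right; simp only [hw, if_false, Bool.false_eq_true] at ha; rw [ha]; exact hiA
    by_cases h1 : π.e a ∈ A <;> by_cases h2 : π.e' a ∈ A <;> simp_all
  exact (card_le_card h).trans (card_image_le.trans (card_union_le _ _))

end Pairing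

/-- The subsets of `D` with at most `m` elements. -/
def Small {V : Type} [DecidableEq V] (D : Finset V) (m : ℕ) : Finset (Finset V) :=
  D.powerset.filter fun M => M.card ≤ m

theorem mem_Small {V : Type} [DecidableEq V] {D : Finset V} {m : ℕ} {M : Finset V} :
    M ∈ Small D m ↔ M ⊆ D ∧ M.card ≤ m := by
  rw [Small, mem_filter, mem_powerset]

/-- **The main lemma.**  If the circuit decides whether each pair contains a true bit then one of
the sets `pre C h j` splits few pairs, although it contains many pairs and misses many pairs. -/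
theorem main {C : Net X k s} {x : X} {o : Fin s} {m t : ℕ} (hsh : SharesLe C o m)
    (π : Pairing k) (D : Finset (Fin k)) (hD : ∀ a, π.e a ∈ D ∧ π.e' a ∈ D)
    (hΛ : 2 ≤ Fintype.card π.Λ)
    (hC : ∀ y, π.Supp y → (Val C x y o ↔ ∀ a, y (π.e a) = true ∨ y (π.e' a) = true))
    (ht : s ^ 2 * (Small D m).card ^ 2 < 2 ^ t) :
    ∃ h j : Fin s, (π.split (pre C h j)).card < t ∧
      Fintype.card π.Λ < 6 * ((π.both (pre C h j)).card + (π.split (pre C h j)).card) ∧
      Fintype.card π.Λ ≤ 6 * ((π.none (pre C h j)).card + (π.split (pre C h j)).card + m) := by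
  classical
  set K := Fintype.card π.Λ with hK
  -- the data of each tight assignment
  have hdata : ∀ w : π.Λ → Bool, ∃ (h j : Fin s) (M : Finset (Fin k)), M.card ≤ m ∧
      Ctx C x (π.tight w) h j (pre C h j) M o ∧
      (∀ l, C h = Kind.and l → ∀ a ∈ l, a ≤ j → Val C x (π.tight w) a) ∧
      K < 6 * ((π.both (pre C h j)).card + (π.split (pre C h j)).card) ∧
      K ≤ 6 * ((π.none (pre C h j)).card + (π.split (pre C h j)).card + m) := by
    intro w
    have hval : Val C x (π.tight w) o := by
      rw [hC _ (π.tight_supp w)]
      intro a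
      rw [π.tight_e, π.tight_e']
      cases w a <;> simp
    obtain ⟨P, hP⟩ := hval.pt
    have hrel : π.rel w ⊆ P := by
      intro i hi
      by_contra hiP
      rw [Pairing.rel, mem_image] at hi
      obtain ⟨a, _, ha⟩ := hi
      have hv : Val C x (Function.update (π.tight w) i false) o := hP.val fun i' hi' => by
        rw [Function.update_of_ne]
        rintro rfl; exact hiP hi'
      rw [hC] at hv
      · have := hv a
        by_cases hw : w a = true
        · simp only [hw, if_true] at ha
          subst ha
          rcases this with h | h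
          · simp at h
          · rw [Function.update_of_ne (π.ne _ _).symm, π.tight_e', hw] at h
            simp at h
        · simp only [hw, if_false, Bool.false_eq_true] at ha
          subst ha
          rcases this with h | h
          · rw [Function.update_of_ne (π.ne _ _), π.tight_e] at h
            exact hw h
          · simp at h
      · intro i' h1 h2
        have hne : i' ≠ i := by
          rintro rfl
          by_cases hw : w a = true
          · simp only [hw, if_true] at ha; exact h1 a ha
          · simp only [hw, if_false, Bool.false_eq_true] at ha; exact h2 a ha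
        rw [Function.update_of_ne hne]
        exact π.tight_off w i' h1 h2
    have hcr := π.card_rel w
    have hPR : P ∩ π.rel w = π.rel w := inter_eq_right.2 hrel
    obtain ⟨h, j, M', Q, a1, _, a3, a4, a5, a6, a7, a8⟩ :=
      descent (C := C) (x := x) (y := π.tight w) (o := o) (π.rel w) (by omega) hP
        (by rw [hPR]; omega) _ Walk.start
    have hM' : M'.card ≤ m := by
      have := hsh _ _ a1
      rwa [Set.ncard_coe_finset] at this
    refine ⟨h, j, M', hM', a3, a4, ?_, ?_⟩
    · have h1 : (Q ∩ π.rel w).card ≤ (pre C h j ∩ π.rel w).card :=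
        card_le_card (inter_subset_inter_right a5)
      have h2 := π.rel_inter w (pre C h j)
      omega
    · have h1 : π.rel w ⊆ (Q ∩ π.rel w) ∪ ((π.rel w \ pre C h j) ∪ M') := by
        intro i hi
        rw [mem_union, mem_inter, mem_union, mem_sdiff]
        rcases a8 i (hrel hi) with h | h | h
        · exact Or.inl ⟨h, hi⟩
        · exact Or.inr (Or.inl ⟨hi, h⟩)
        · exact Or.inr (Or.inr h)
      have h2 := card_le_card h1
      have h3 := card_union_le (Q ∩ π.rel w) ((π.rel w \ pre C h j) ∪ M')
      have h4 := card_union_le (π.rel w \ pre C h j) M'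
      have h5 := π.rel_sdiff w (pre C h j)
      omega
  choose h j M hM hctx hpre hb hn using hdata
  have hMD : ∀ w, (M w ∩ D) ∈ Small D m := fun w =>
    mem_Small.2 ⟨inter_subset_right, (card_le_card inter_subset_left).trans (hM w)⟩
  -- the classes
  let Φ : (π.Λ → Bool) → Fin s × Fin s × ↥(Small D m) × ↥(Small D m) := fun w =>
    (h w, j w, ⟨M w ∩ D, hMD w⟩, ⟨(M w ∩ D).filter fun i => π.tight w i = true,
      mem_Small.2 ⟨(filter_subset _ _).trans inter_subset_right,
        (card_le_card (filter_subset _ _)).trans (mem_Small.1 (hMD w)).2⟩⟩)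
  have hcard : Fintype.card (Fin s × Fin s × ↥(Small D m) × ↥(Small D m)) * 2 ^ (K - t) <
      Fintype.card (π.Λ → Bool) ∨ K < t := by
    rcases Nat.lt_or_ge K t with hKt | hKt
    · exact Or.inr hKt
    · left
      rw [Fintype.card_prod, Fintype.card_prod, Fintype.card_prod, Fintype.card_fin,
        Fintype.card_coe, Fintype.card_fun, Fintype.card_bool, ← hK]
      calc s * (s * ((Small D m).card * (Small D m).card)) * 2 ^ (K - t)
          = s ^ 2 * (Small D m).card ^ 2 * 2 ^ (K - t) := by ring
        _ < 2 ^ t * 2 ^ (K - t) := Nat.mul_lt_mul_of_pos_right ht (by positivity)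
        _ = 2 ^ K := by rw [← pow_add]; congr 1; omega
  rcases hcard with hcard | hKt
  swap
  · refine ⟨h fun _ => true, j fun _ => true, ?_, hb _, hn _⟩
    refine lt_of_le_of_lt (card_le_univ _) ?_
    rw [← hK]; exact hKt
  · obtain ⟨c, hc⟩ := Fintype.exists_lt_card_fiber_of_mul_lt_card Φ hcard
    -- the class
    have hne : (univ.filter fun w => Φ w = c).Nonempty := card_pos.1 (lt_of_le_of_lt (Nat.zero_le _) hc)
    obtain ⟨w₀, hw₀⟩ := hne
    rw [mem_filter] at hw₀
    have hw₀' := hw₀.2
    refine ⟨h w₀, j w₀, ?_, hb w₀, hn w₀⟩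
    -- members of the class agree on the split pairs
    have hagree : ∀ w w' : π.Λ → Bool, Φ w = Φ w' → ∀ a ∈ π.split (pre C (h w) (j w)),
        w a = w' a := by
      have key : ∀ w w' : π.Λ → Bool, Φ w = Φ w' →
          ∀ a, (π.tight w (π.e a) = true ∧ π.e a ∈ pre C (h w) (j w)) ∨
            (π.tight w' (π.e a) = true ∧ π.e a ∉ pre C (h w) (j w)) ∨
            (π.tight w (π.e' a) = true ∧ π.e' a ∈ pre C (h w) (j w)) ∨
            (π.tight w' (π.e' a) = true ∧ π.e' a ∉ pre C (h w) (j w)) := by
        intro w w' hΦ a
        have hh : h w = h w' := congrArg Prod.fst hΦ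
        have hj : j w = j w' := congrArg (fun p => p.2.1) hΦ
        have hMM : M w ∩ D = M w' ∩ D := congrArg (fun p => p.2.2.1.1) hΦ
        have hMt : ((M w ∩ D).filter fun i => π.tight w i = true) =
            ((M w' ∩ D).filter fun i => π.tight w' i = true) := congrArg (fun p => p.2.2.2.1) hΦ
        have hagM : ∀ i ∈ M w', π.tight w i = π.tight w' i := by
          intro i hi
          by_cases hiD : i ∈ D
          · have h1 : i ∈ ((M w ∩ D).filter fun i => π.tight w i = true) ↔
                i ∈ ((M w' ∩ D).filter fun i => π.tight w' i = true) := by rw [hMt]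
            have hiM : i ∈ M w' ∩ D := mem_inter.2 ⟨hi, hiD⟩
            rw [mem_filter, mem_filter, hMM] at h1
            simp only [hiM, true_and] at h1
            exact Bool.eq_iff_iff.2 h1
          · rw [π.tight_off w i (fun a ha => hiD (ha ▸ (hD a).1))
              (fun a ha => hiD (ha ▸ (hD a).2)), π.tight_off w' i
              (fun a ha => hiD (ha ▸ (hD a).1)) (fun a ha => hiD (ha ▸ (hD a).2))]
        -- the mixture
        let z : Fin k → Bool := fun i => if i ∈ pre C (h w) (j w) then π.tight w i
          else π.tight w' i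
        have hzA : ∀ i ∈ pre C (h w) (j w), z i = π.tight w i := fun i hi => by simp [z, hi]
        have hzB : ∀ i ∉ pre C (h w) (j w), z i = π.tight w' i := fun i hi => by simp [z, hi]
        have hz : Val C x z o := by
          refine Ctx.sound (h := h w) (j := j w) (A := pre C (h w) (j w)) (M := M w') ?_ ?_
          · have h1 := hctx w'
            rw [← hh, ← hj] at h1
            refine h1.local fun i hi => ?_
            by_cases hA : i ∈ pre C (h w) (j w)
            · rw [hzA i hA]; exact hagM i (hi hA)
            · exact hzB i hA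
          · intro l hl a ha haj
            refine (hpre w l hl a ha haj).local fun i hi => ?_
            exact hzA i (mem_pre.2 ⟨l, hl, a, ha, haj, hi⟩)
        rw [hC] at hz
        · rcases hz a with h1 | h1
          · by_cases hA : π.e a ∈ pre C (h w) (j w)
            · rw [hzA _ hA] at h1; exact Or.inl ⟨h1, hA⟩
            · rw [hzB _ hA] at h1; exact Or.inr (Or.inl ⟨h1, hA⟩)
          · by_cases hA : π.e' a ∈ pre C (h w) (j w)
            · rw [hzA _ hA] at h1; exact Or.inr (Or.inr (Or.inl ⟨h1, hA⟩))
            · rw [hzB _ hA] at h1; exact Or.inr (Or.inr (Or.inr ⟨h1, hA⟩))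
        · intro i h1 h2
          show (if i ∈ pre C (h w) (j w) then π.tight w i else π.tight w' i) = true
          rw [π.tight_off w i h1 h2, π.tight_off w' i h1 h2]
          simp
      intro w w' hΦ a ha
      rw [Pairing.split, mem_filter] at ha
      have hh : h w = h w' := congrArg Prod.fst hΦ
      have hj : j w = j w' := congrArg (fun p => p.2.1) hΦ
      have k1 := key w w' hΦ a
      have k2 := key w' w hΦ.symm a
      rw [← hh, ← hj] at k2
      rw [π.tight_e, π.tight_e, π.tight_e', π.tight_e'] at k1 k2
      have h3 := ha.2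
      by_cases h1 : π.e a ∈ pre C (h w) (j w)
      · have h2 : π.e' a ∉ pre C (h w) (j w) := fun h2 => h3 ⟨fun _ => h2, fun _ => h1⟩
        simp only [h1, h2, not_true_eq_false, not_false_eq_true, and_true, and_false,
          false_or] at k1 k2
        cases h4 : w a <;> cases h5 : w' a <;> simp_all
      · have h2 : π.e' a ∈ pre C (h w) (j w) := by
          by_contra h2
          exact h3 ⟨fun h => absurd h h1, fun h => absurd h h2⟩
        simp only [h1, h2, not_true_eq_false, not_false_eq_true, and_true, and_false, false_or,
          or_false] at k1 k2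
        cases h4 : w a <;> cases h5 : w' a <;> simp_all
    set S := π.split (pre C (h w₀) (j w₀)) with hS
    have hclass : (univ.filter fun w => Φ w = c).card ≤ 2 ^ (K - S.card) := by
      have h1 : (univ.filter fun w => Φ w = c).card ≤
          Fintype.card (↥(Sᶜ : Finset π.Λ) → Bool) := by
        rw [← card_univ]
        apply card_le_card_of_injOn (fun w a => w a.1)
        · intro w _; simp
        · intro w hw w' hw' he
          rw [mem_coe, mem_filter] at hw hw'
          funext a
          by_cases ha : a ∈ S
          · rw [← hagree w₀ w (hw₀'.trans hw.2.symm) a ha,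
              ← hagree w₀ w' (hw₀'.trans hw'.2.symm) a ha]
          · exact congrFun he ⟨a, by rw [mem_compl]; exact ha⟩
      rw [Fintype.card_fun, Fintype.card_bool, Fintype.card_coe, card_compl] at h1
      exact h1
    have h2 : 2 ^ (K - t) < 2 ^ (K - S.card) := lt_of_lt_of_le hc hclass
    have h3 := (Nat.pow_lt_pow_iff_right (by norm_num : 1 < 2)).1 h2
    omega

end Pool.Agent.TH708.Shr
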