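import Pool.Agent.TH708.Shr.Orth

/-!
# Circuits whose AND gates share few inputs: cliques through one vertex
-/

set_option autoImplicit false
set_option linter.unusedSectionVars false

namespace Pool.Agent.TH708.Shr

open Finset

variable {k ℓ n s : ℕ}

/-- The graph `G` together with one more vertex `none`, which is joined to the vertices `v` with
`y v = true`. -/
def apex (G : SimpleGraph (Fin n)) (y : Fin n → Bool) : SimpleGraph (Option (Fin n)) :=
  SimpleGraph.fromRel fun a b => (∃ u v, a = some u ∧ b = some v ∧ G.Adj u v) ∨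
    (a = none ∧ ∃ v, b = some v ∧ y v = true)

theorem apex_some {G : SimpleGraph (Fin n)} {y : Fin n → Bool} {u v : Fin n} :
    (apex G y).Adj (some u) (some v) ↔ G.Adj u v := by
  rw [apex, SimpleGraph.fromRel_adj]
  constructor
  · rintro ⟨_, (⟨u', v', h1, h2, h3⟩ | ⟨h1, _⟩) | (⟨u', v', h1, h2, h3⟩ | ⟨h1, _⟩)⟩
    · cases h1; cases h2; exact h3
    · cases h1
    · cases h1; cases h2; exact h3.symm
    · cases h1
  · intro h
    exact ⟨fun h' => h.ne (Option.some_injective _ h'), Or.inl (Or.inl ⟨u, v, rfl, rfl, h⟩)⟩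

theorem apex_none {G : SimpleGraph (Fin n)} {y : Fin n → Bool} {v : Fin n} :
    (apex G y).Adj none (some v) ↔ y v = true := by
  rw [apex, SimpleGraph.fromRel_adj]
  constructor
  · rintro ⟨_, (⟨u', v', h1, h2, h3⟩ | ⟨_, v', h1, h2⟩) | (⟨u', v', h1, h2, h3⟩ | ⟨h1, _⟩)⟩
    · cases h1
    · cases h1; exact h2
    · cases h2
    · cases h1
  · intro h
    exact ⟨Option.some_ne_none v ∘ Eq.symm, Or.inl (Or.inr ⟨rfl, v, rfl, h⟩)⟩

/-- The vertices `ι (γ, a)`, joined if their inner product is the prescribed one. -/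
def orth (ι : Fin k × Vec ℓ → Fin n) (P : Fin k → Fin k → ZMod 2) : SimpleGraph (Fin n) :=
  SimpleGraph.fromRel fun u v => ∃ (γ δ : Fin k) (a b : Vec ℓ), γ ≠ δ ∧ ι (γ, a) = u ∧
    ι (δ, b) = v ∧ a ⬝ᵥ b = P γ δ

theorem orth_adj {ι : Fin k × Vec ℓ → Fin n} {P : Fin k → Fin k → ZMod 2}
    (hP : ∀ γ δ, P γ δ = P δ γ) {u v : Fin n} (h : (orth ι P).Adj u v) :
    ∃ (γ δ : Fin k) (a b : Vec ℓ), γ ≠ δ ∧ ι (γ, a) = u ∧ ι (δ, b) = v ∧ a ⬝ᵥ b = P γ δ := by
  rw [orth, SimpleGraph.fromRel_adj] at h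
  rcases h with ⟨_, h | ⟨γ, δ, a, b, h1, h2, h3, h4⟩⟩
  · exact h
  · exact ⟨δ, γ, b, a, h1.symm, h3, h2, by rw [dotProduct_comm, h4, hP]⟩

theorem orth_adj' {ι : Fin k × Vec ℓ → Fin n} (hι : Function.Injective ι)
    {P : Fin k → Fin k → ZMod 2} (γ δ : Fin k) (a b : Vec ℓ) (h : γ ≠ δ) (h' : a ⬝ᵥ b = P γ δ) :
    (orth ι P).Adj (ι (γ, a)) (ι (δ, b)) := by
  rw [orth, SimpleGraph.fromRel_adj]
  refine ⟨fun h1 => h (Prod.mk.inj (hι h1)).1, Or.inl ⟨γ, δ, a, b, h, rfl, rfl, h'⟩⟩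

theorem clique_iff {ι : Fin k × Vec ℓ → Fin n} (hι : Function.Injective ι)
    {P : Fin k → Fin k → ZMod 2} (hP : ∀ γ δ, P γ δ = P δ γ) (hk : 2 ≤ k) (y : Fin n → Bool) :
    ¬ (apex (orth ι P) y).CliqueFree (k + 1) ↔
      ∃ f : Fin k → Vec ℓ, (∀ γ, y (ι (γ, f γ)) = true) ∧ Good P f := by
  classical
  constructor
  · intro h
    rw [SimpleGraph.CliqueFree] at h
    push Not at h
    obtain ⟨t, ht⟩ := h
    rw [SimpleGraph.isNClique_iff, SimpleGraph.isClique_iff] at ht
    obtain ⟨hadj, hcard⟩ := ht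
    set T' := eraseNone t with hT'
    have hmem : ∀ v, v ∈ T' ↔ some v ∈ t := fun v => mem_eraseNone
    have hc1 : k ≤ T'.card := by
      have h1 : t ⊆ insertNone T' := by
        intro a ha
        cases a with
        | none => exact none_mem_insertNone
        | some v => rw [some_mem_insertNone, hmem]; exact ha
      have h2 := card_le_card h1
      rw [card_insertNone] at h2
      omega
    have hadj' : ∀ u ∈ T', ∀ v ∈ T', u ≠ v → (orth ι P).Adj u v := by
      intro u hu v hv huv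
      rw [← apex_some (y := y)]
      exact hadj (mem_coe.2 ((hmem u).1 hu)) (mem_coe.2 ((hmem v).1 hv))
        fun h => huv (Option.some_injective _ h)
    have hex : ∀ v, ∃ p : Fin k × Vec ℓ, v ∈ T' → ι p = v := by
      intro v
      by_cases hv : v ∈ T'
      · obtain ⟨u, hu, huv⟩ := exists_mem_ne (show 1 < T'.card by omega) v
        obtain ⟨γ, δ, a, b, _, h2, _, _⟩ := orth_adj hP (hadj' v hv u hu huv.symm)
        exact ⟨(γ, a), fun _ => h2⟩
      · exact ⟨(⟨0, by omega⟩, 0), fun h => absurd h hv⟩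
    choose p hp using hex
    have hrel : ∀ u ∈ T', ∀ v ∈ T', u ≠ v → (p u).1 ≠ (p v).1 ∧
        (p u).2 ⬝ᵥ (p v).2 = P (p u).1 (p v).1 := by
      intro u hu v hv huv
      obtain ⟨γ, δ, a, b, h1, h2, h3, h4⟩ := orth_adj hP (hadj' u hu v hv huv)
      have e1 : p u = (γ, a) := hι ((hp u hu).trans h2.symm)
      have e2 : p v = (δ, b) := hι ((hp v hv).trans h3.symm)
      rw [e1, e2]
      exact ⟨h1, h4⟩
    have hinj : Set.InjOn (fun v => (p v).1) (T' : Set (Fin n)) := by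
      intro u hu v hv huv
      by_contra hne
      exact (hrel u hu v hv hne).1 huv
    have himg : T'.image (fun v => (p v).1) = univ := by
      apply eq_univ_of_card
      rw [card_image_of_injOn hinj, Fintype.card_fin]
      apply le_antisymm _ hc1
      rw [← card_image_of_injOn hinj]
      exact (card_le_univ _).trans (by rw [Fintype.card_fin])
    have hnone : none ∈ t := by
      by_contra hn
      have h1 : t ⊆ T'.map Function.Embedding.some := by
        intro a ha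
        cases a with
        | none => exact absurd ha hn
        | some v => rw [mem_map]; exact ⟨v, (hmem v).2 ha, rfl⟩
      have h2 := card_le_card h1
      rw [card_map] at h2
      have h3 : T'.card ≤ k := by
        rw [← card_image_of_injOn hinj]
        exact (card_le_univ _).trans (by rw [Fintype.card_fin])
      omega
    have hsurj : ∀ γ : Fin k, ∃ v ∈ T', (p v).1 = γ := by
      intro γ
      have : γ ∈ T'.image (fun v => (p v).1) := by rw [himg]; exact mem_univ _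
      rw [mem_image] at this
      exact this
    choose w hw hwγ using hsurj
    refine ⟨fun γ => (p (w γ)).2, fun γ => ?_, fun γ δ hγδ => ?_⟩
    · have h1 : ι (γ, (p (w γ)).2) = w γ := by
        conv_lhs => rw [← hwγ γ]
        have := hp (w γ) (hw γ)
        rw [hwγ γ]
        conv_rhs => rw [← this]
        congr 1
        exact Prod.ext (hwγ γ).symm rfl
      rw [h1, ← apex_none (G := orth ι P)]
      exact hadj (mem_coe.2 hnone) (mem_coe.2 ((hmem _).1 (hw γ))) (by simp)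
    · have hne : w γ ≠ w δ := by
        intro h1
        apply hγδ
        rw [← hwγ γ, ← hwγ δ, h1]
      have := (hrel (w γ) (hw γ) (w δ) (hw δ) hne).2
      rw [hwγ γ, hwγ δ] at this
      exact this
  · rintro ⟨f, h1, h2⟩ hfree
    refine hfree (insertNone (univ.image fun γ => ι (γ, f γ))) ?_
    have hinj : Function.Injective fun γ => ι (γ, f γ) := fun a b h => (Prod.mk.inj (hι h)).1
    rw [SimpleGraph.isNClique_iff, SimpleGraph.isClique_iff]
    constructor
    · intro a ha b hb hab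
      rw [mem_coe] at ha hb
      cases a with
      | none =>
        cases b with
        | none => exact absurd rfl hab
        | some v =>
          rw [some_mem_insertNone, mem_image] at hb
          obtain ⟨γ, _, rfl⟩ := hb
          exact apex_none.2 (h1 γ)
      | some u =>
        rw [some_mem_insertNone, mem_image] at ha
        obtain ⟨γ, _, rfl⟩ := ha
        cases b with
        | none => exact (apex_none.2 (h1 γ)).symm
        | some v =>
          rw [some_mem_insertNone, mem_image] at hb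
          obtain ⟨δ, _, rfl⟩ := hb
          have hne : γ ≠ δ := by
            rintro rfl
            exact hab rfl
          exact apex_some.2 (orth_adj' hι γ δ _ _ hne (h2 γ δ hne))
    · rw [card_insertNone, card_image_of_injective _ hinj, card_univ, Fintype.card_fin]

theorem two_mul_le_two_pow (hk : 2 ≤ k) : 2 * k ≤ 2 ^ k := by
  obtain ⟨j, rfl⟩ := Nat.exists_eq_add_of_le' (show 1 ≤ k by omega)
  have : j < 2 ^ j := Nat.lt_two_pow_self
  rw [pow_succ]
  omega

/-- **Cliques.** -/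
theorem clique_lower {m : ℕ} (hk : 2 ≤ k) {C : Net (SimpleGraph (Fin n)) n s} {o : Fin s}
    (hsh : SharesLe C o m)
    (hC : ∀ G y, Val C G y o ↔ ¬ (apex G y).CliqueFree (k + 1)) :
    n ^ k ≤ (2 ^ (k ^ 2) * s * n ^ m) ^ 12 := by
  classical
  have hs : 1 ≤ s := by have := o.2; omega
  rcases Nat.eq_zero_or_pos n with rfl | hn
  · rw [zero_pow (by omega)]; exact Nat.zero_le _
  have hexp : (2 ^ (k ^ 2) * s * n ^ m) ^ 12 = 2 ^ (12 * k ^ 2) * s ^ 12 * n ^ (12 * m) := by
    rw [mul_pow, mul_pow, ← pow_mul, ← pow_mul]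
    congr 2 <;> [congr 1; skip] <;> ring_nf
  rw [hexp]
  have hs12 : 1 ≤ s ^ 12 := Nat.one_le_pow _ _ hs
  rcases Nat.lt_or_ge (12 * m) k with hmk | hmk
  swap
  · calc n ^ k ≤ n ^ (12 * m) := Nat.pow_le_pow_right hn hmk
      _ = 1 * 1 * n ^ (12 * m) := by ring
      _ ≤ _ := Nat.mul_le_mul_right _ (Nat.mul_le_mul Nat.one_le_two_pow hs12)
  have hk2 := two_mul_le_two_pow hk
  rcases Nat.lt_or_ge n k with hnk | hnk
  · have h1 : n ≤ 2 ^ k := by omega
    calc n ^ k ≤ (2 ^ k) ^ k := Nat.pow_le_pow_left h1 k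
      _ = 2 ^ (k ^ 2) * 1 * 1 := by rw [← pow_mul, pow_two]; ring
      _ ≤ 2 ^ (12 * k ^ 2) * s ^ 12 * n ^ (12 * m) := by
          refine Nat.mul_le_mul (Nat.mul_le_mul (Nat.pow_le_pow_right (by norm_num) (by nlinarith))
            hs12) (Nat.one_le_pow _ _ hn)
  obtain ⟨ℓ, hℓ⟩ : ∃ ℓ, ℓ = Nat.log 2 (n / k) := ⟨_, rfl⟩
  have hnk1 : 1 ≤ n / k := (Nat.one_le_div_iff (by omega)).2 hnk
  have h1 : 2 ^ ℓ ≤ n / k := by rw [hℓ]; exact Nat.pow_log_le_self 2 (by omega)
  have h2 : n / k < 2 ^ (ℓ + 1) := by rw [hℓ]; exact Nat.lt_pow_succ_log_self (by norm_num) _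
  have h3 : k * 2 ^ ℓ ≤ n := by
    rw [Nat.le_div_iff_mul_le (by omega)] at h1
    rw [mul_comm]; exact h1
  have h4 : n ≤ 2 * k * 2 ^ ℓ := by
    rw [Nat.div_lt_iff_lt_mul (by omega), pow_succ] at h2
    have : 2 ^ ℓ * 2 * k = 2 * k * 2 ^ ℓ := by ring
    omega
  have h5 : (2 : ℕ) ^ ℓ ≤ n := by
    refine le_trans ?_ h3
    exact Nat.le_mul_of_pos_left _ (by omega)
  -- the embedding
  have hcard : Fintype.card (Fin k × Vec ℓ) ≤ Fintype.card (Fin n) := by
    simp only [Fintype.card_prod, Fintype.card_fin, Fintype.card_fun, ZMod.card]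
    exact h3
  obtain ⟨ι⟩ := Function.Embedding.nonempty_of_card_le hcard
  obtain ⟨P, hP, hF⟩ := exists_pattern k ℓ
  have hmain := orth_main hsh hk ι ι.injective P (univ.filter fun f : Fin k → Vec ℓ => Good P f)
    (fun f hf => (mem_filter.1 hf).2) (x := orth ι P)
    (fun y => (hC _ y).trans (clique_iff ι.injective hP hk y))
  have h6 := hF.trans (Nat.mul_le_mul_left _ hmain)
  have h7 : (2 ^ ℓ) ^ k ≤ 2 ^ (6 * k ^ 2) * s ^ 12 * (2 ^ (12 * m) * n ^ (12 * m)) := by
    have h8 := Nat.pow_le_pow_left h6 6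
    have h9 : ((2 ^ ℓ) ^ ((5 * k + 6 * m) / 6)) ^ 6 ≤ (2 ^ ℓ) ^ (5 * k + 6 * m) := by
      rw [← pow_mul]
      exact Nat.pow_le_pow_right (by positivity) (Nat.div_mul_le_self _ _)
    have h10 : ((n + 1) ^ m * 2 ^ m) ^ 6 ≤ 2 ^ (12 * m) * n ^ (6 * m) := by
      calc ((n + 1) ^ m * 2 ^ m) ^ 6 ≤ ((2 * n) ^ m * 2 ^ m) ^ 6 :=
            Nat.pow_le_pow_left (Nat.mul_le_mul_right _ (Nat.pow_le_pow_left (by omega) _)) 6
        _ = 2 ^ (12 * m) * n ^ (6 * m) := by
            rw [mul_pow 2 n m, mul_pow, mul_pow, ← pow_mul, ← pow_mul, mul_right_comm, ← pow_add]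
            congr 1
            · congr 1; ring
            · congr 1; ring
    have h11 : (2 ^ ℓ) ^ (6 * m) ≤ n ^ (6 * m) := Nat.pow_le_pow_left h5 _
    have h12 : (2 ^ ℓ) ^ (5 * k) * (2 ^ ℓ) ^ k ≤
        (2 ^ ℓ) ^ (5 * k) * (2 ^ (6 * k ^ 2) * s ^ 12 * (2 ^ (12 * m) * n ^ (12 * m))) := by
      have e1 : (2 ^ ℓ) ^ (5 * k) * (2 ^ ℓ) ^ k = ((2 ^ ℓ) ^ k) ^ 6 := by
        generalize (2 : ℕ) ^ ℓ = a
        rw [← pow_add, ← pow_mul]
        congr 1
        ring
      rw [e1]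
      calc ((2 ^ ℓ) ^ k) ^ 6 ≤ _ := h8
        _ = 2 ^ (6 * k ^ 2) * s ^ 12 * ((n + 1) ^ m * 2 ^ m) ^ 6 *
            ((2 ^ ℓ) ^ ((5 * k + 6 * m) / 6)) ^ 6 := by
            rw [mul_pow, mul_pow, mul_pow, ← pow_mul, ← pow_mul]
            ring
        _ ≤ 2 ^ (6 * k ^ 2) * s ^ 12 * (2 ^ (12 * m) * n ^ (6 * m)) *
            ((2 ^ ℓ) ^ (5 * k) * n ^ (6 * m)) := by
            refine Nat.mul_le_mul (Nat.mul_le_mul_left _ h10) (h9.trans ?_)
            rw [pow_add]
            exact Nat.mul_le_mul_left _ h11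
        _ = _ := by
            have : n ^ (12 * m) = n ^ (6 * m) * n ^ (6 * m) := by rw [← pow_add]; congr 1; ring
            rw [this]; ring
    exact Nat.le_of_mul_le_mul_left h12 (by positivity)
  calc n ^ k ≤ (2 * k * 2 ^ ℓ) ^ k := Nat.pow_le_pow_left h4 k
    _ = (2 * k) ^ k * (2 ^ ℓ) ^ k := mul_pow _ _ _
    _ ≤ (2 ^ k) ^ k * (2 ^ (6 * k ^ 2) * s ^ 12 * (2 ^ (12 * m) * n ^ (12 * m))) :=
        Nat.mul_le_mul (Nat.pow_le_pow_left hk2 k) h7
    _ = 2 ^ (k * k + 6 * k ^ 2 + 12 * m) * s ^ 12 * n ^ (12 * m) := by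
        rw [← pow_mul, pow_add, pow_add]; ring
    _ ≤ 2 ^ (12 * k ^ 2) * s ^ 12 * n ^ (12 * m) := by
        refine Nat.mul_le_mul_right _ (Nat.mul_le_mul_right _
          (Nat.pow_le_pow_right (by norm_num) (by nlinarith)))

end Pool.Agent.TH708.Shr
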