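import Pool.Agent.TH708.Shr.OrthDup

/-!
# Few bits read both below a node and in its contexts: the bound for cliques
-/

set_option autoImplicit false
set_option linter.unusedSectionVars false

namespace Pool.Agent.TH708.Shr

open Finset

variable {k n s : ℕ}

theorem clique_dup {m : ℕ} (hk : 2 ≤ k) (hm : 1 ≤ m) {C : Net (SimpleGraph (Fin n)) n s}
    {o : Fin s} (hdup : ∀ h j, Reach C o h → (dupPre C o h j).card ≤ m)
    (hC : ∀ G y, Val C G y o ↔ ¬ (apex G y).CliqueFree (k + 1)) :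
    n ^ k ≤ (2 ^ (k ^ 2) * s) ^ 12 * m ^ k := by
  classical
  have hs : 1 ≤ s := by have := o.2; omega
  rcases Nat.eq_zero_or_pos n with rfl | hn
  · rw [zero_pow (by omega)]; exact Nat.zero_le _
  have hexp : (2 ^ (k ^ 2) * s) ^ 12 = 2 ^ (12 * k ^ 2) * s ^ 12 := by
    rw [mul_pow, ← pow_mul]
    congr 2
    ring
  rw [hexp]
  have hs12 : 1 ≤ s ^ 12 := Nat.one_le_pow _ _ hs
  have hmk : 1 ≤ m ^ k := Nat.one_le_pow _ _ hm
  have hk2 := two_mul_le_two_pow hk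
  rcases Nat.lt_or_ge n k with hnk | hnk
  · have h1 : n ≤ 2 ^ k := by omega
    calc n ^ k ≤ (2 ^ k) ^ k := Nat.pow_le_pow_left h1 k
      _ = 2 ^ (k ^ 2) * 1 * 1 := by rw [← pow_mul, pow_two]; ring
      _ ≤ 2 ^ (12 * k ^ 2) * s ^ 12 * m ^ k := by
          refine Nat.mul_le_mul (Nat.mul_le_mul (Nat.pow_le_pow_right (by norm_num) (by nlinarith))
            hs12) hmk
  obtain ⟨ℓ, hℓ⟩ : ∃ ℓ, ℓ = Nat.log 2 (n / k) := ⟨_, rfl⟩
  have hnk1 : 1 ≤ n / k := (Nat.one_le_div_iff (by omega)).2 hnk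
  have h1 : 2 ^ ℓ ≤ n / k := by rw [hℓ]; exact Nat.pow_log_le_self 2 (by omega)
  have h2 : n / k < 2 ^ (ℓ + 1) := by rw [hℓ]; exact Nat.lt_pow_succ_log_self (by norm_num) _
  have h3 : k * 2 ^ ℓ ≤ n := by
    rw [Nat.le_div_iff_mul_le (by omega)] at h1
    rw [mul_comm]; exact h1
  have h4 : n ≤ 2 * k * 2 ^ ℓ := by
    rw [Nat.div_lt_iff_lt_mul (by omega), pow_succ] at h2
    have : 2 ^ ℓ * 2 * k = 2 * k * 2 ^ ℓ := by ring
    omega
  rcases Nat.lt_or_ge (2 ^ ℓ) m with hmN | hmN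
  · calc n ^ k ≤ (2 ^ k * m) ^ k := by
          refine Nat.pow_le_pow_left (h4.trans ?_) k
          exact Nat.mul_le_mul hk2 hmN.le
      _ = 2 ^ (k ^ 2) * 1 * m ^ k := by rw [mul_pow, ← pow_mul, pow_two]; ring
      _ ≤ 2 ^ (12 * k ^ 2) * s ^ 12 * m ^ k := by
          refine Nat.mul_le_mul_right _ (Nat.mul_le_mul (Nat.pow_le_pow_right (by norm_num)
            (by nlinarith)) hs12)
  -- the embedding
  have hcard : Fintype.card (Fin k × Vec ℓ) ≤ Fintype.card (Fin n) := by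
    simp only [Fintype.card_prod, Fintype.card_fin, Fintype.card_fun, ZMod.card]
    exact h3
  obtain ⟨ι⟩ := Function.Embedding.nonempty_of_card_le hcard
  obtain ⟨P, hP, hF⟩ := exists_pattern k ℓ
  have hmain := orth_dup hdup hm hmN hk ι ι.injective P
    (univ.filter fun f : Fin k → Vec ℓ => Good P f)
    (fun f hf => (mem_filter.1 hf).2) (x := orth ι P)
    (fun y => (hC _ y).trans (clique_iff ι.injective hP hk y))
  have h7 : (2 ^ ℓ) ^ k ≤ 2 ^ (6 * k ^ 2) * (2 ^ (6 * k) * s ^ 12 * m ^ k) := by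
    have h8 := Nat.pow_le_pow_left hF 6
    have h9 : (s ^ 2 * (k + 1)) ^ 6 ≤ 2 ^ (6 * k) * s ^ 12 := by
      have e1 : k + 1 ≤ 2 ^ k := by omega
      calc (s ^ 2 * (k + 1)) ^ 6 ≤ (s ^ 2 * 2 ^ k) ^ 6 :=
            Nat.pow_le_pow_left (Nat.mul_le_mul_left _ e1) 6
        _ = 2 ^ (6 * k) * s ^ 12 := by
            rw [mul_pow, ← pow_mul, ← pow_mul, mul_comm, mul_comm k 6]
    have e1 : (2 ^ ℓ) ^ (5 * k) * (2 ^ ℓ) ^ k = ((2 ^ ℓ) ^ k) ^ 6 := by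
      generalize (2 : ℕ) ^ ℓ = a
      rw [← pow_add, ← pow_mul]
      congr 1
      ring
    have h12 : (2 ^ ℓ) ^ (5 * k) * (2 ^ ℓ) ^ k ≤
        (2 ^ ℓ) ^ (5 * k) * (2 ^ (6 * k ^ 2) * (2 ^ (6 * k) * s ^ 12 * m ^ k)) := by
      rw [e1]
      calc ((2 ^ ℓ) ^ k) ^ 6 ≤ _ := h8
        _ = 2 ^ (6 * k ^ 2) * ((univ.filter fun f : Fin k → Vec ℓ => Good P f).card) ^ 6 := by
            rw [mul_pow, ← pow_mul, mul_comm (k ^ 2) 6]
        _ ≤ 2 ^ (6 * k ^ 2) * ((s ^ 2 * (k + 1)) ^ 6 * (m ^ k * (2 ^ ℓ) ^ (5 * k))) :=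
            Nat.mul_le_mul_left _ hmain
        _ ≤ 2 ^ (6 * k ^ 2) * ((2 ^ (6 * k) * s ^ 12) * (m ^ k * (2 ^ ℓ) ^ (5 * k))) :=
            Nat.mul_le_mul_left _ (Nat.mul_le_mul_right _ h9)
        _ = _ := by ring
    exact Nat.le_of_mul_le_mul_left h12 (by positivity)
  calc n ^ k ≤ (2 * k * 2 ^ ℓ) ^ k := Nat.pow_le_pow_left h4 k
    _ = (2 * k) ^ k * (2 ^ ℓ) ^ k := mul_pow _ _ _
    _ ≤ (2 ^ k) ^ k * (2 ^ (6 * k ^ 2) * (2 ^ (6 * k) * s ^ 12 * m ^ k)) :=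
        Nat.mul_le_mul (Nat.pow_le_pow_left hk2 k) h7
    _ = 2 ^ (k * k + 6 * k ^ 2 + 6 * k) * s ^ 12 * m ^ k := by
        rw [← pow_mul, pow_add, pow_add]; ring
    _ ≤ 2 ^ (12 * k ^ 2) * s ^ 12 * m ^ k := by
        refine Nat.mul_le_mul_right _ (Nat.mul_le_mul_right _
          (Nat.pow_le_pow_right (by norm_num) (by nlinarith)))

end Pool.Agent.TH708.Shr
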