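import Mathlib

/-!
# Circuits whose AND gates share few inputs

Circuits with `s` nodes over `k` tracked bits; the other leaves are arbitrary predicates of the
remaining part of the input.
-/

set_option autoImplicit false
set_option linter.unusedSectionVars false

namespace Pool.Agent.TH708.Shr

open Finset

/-- What a node is: a literal of a tracked bit, an arbitrary predicate on inputs `X`, the
conjunction or the disjunction of a set of nodes. -/
inductive Kind (X : Type) (k s : ℕ) : Type
  | lit (i : Fin k) (b : Bool)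
  | fn (φ : X → Prop)
  | and (l : Finset (Fin s))
  | or (l : Finset (Fin s))

/-- A circuit with `s` nodes. -/
abbrev Net (X : Type) (k s : ℕ) : Type := Fin s → Kind X k s

variable {X : Type} {k s : ℕ}

/-- The node is true on the input `x` when the tracked bits are `y`. -/
inductive Val (C : Net X k s) (x : X) (y : Fin k → Bool) : Fin s → Prop
  | lit (g : Fin s) (i : Fin k) (b : Bool) : C g = Kind.lit i b → y i = b → Val C x y g
  | fn (g : Fin s) (φ : X → Prop) : C g = Kind.fn φ → φ x → Val C x y g
  | and (g : Fin s) (l : Finset (Fin s)) : C g = Kind.and l → (∀ a ∈ l, Val C x y a) →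
      Val C x y g
  | or (g : Fin s) (l : Finset (Fin s)) (a : Fin s) : C g = Kind.or l → a ∈ l →
      Val C x y a → Val C x y g

/-- There is a directed path from a literal of the tracked bit `i` to the node. -/
inductive Reads (C : Net X k s) (i : Fin k) : Fin s → Prop
  | lit (g : Fin s) (b : Bool) : C g = Kind.lit i b → Reads C i g
  | and (g : Fin s) (l : Finset (Fin s)) (a : Fin s) : C g = Kind.and l → a ∈ l →
      Reads C i a → Reads C i g
  | or (g : Fin s) (l : Finset (Fin s)) (a : Fin s) : C g = Kind.or l → a ∈ l →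
      Reads C i a → Reads C i g

/-- The tracked bits which at least two inputs of the AND gate `g` read. -/
def shared (C : Net X k s) (g : Fin s) : Set (Fin k) :=
  {i | ∃ l, C g = Kind.and l ∧ ∃ a ∈ l, ∃ b ∈ l, a ≠ b ∧ Reads C i a ∧ Reads C i b}

/-- There is a path from `o` down to `g` such that `M` is the set of the tracked bits which are
shared at some AND gate of the path. -/
inductive Walk (C : Net X k s) (o : Fin s) : Fin s → Set (Fin k) → Prop
  | start : Walk C o o (shared C o)
  | and (g : Fin s) (M : Set (Fin k)) (l : Finset (Fin s)) (a : Fin s) : Walk C o g M →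
      C g = Kind.and l → a ∈ l → Walk C o a (M ∪ shared C a)
  | or (g : Fin s) (M : Set (Fin k)) (l : Finset (Fin s)) (a : Fin s) : Walk C o g M →
      C g = Kind.or l → a ∈ l → Walk C o a (M ∪ shared C a)

/-- On every path from `o` at most `m` tracked bits are shared. -/
def SharesLe (C : Net X k s) (o : Fin s) (m : ℕ) : Prop :=
  ∀ g M, Walk C o g M → M.ncard ≤ m

/-! ## Proof trees -/

/-- The node has a proof tree that reads exactly the tracked bits in `P`. -/
inductive PT (C : Net X k s) (x : X) (y : Fin k → Bool) : Fin s → Finset (Fin k) → Prop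
  | lit (g : Fin s) (i : Fin k) (b : Bool) : C g = Kind.lit i b → y i = b → PT C x y g {i}
  | fn (g : Fin s) (φ : X → Prop) : C g = Kind.fn φ → φ x → PT C x y g ∅
  | and (g : Fin s) (l : Finset (Fin s)) (P : Fin s → Finset (Fin k)) : C g = Kind.and l →
      (∀ a ∈ l, PT C x y a (P a)) → PT C x y g (l.biUnion P)
  | or (g : Fin s) (l : Finset (Fin s)) (a : Fin s) (P : Finset (Fin k)) : C g = Kind.or l →
      a ∈ l → PT C x y a P → PT C x y g P

theorem Val.pt {C : Net X k s} {x : X} {y : Fin k → Bool} {g : Fin s} (h : Val C x y g) :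
    ∃ P, PT C x y g P := by
  classical
  induction h with
  | lit g i b h1 h2 => exact ⟨_, PT.lit g i b h1 h2⟩
  | fn g φ h1 h2 => exact ⟨_, PT.fn g φ h1 h2⟩
  | and g l h1 _ ih =>
    have : ∀ a, ∃ P, a ∈ l → PT C x y a P := by
      intro a
      by_cases ha : a ∈ l
      · obtain ⟨P, hP⟩ := ih a ha; exact ⟨P, fun _ => hP⟩
      · exact ⟨∅, fun h => absurd h ha⟩
    choose P hP using this
    exact ⟨_, PT.and g l P h1 hP⟩
  | or g l a h1 h2 _ ih =>
    obtain ⟨P, hP⟩ := ih
    exact ⟨P, PT.or g l a P h1 h2 hP⟩

theorem PT.val {C : Net X k s} {x : X} {y y' : Fin k → Bool} {g : Fin s} {P : Finset (Fin k)}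
    (h : PT C x y g P) (hy : ∀ i ∈ P, y' i = y i) : Val C x y' g := by
  classical
  induction h with
  | lit g i b h1 h2 => exact Val.lit g i b h1 (by rw [hy i (mem_singleton_self i)]; exact h2)
  | fn g φ h1 h2 => exact Val.fn g φ h1 h2
  | and g l P h1 _ ih =>
    exact Val.and g l h1 fun a ha => ih a ha fun i hi => hy i (mem_biUnion.2 ⟨a, ha, hi⟩)
  | or g l a P h1 h2 _ ih => exact Val.or g l a h1 h2 (ih hy)

theorem PT.reads {C : Net X k s} {x : X} {y : Fin k → Bool} {g : Fin s} {P : Finset (Fin k)}
    (h : PT C x y g P) : ∀ i ∈ P, Reads C i g := by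
  classical
  induction h with
  | lit g i b h1 h2 => intro j hj; rw [mem_singleton] at hj; subst hj; exact Reads.lit g b h1
  | fn g φ h1 h2 => intro j hj; simp at hj
  | and g l P h1 _ ih =>
    intro j hj
    obtain ⟨a, ha, hj⟩ := mem_biUnion.1 hj
    exact Reads.and g l a h1 ha (ih a ha j hj)
  | or g l a P h1 h2 _ ih => intro j hj; exact Reads.or g l a h1 h2 (ih j hj)

theorem Val.local {C : Net X k s} {x : X} {y y' : Fin k → Bool} {g : Fin s} (h : Val C x y g)
    (hy : ∀ i, Reads C i g → y' i = y i) : Val C x y' g := by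
  obtain ⟨P, hP⟩ := h.pt
  exact hP.val fun i hi => hy i (hP.reads i hi)

/-! ## Contexts -/

/-- A derivation from the inputs of the AND gate `h` with numbers at most `j`, which together read
the tracked bits in `A`, such that all side conditions read only bits outside `A` or in `M`. -/
inductive Ctx (C : Net X k s) (x : X) (y : Fin k → Bool) (h j : Fin s) (A M : Finset (Fin k)) :
    Fin s → Prop
  | hole (l : Finset (Fin s)) : C h = Kind.and l → (∀ a ∈ l, j < a → Val C x y a) →
      (∀ a ∈ l, j < a → ∀ i ∈ A, Reads C i a → i ∈ M) → Ctx C x y h j A M h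
  | or (g : Fin s) (l : Finset (Fin s)) (a : Fin s) : C g = Kind.or l → a ∈ l →
      Ctx C x y h j A M a → Ctx C x y h j A M g
  | and (g : Fin s) (l : Finset (Fin s)) (a : Fin s) : C g = Kind.and l → a ∈ l →
      Ctx C x y h j A M a → (∀ b ∈ l, b ≠ a → Val C x y b) →
      (∀ b ∈ l, b ≠ a → ∀ i ∈ A, Reads C i b → i ∈ M) → Ctx C x y h j A M g

theorem Ctx.sound {C : Net X k s} {x : X} {y : Fin k → Bool} {h j : Fin s}
    {A M : Finset (Fin k)} {g : Fin s} (hc : Ctx C x y h j A M g)
    (hp : ∀ l, C h = Kind.and l → ∀ a ∈ l, a ≤ j → Val C x y a) : Val C x y g := by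
  induction hc with
  | hole l h1 h2 _ =>
    refine Val.and h l h1 fun a ha => ?_
    rcases le_or_gt a j with h3 | h3
    · exact hp l h1 a ha h3
    · exact h2 a ha h3
  | or g l a h1 h2 _ ih => exact Val.or g l a h1 h2 ih
  | and g l a h1 _ _ h3 _ ih =>
    refine Val.and g l h1 fun b hb => ?_
    by_cases hba : b = a
    · rw [hba]; exact ih
    · exact h3 b hb hba

theorem Ctx.local {C : Net X k s} {x : X} {y y' : Fin k → Bool} {h j : Fin s}
    {A M : Finset (Fin k)} {g : Fin s} (hc : Ctx C x y h j A M g)
    (hy : ∀ i, (i ∈ A → i ∈ M) → y' i = y i) : Ctx C x y' h j A M g := by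
  induction hc with
  | hole l h1 h2 h3 =>
    exact Ctx.hole l h1 (fun a ha hj => (h2 a ha hj).local fun i hi =>
      hy i fun hA => h3 a ha hj i hA hi) h3
  | or g l a h1 h2 _ ih => exact Ctx.or g l a h1 h2 ih
  | and g l a h1 h2 _ h3 h4 ih =>
    exact Ctx.and g l a h1 h2 ih (fun b hb hba => (h3 b hb hba).local fun i hi =>
      hy i fun hA => h4 b hb hba i hA hi) h4

open Classical in
/-- The tracked bits which are read by the inputs of the AND gate `h` with numbers at most `j`. -/
noncomputable def pre (C : Net X k s) (h j : Fin s) : Finset (Fin k) :=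
  univ.filter fun i => ∃ l, C h = Kind.and l ∧ ∃ a ∈ l, a ≤ j ∧ Reads C i a

theorem mem_pre {C : Net X k s} {h j : Fin s} {i : Fin k} :
    i ∈ pre C h j ↔ ∃ l, C h = Kind.and l ∧ ∃ a ∈ l, a ≤ j ∧ Reads C i a := by
  classical
  simp [pre]

theorem Ctx.sub {C : Net X k s} {x : X} {y : Fin k → Bool} {h j : Fin s}
    {M : Finset (Fin k)} {g : Fin s} (hc : Ctx C x y h j (pre C h j) M g) :
    ∀ i ∈ pre C h j, Reads C i g := by
  generalize hA : pre C h j = A at hc
  induction hc with
  | hole l h1 h2 _ =>
    intro i hi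
    rw [← hA, mem_pre] at hi
    obtain ⟨l', h3, a, ha, _, h4⟩ := hi
    exact Reads.and h l' a h3 ha h4
  | or g l a h1 h2 _ ih => intro i hi; exact Reads.or g l a h1 h2 (ih i hi)
  | and g l a h1 h2 _ _ _ ih => intro i hi; exact Reads.and g l a h1 h2 (ih i hi)

theorem walk_shared {C : Net X k s} {o g : Fin s} {M : Set (Fin k)} (h : Walk C o g M) :
    shared C g ⊆ M := by
  cases h with
  | start => exact Set.Subset.rfl
  | and => exact Set.subset_union_right
  | or => exact Set.subset_union_right

/-- **Descent.** -/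
theorem descent {C : Net X k s} {x : X} {y : Fin k → Bool} {o : Fin s} (Rel : Finset (Fin k))
    (hK : 2 ≤ Rel.card) {g : Fin s} {P : Finset (Fin k)} (hP : PT C x y g P) :
    2 * Rel.card < 3 * (P ∩ Rel).card → ∀ M : Set (Fin k), Walk C o g M →
    ∃ (h j : Fin s) (M' : Finset (Fin k)) (Q : Finset (Fin k)), Walk C o h (M' : Set (Fin k)) ∧
      M ⊆ (M' : Set (Fin k)) ∧
      Ctx C x y h j (pre C h j) M' g ∧
      (∀ l, C h = Kind.and l → ∀ a ∈ l, a ≤ j → Val C x y a) ∧
      Q ⊆ pre C h j ∧ Rel.card < 6 * (Q ∩ Rel).card ∧ 6 * (Q ∩ Rel).card ≤ 5 * Rel.card ∧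
      ∀ i ∈ P, i ∈ Q ∨ i ∉ pre C h j ∨ i ∈ M' := by
  classical
  induction hP with
  | lit g i b h1 h2 =>
    intro h3
    have : (({i} : Finset (Fin k)) ∩ Rel).card ≤ 1 :=
      (card_le_card inter_subset_left).trans (by simp)
    omega
  | fn g φ h1 h2 => intro h3; simp at h3
  | or g l a P h1 h2 _ ih =>
    intro h3 M hM
    obtain ⟨h, j, M', Q, a1, a2, a3, a4, a5, a6, a7, a8⟩ := ih h3 _ (Walk.or g M l a hM h1 h2)
    exact ⟨h, j, M', Q, a1, Set.subset_union_left.trans a2, Ctx.or g l a h1 h2 a3, a4, a5, a6, a7,
      a8⟩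
  | and g l P h1 hPT ih =>
    intro h3 M hM
    by_cases hbig : ∃ a ∈ l, 2 * Rel.card < 3 * (P a ∩ Rel).card
    · obtain ⟨a, ha, h4⟩ := hbig
      obtain ⟨h, j, M', Q, a1, a2, a3, a4, a5, a6, a7, a8⟩ :=
        ih a ha h4 _ (Walk.and g M l a hM h1 ha)
      have hside : ∀ b ∈ l, b ≠ a → ∀ i ∈ pre C h j, Reads C i b → i ∈ M' := by
        intro b hb hba i hi hr
        have h5 : i ∈ shared C g := ⟨l, h1, b, hb, a, ha, hba, hr, a3.sub i hi⟩
        exact_mod_cast a2 (Or.inl (walk_shared hM h5))
      refine ⟨h, j, M', Q, a1, Set.subset_union_left.trans a2,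
        Ctx.and g l a h1 ha a3 (fun b hb _ => (hPT b hb).val fun _ _ => rfl) hside, a4, a5, a6,
        a7, ?_⟩
      intro i hi
      obtain ⟨b, hb, hib⟩ := mem_biUnion.1 hi
      by_cases hba : b = a
      · subst hba; exact a8 i hib
      · by_cases hpre : i ∈ pre C h j
        · exact Or.inr (Or.inr (hside b hb hba i hpre ((hPT b hb).reads i hib)))
        · exact Or.inr (Or.inl hpre)
    · push Not at hbig
      -- the prefixes
      let Q : Fin s → Finset (Fin k) := fun j => (l.filter fun a => a ≤ j).biUnion P
      have hne : l.Nonempty := by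
        rw [nonempty_iff_ne_empty]
        rintro rfl
        simp at h3
      have htop : Q (l.max' hne) = l.biUnion P := by
        show (l.filter fun a => a ≤ l.max' hne).biUnion P = _
        rw [filter_true_of_mem fun a ha => le_max' l a ha]
      have hex : ∃ j, Rel.card < 6 * (Q j ∩ Rel).card := ⟨l.max' hne, by rw [htop]; omega⟩
      have hmin : ∃ j, Rel.card < 6 * (Q j ∩ Rel).card ∧
          ∀ j' < j, ¬ Rel.card < 6 * (Q j' ∩ Rel).card := by
        obtain ⟨j, hj, hm⟩ := (wellFounded_lt (α := Fin s)).has_min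
          {j | Rel.card < 6 * (Q j ∩ Rel).card} hex
        exact ⟨j, hj, fun j' hj' h => hm j' h hj'⟩
      obtain ⟨j, hj, hjm⟩ := hmin
      have hle : 6 * (Q j ∩ Rel).card ≤ 5 * Rel.card := by
        -- Q j is Q of something smaller plus P j
        by_cases hjl : j ∈ l
        · have hsub : Q j ∩ Rel ⊆ ((l.filter fun a => a < j).biUnion P ∩ Rel) ∪ (P j ∩ Rel) := by
            intro i hi
            rw [mem_inter] at hi
            obtain ⟨a, ha, hia⟩ := mem_biUnion.1 hi.1
            rw [mem_filter] at ha
            rw [mem_union, mem_inter, mem_inter]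
            rcases lt_or_eq_of_le ha.2 with h4 | h4
            · exact Or.inl ⟨mem_biUnion.2 ⟨a, mem_filter.2 ⟨ha.1, h4⟩, hia⟩, hi.2⟩
            · subst h4; exact Or.inr ⟨hia, hi.2⟩
          have h5 : 6 * ((l.filter fun a => a < j).biUnion P ∩ Rel).card ≤ Rel.card := by
            by_cases hem : (l.filter fun a => a < j).Nonempty
            · set j' := (l.filter fun a => a < j).max' hem with hj'
              have hlt : j' < j := (mem_filter.1 (max'_mem _ hem)).2
              have h6 := hjm j' hlt
              have h7 : (l.filter fun a => a < j).biUnion P ⊆ Q j' := by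
                intro i hi
                obtain ⟨a, ha, hia⟩ := mem_biUnion.1 hi
                exact mem_biUnion.2 ⟨a, mem_filter.2 ⟨(mem_filter.1 ha).1, le_max' _ a ha⟩, hia⟩
              have h8 := card_le_card (inter_subset_inter_right (u := Rel) h7)
              omega
            · rw [not_nonempty_iff_eq_empty] at hem
              rw [hem]; simp
          have h6 := hbig j hjl
          have h7 := card_le_card hsub
          have h8 := card_union_le ((l.filter fun a => a < j).biUnion P ∩ Rel) (P j ∩ Rel)
          omega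
        · exfalso
          have hQ : Q j = (l.filter fun a => a < j).biUnion P := by
            show (l.filter fun a => a ≤ j).biUnion P = _
            congr 1
            apply filter_congr
            intro a ha
            constructor
            · intro h; exact lt_of_le_of_ne h fun h' => hjl (h' ▸ ha)
            · exact le_of_lt
          by_cases hem : (l.filter fun a => a < j).Nonempty
          · set j' := (l.filter fun a => a < j).max' hem with hj'
            have hlt : j' < j := (mem_filter.1 (max'_mem _ hem)).2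
            have h6 := hjm j' hlt
            have h7 : Q j ⊆ Q j' := by
              rw [hQ]
              intro i hi
              obtain ⟨a, ha, hia⟩ := mem_biUnion.1 hi
              exact mem_biUnion.2 ⟨a, mem_filter.2 ⟨(mem_filter.1 ha).1, le_max' _ a ha⟩, hia⟩
            have h8 := card_le_card (inter_subset_inter_right (u := Rel) h7)
            omega
          · rw [not_nonempty_iff_eq_empty] at hem
            rw [hQ, hem] at hj
            simp at hj
      have hfin : ∃ M' : Finset (Fin k), (M' : Set (Fin k)) = M :=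
        ⟨M.toFinite.toFinset, Set.Finite.coe_toFinset _⟩
      obtain ⟨M', hM'⟩ := hfin
      have hside : ∀ b ∈ l, j < b → ∀ i ∈ pre C g j, Reads C i b → i ∈ M' := by
        intro b hb hjb i hi hr
        rw [mem_pre] at hi
        obtain ⟨l', h4, a, ha, haj, hra⟩ := hi
        have hll : l' = l := by
          rw [h1] at h4; exact (Kind.and.inj h4).symm
        subst hll
        have h5 : i ∈ shared C g :=
          ⟨l', h1, b, hb, a, ha, (lt_of_le_of_lt haj hjb).ne', hr, hra⟩
        have := walk_shared hM h5
        rw [← hM'] at this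
        exact_mod_cast this
      refine ⟨g, j, M', Q j, by rw [hM']; exact hM, by rw [hM'], Ctx.hole l h1
        (fun a ha _ => (hPT a ha).val fun _ _ => rfl) hside, ?_, ?_, hj, hle, ?_⟩
      · intro l' h4 a ha _
        have hll : l' = l := by
          rw [h1] at h4; exact (Kind.and.inj h4).symm
        subst hll
        exact (hPT a ha).val fun _ _ => rfl
      · intro i hi
        obtain ⟨a, ha, hia⟩ := mem_biUnion.1 hi
        rw [mem_filter] at ha
        exact mem_pre.2 ⟨l, h1, a, ha.1, ha.2, (hPT a ha.1).reads i hia⟩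
      · intro i hi
        obtain ⟨b, hb, hib⟩ := mem_biUnion.1 hi
        rcases le_or_gt b j with h4 | h4
        · exact Or.inl (mem_biUnion.2 ⟨b, mem_filter.2 ⟨hb, h4⟩, hib⟩)
        · by_cases hpre : i ∈ pre C g j
          · exact Or.inr (Or.inr (hside b hb h4 i hpre ((hPT b hb).reads i hib)))
          · exact Or.inr (Or.inl hpre)

end Pool.Agent.TH708.Shr
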