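import Pool.Agent.TH708.Shr.Main

/-!
# Comparator circuit value and circuits whose AND gates share few inputs
-/

set_option autoImplicit false
set_option linter.unusedSectionVars false

namespace Pool.Agent.TH708.Shr.Cv

open Finset

/-- A comparator on the wires `p.1` and `p.2`: the first wire gets the conjunction and the second
wire the disjunction of the two bits. -/
def step {w : ℕ} (st : Fin w → Bool) (p : Fin w × Fin w) : Fin w → Bool :=
  Function.update (Function.update st p.1 (st p.1 && st p.2)) p.2 (st p.1 || st p.2)

/-- The bits on the wires after the comparators in the list. -/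
def run {w : ℕ} (l : List (Fin w × Fin w)) (st : Fin w → Bool) : Fin w → Bool :=
  l.foldl step st

theorem step_fst {w : ℕ} (st : Fin w → Bool) {a b : Fin w} (h : a ≠ b) :
    step st (a, b) a = (st a && st b) := by
  simp [step, Function.update_of_ne h]

theorem step_snd {w : ℕ} (st : Fin w → Bool) (a b : Fin w) :
    step st (a, b) b = (st a || st b) := by
  simp [step]

theorem step_off {w : ℕ} (st : Fin w → Bool) {a b c : Fin w} (h : c ≠ a) (h' : c ≠ b) :
    step st (a, b) c = st c := by
  simp [step, Function.update_of_ne h, Function.update_of_ne h']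

variable {k : ℕ} (π : Pairing k)

/-- The comparators of some pairs. -/
def cl (L : List π.Λ) : List (Fin (k + 1) × Fin (k + 1)) :=
  L.flatMap fun a => [(Fin.castSucc (π.e a), Fin.castSucc (π.e' a)),
    (Fin.last k, Fin.castSucc (π.e' a))]

theorem length_cl (L : List π.Λ) : (cl π L).length = 2 * L.length := by
  induction L with
  | nil => rfl
  | cons a L ih =>
    have : cl π (a :: L) = (Fin.castSucc (π.e a), Fin.castSucc (π.e' a)) ::
      (Fin.last k, Fin.castSucc (π.e' a)) :: cl π L := rfl
    rw [this, List.length_cons, List.length_cons, ih, List.length_cons]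
    ring

theorem run_cl (L : List π.Λ) : L.Nodup → ∀ st : Fin (k + 1) → Bool,
    (run (cl π L) st (Fin.last k) = true ↔ st (Fin.last k) = true ∧
      ∀ a ∈ L, st (Fin.castSucc (π.e a)) = true ∨ st (Fin.castSucc (π.e' a)) = true) := by
  induction L with
  | nil => intro _ st; simp [cl, run]
  | cons a L ih =>
    intro hnd st
    rw [List.nodup_cons] at hnd
    have h1 : run (cl π (a :: L)) st = run (cl π L)
        (step (step st (Fin.castSucc (π.e a), Fin.castSucc (π.e' a)))
          (Fin.last k, Fin.castSucc (π.e' a))) := rfl
    have hl : ∀ i : Fin k, Fin.last k ≠ Fin.castSucc i := fun i h =>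
      (Fin.castSucc_ne_last i) h.symm
    rw [h1, ih hnd.2, step_fst _ (hl _), step_off _ (hl _) (hl _), step_snd]
    have h2 : ∀ b ∈ L, ∀ i : Fin k, (i = π.e b ∨ i = π.e' b) →
        step (step st (Fin.castSucc (π.e a), Fin.castSucc (π.e' a)))
          (Fin.last k, Fin.castSucc (π.e' a)) (Fin.castSucc i) = st (Fin.castSucc i) := by
      intro b hb i hi
      have hba : b ≠ a := fun h => hnd.1 (h ▸ hb)
      have h3 : Fin.castSucc i ≠ Fin.castSucc (π.e a) := by
        intro h
        have h := Fin.castSucc_injective _ h
        rcases hi with hi | hi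
        · exact hba (π.inj (hi.symm.trans h))
        · exact π.ne a b (h.symm.trans hi)
      have h4 : Fin.castSucc i ≠ Fin.castSucc (π.e' a) := by
        intro h
        have h := Fin.castSucc_injective _ h
        rcases hi with hi | hi
        · exact π.ne b a (hi.symm.trans h)
        · exact hba (π.inj' (hi.symm.trans h))
      rw [step_off _ (fun h => (hl i) h.symm) h4, step_off _ h3 h4]
    constructor
    · rintro ⟨h3, h4⟩
      rw [Bool.and_eq_true, Bool.or_eq_true] at h3
      refine ⟨h3.1, fun b hb => ?_⟩
      rcases List.mem_cons.1 hb with rfl | hb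
      · exact h3.2
      · have := h4 b hb
        rw [h2 b hb _ (Or.inl rfl), h2 b hb _ (Or.inr rfl)] at this
        exact this
    · rintro ⟨h3, h4⟩
      rw [Bool.and_eq_true, Bool.or_eq_true]
      refine ⟨⟨h3, h4 a List.mem_cons_self⟩, fun b hb => ?_⟩
      rw [h2 b hb _ (Or.inl rfl), h2 b hb _ (Or.inr rfl)]
      exact h4 b (List.mem_cons_of_mem _ hb)

/-- The initial bits: the tracked bits, and a one on the last wire. -/
def init (y : Fin k → Bool) : Fin (k + 1) → Bool := Fin.lastCases true y

theorem lower {s : ℕ} (C : Net (List (Fin (k + 1) × Fin (k + 1))) k s) (o : Fin s)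
    (hdec : ∀ l : List (Fin (k + 1) × Fin (k + 1)), l.length ≤ k → ∀ y : Fin k → Bool,
      (Val C l y o ↔ run l (init y) (Fin.last k) = true))
    (m : ℕ) (hsh : SharesLe C o m) : k ≤ 2 ^ 26 * (m + Nat.log 2 s + 1) := by
  refine size_lower hsh fun π hπ => ⟨cl π (univ : Finset π.Λ).toList, fun y _ => ?_⟩
  rw [hdec _ (by rw [length_cl, length_toList, card_univ]; exact hπ),
    run_cl π _ (nodup_toList _)]
  have h1 : init y (Fin.last k) = true := by simp [init]
  have h2 : ∀ i : Fin k, init y (Fin.castSucc i) = y i := fun i => by simp [init]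
  simp only [h1, h2, mem_toList, mem_univ, true_and, true_imp_iff]

end Pool.Agent.TH708.Shr.Cv
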