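import Pool.Agent.TH708.Shr.Orth

/-!
# Circuits in which few bits are read both below a node and in its contexts
-/

set_option autoImplicit false
set_option linter.unusedSectionVars false

namespace Pool.Agent.TH708.Shr

open Finset

variable {X : Type} {k s : ℕ}

/-- There is a directed path from `o` down to the node. -/
inductive Reach (C : Net X k s) (o : Fin s) : Fin s → Prop
  | start : Reach C o o
  | and (g : Fin s) (l : Finset (Fin s)) (a : Fin s) : Reach C o g → C g = Kind.and l → a ∈ l →
      Reach C o a
  | or (g : Fin s) (l : Finset (Fin s)) (a : Fin s) : Reach C o g → C g = Kind.or l → a ∈ l →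
      Reach C o a

/-- There is a path from `o` down to the node which passes from an AND gate to one of its inputs while
another input of this AND gate reads the tracked bit `i`. -/
inductive Outside (C : Net X k s) (o : Fin s) (i : Fin k) : Fin s → Prop
  | here (g : Fin s) (l : Finset (Fin s)) (a b : Fin s) : Reach C o g → C g = Kind.and l →
      a ∈ l → b ∈ l → b ≠ a → Reads C i b → Outside C o i a
  | and (g : Fin s) (l : Finset (Fin s)) (a : Fin s) : Outside C o i g → C g = Kind.and l →
      a ∈ l → Outside C o i a
  | or (g : Fin s) (l : Finset (Fin s)) (a : Fin s) : Outside C o i g → C g = Kind.or l →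
      a ∈ l → Outside C o i a

/-- The tracked bits which are read below the node and also outside of it. -/
def dup (C : Net X k s) (o g : Fin s) : Set (Fin k) := {i | Reads C i g ∧ Outside C o i g}

open Classical in
/-- The same for the first inputs of an AND gate. -/
noncomputable def dupPre (C : Net X k s) (o h j : Fin s) : Finset (Fin k) :=
  (pre C h j).filter fun i => Outside C o i h ∨ ∃ l, C h = Kind.and l ∧ ∃ b ∈ l, j < b ∧
    Reads C i b

theorem mem_dupPre {C : Net X k s} {o h j : Fin s} {i : Fin k} :
    i ∈ dupPre C o h j ↔ i ∈ pre C h j ∧ (Outside C o i h ∨ ∃ l, C h = Kind.and l ∧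
      ∃ b ∈ l, j < b ∧ Reads C i b) := by
  classical
  rw [dupPre, mem_filter]

theorem Ctx.outside {C : Net X k s} {x : X} {y : Fin k → Bool} {h j o : Fin s}
    {A M : Finset (Fin k)} {g : Fin s} {i : Fin k} (hc : Ctx C x y h j A M g)
    (hi : Outside C o i g) : Outside C o i h := by
  induction hc with
  | hole l h1 h2 _ => exact hi
  | or g l a h1 h2 _ ih => exact ih (Outside.or g l a hi h1 h2)
  | and g l a h1 h2 _ _ _ ih => exact ih (Outside.and g l a hi h1 h2)

/-- If the AND gates have at most two inputs, few duplicated bits at the nodes are few duplicated bits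
at the first inputs. -/
theorem card_dupPre {C : Net X k s} {o : Fin s} {m : ℕ}
    (h2 : ∀ g l, C g = Kind.and l → l.card ≤ 2)
    (hm : ∀ g, (dup C o g).ncard ≤ m) (h j : Fin s) (hr : Reach C o h) :
    (dupPre C o h j).card ≤ m := by
  classical
  by_cases hall : ∃ l, C h = Kind.and l ∧ ∃ b ∈ l, j < b
  · obtain ⟨l, hl, b, hb, hjb⟩ := hall
    by_cases hex : ∃ a ∈ l, a ≤ j
    · obtain ⟨a, ha, haj⟩ := hex
      have hab : a ≠ b := fun h => absurd haj (not_le.2 (h ▸ hjb))
      have huniq : ∀ a' ∈ l, a' = a ∨ a' = b := by
        intro a' ha'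
        by_contra hne
        rw [not_or] at hne
        have h3 : ({a', a, b} : Finset (Fin s)) ⊆ l := by
          intro z hz
          rw [mem_insert, mem_insert, mem_singleton] at hz
          rcases hz with rfl | rfl | rfl
          · exact ha'
          · exact ha
          · exact hb
        have h4 := card_le_card h3
        have h5 : ({a', a, b} : Finset (Fin s)).card = 3 := by
          rw [card_insert_of_notMem, card_insert_of_notMem, card_singleton]
          · rw [mem_singleton]; exact hab
          · rw [mem_insert, mem_singleton, not_or]; exact hne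
        have h6 := h2 h l hl
        omega
      refine le_trans ?_ (hm a)
      rw [← Set.ncard_coe_finset]
      refine Set.ncard_le_ncard ?_ (Set.toFinite _)
      intro i hi
      rw [mem_coe, mem_dupPre, mem_pre] at hi
      obtain ⟨⟨l', hl', a', ha', ha'j, hra⟩, h3⟩ := hi
      have hll : l' = l := by rw [hl] at hl'; exact (Kind.and.inj hl').symm
      subst hll
      have e1 : a' = a := by
        rcases huniq a' ha' with h4 | h4
        · exact h4
        · exact absurd ha'j (not_le.2 (h4 ▸ hjb))
      subst e1
      refine ⟨hra, ?_⟩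
      rcases h3 with h3 | ⟨l'', hl'', b', hb', hjb', hrb⟩
      · exact Outside.and h l' a' h3 hl ha
      · have hll : l'' = l' := by rw [hl] at hl''; exact (Kind.and.inj hl'').symm
        subst hll
        exact Outside.here h l'' a' b' hr hl ha hb' (fun h4 => absurd haj (not_le.2 (h4 ▸ hjb')))
          hrb
    · have h0 : dupPre C o h j = ∅ := by
        rw [eq_empty_iff_forall_notMem]
        intro i hi
        rw [mem_dupPre, mem_pre] at hi
        obtain ⟨⟨l', hl', a', ha', ha'j, _⟩, _⟩ := hi
        have hll : l' = l := by rw [hl] at hl'; exact (Kind.and.inj hl').symm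
        subst hll
        exact hex ⟨a', ha', ha'j⟩
      rw [h0, card_empty]; exact Nat.zero_le _
  · refine le_trans ?_ (hm h)
    rw [← Set.ncard_coe_finset]
    refine Set.ncard_le_ncard ?_ (Set.toFinite _)
    intro i hi
    rw [mem_coe, mem_dupPre, mem_pre] at hi
    obtain ⟨⟨l', hl', a', ha', _, hra⟩, h3⟩ := hi
    refine ⟨Reads.and h l' a' hl' ha' hra, ?_⟩
    rcases h3 with h3 | ⟨l'', hl'', b', hb', hjb', _⟩
    · exact h3
    · exact absurd ⟨l'', hl'', b', hb', hjb'⟩ hall

/-- **Descent.** -/
theorem descent_dup {C : Net X k s} {x : X} {y : Fin k → Bool} {o : Fin s}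
    (Rel : Finset (Fin k)) (hK : 2 ≤ Rel.card) {g : Fin s} {P : Finset (Fin k)}
    (hP : PT C x y g P) :
    2 * Rel.card < 3 * (P ∩ Rel).card → Reach C o g →
    ∃ (h j : Fin s) (Q : Finset (Fin k)), Reach C o h ∧
      Ctx C x y h j (pre C h j) (dupPre C o h j) g ∧
      (∀ l, C h = Kind.and l → ∀ a ∈ l, a ≤ j → Val C x y a) ∧
      Q ⊆ pre C h j ∧ Rel.card < 6 * (Q ∩ Rel).card ∧ 6 * (Q ∩ Rel).card ≤ 5 * Rel.card ∧
      ∀ i ∈ P, i ∈ Q ∨ i ∉ pre C h j ∨ i ∈ dupPre C o h j := by
  classical
  induction hP with
  | lit g i b h1 h2 =>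
    intro h3
    have : (({i} : Finset (Fin k)) ∩ Rel).card ≤ 1 :=
      (card_le_card inter_subset_left).trans (by simp)
    omega
  | fn g φ h1 h2 => intro h3; simp at h3
  | or g l a P h1 h2 _ ih =>
    intro h3 hM
    obtain ⟨h, j, Q, a1, a3, a4, a5, a6, a7, a8⟩ := ih h3 (Reach.or g l a hM h1 h2)
    exact ⟨h, j, Q, a1, Ctx.or g l a h1 h2 a3, a4, a5, a6, a7, a8⟩
  | and g l P h1 hPT ih =>
    intro h3 hM
    by_cases hbig : ∃ a ∈ l, 2 * Rel.card < 3 * (P a ∩ Rel).card
    · obtain ⟨a, ha, h4⟩ := hbig
      obtain ⟨h, j, Q, a1, a3, a4, a5, a6, a7, a8⟩ :=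
        ih a ha h4 (Reach.and g l a hM h1 ha)
      have hside : ∀ b ∈ l, b ≠ a → ∀ i ∈ pre C h j, Reads C i b → i ∈ dupPre C o h j := by
        intro b hb hba i hi hr
        exact mem_dupPre.2 ⟨hi, Or.inl (a3.outside (Outside.here g l a b hM h1 ha hb hba hr))⟩
      refine ⟨h, j, Q, a1,
        Ctx.and g l a h1 ha a3 (fun b hb _ => (hPT b hb).val fun _ _ => rfl) hside, a4, a5, a6,
        a7, ?_⟩
      intro i hi
      obtain ⟨b, hb, hib⟩ := mem_biUnion.1 hi
      by_cases hba : b = a
      · subst hba; exact a8 i hib
      · by_cases hpre : i ∈ pre C h j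
        · exact Or.inr (Or.inr (hside b hb hba i hpre ((hPT b hb).reads i hib)))
        · exact Or.inr (Or.inl hpre)
    · push Not at hbig
      -- the prefixes
      let Q : Fin s → Finset (Fin k) := fun j => (l.filter fun a => a ≤ j).biUnion P
      have hne : l.Nonempty := by
        rw [nonempty_iff_ne_empty]
        rintro rfl
        simp at h3
      have htop : Q (l.max' hne) = l.biUnion P := by
        show (l.filter fun a => a ≤ l.max' hne).biUnion P = _
        rw [filter_true_of_mem fun a ha => le_max' l a ha]
      have hex : ∃ j, Rel.card < 6 * (Q j ∩ Rel).card := ⟨l.max' hne, by rw [htop]; omega⟩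
      have hmin : ∃ j, Rel.card < 6 * (Q j ∩ Rel).card ∧
          ∀ j' < j, ¬ Rel.card < 6 * (Q j' ∩ Rel).card := by
        obtain ⟨j, hj, hm⟩ := (wellFounded_lt (α := Fin s)).has_min
          {j | Rel.card < 6 * (Q j ∩ Rel).card} hex
        exact ⟨j, hj, fun j' hj' h => hm j' h hj'⟩
      obtain ⟨j, hj, hjm⟩ := hmin
      have hle : 6 * (Q j ∩ Rel).card ≤ 5 * Rel.card := by
        by_cases hjl : j ∈ l
        · have hsub : Q j ∩ Rel ⊆ ((l.filter fun a => a < j).biUnion P ∩ Rel) ∪ (P j ∩ Rel) := by
            intro i hi
            rw [mem_inter] at hi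
            obtain ⟨a, ha, hia⟩ := mem_biUnion.1 hi.1
            rw [mem_filter] at ha
            rw [mem_union, mem_inter, mem_inter]
            rcases lt_or_eq_of_le ha.2 with h4 | h4
            · exact Or.inl ⟨mem_biUnion.2 ⟨a, mem_filter.2 ⟨ha.1, h4⟩, hia⟩, hi.2⟩
            · subst h4; exact Or.inr ⟨hia, hi.2⟩
          have h5 : 6 * ((l.filter fun a => a < j).biUnion P ∩ Rel).card ≤ Rel.card := by
            by_cases hem : (l.filter fun a => a < j).Nonempty
            · set j' := (l.filter fun a => a < j).max' hem with hj'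
              have hlt : j' < j := (mem_filter.1 (max'_mem _ hem)).2
              have h6 := hjm j' hlt
              have h7 : (l.filter fun a => a < j).biUnion P ⊆ Q j' := by
                intro i hi
                obtain ⟨a, ha, hia⟩ := mem_biUnion.1 hi
                exact mem_biUnion.2 ⟨a, mem_filter.2 ⟨(mem_filter.1 ha).1, le_max' _ a ha⟩, hia⟩
              have h8 := card_le_card (inter_subset_inter_right (u := Rel) h7)
              omega
            · rw [not_nonempty_iff_eq_empty] at hem
              rw [hem]; simp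
          have h6 := hbig j hjl
          have h7 := card_le_card hsub
          have h8 := card_union_le ((l.filter fun a => a < j).biUnion P ∩ Rel) (P j ∩ Rel)
          omega
        · exfalso
          have hQ : Q j = (l.filter fun a => a < j).biUnion P := by
            show (l.filter fun a => a ≤ j).biUnion P = _
            congr 1
            apply filter_congr
            intro a ha
            constructor
            · intro h; exact lt_of_le_of_ne h fun h' => hjl (h' ▸ ha)
            · exact le_of_lt
          by_cases hem : (l.filter fun a => a < j).Nonempty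
          · set j' := (l.filter fun a => a < j).max' hem with hj'
            have hlt : j' < j := (mem_filter.1 (max'_mem _ hem)).2
            have h6 := hjm j' hlt
            have h7 : Q j ⊆ Q j' := by
              rw [hQ]
              intro i hi
              obtain ⟨a, ha, hia⟩ := mem_biUnion.1 hi
              exact mem_biUnion.2 ⟨a, mem_filter.2 ⟨(mem_filter.1 ha).1, le_max' _ a ha⟩, hia⟩
            have h8 := card_le_card (inter_subset_inter_right (u := Rel) h7)
            omega
          · rw [not_nonempty_iff_eq_empty] at hem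
            rw [hQ, hem] at hj
            simp at hj
      have hside : ∀ b ∈ l, j < b → ∀ i ∈ pre C g j, Reads C i b → i ∈ dupPre C o g j := by
        intro b hb hjb i hi hr
        exact mem_dupPre.2 ⟨hi, Or.inr ⟨l, h1, b, hb, hjb, hr⟩⟩
      refine ⟨g, j, Q j, hM, Ctx.hole l h1
        (fun a ha _ => (hPT a ha).val fun _ _ => rfl) hside, ?_, ?_, hj, hle, ?_⟩
      · intro l' h4 a ha _
        have hll : l' = l := by
          rw [h1] at h4; exact (Kind.and.inj h4).symm
        subst hll
        exact (hPT a ha).val fun _ _ => rfl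
      · intro i hi
        obtain ⟨a, ha, hia⟩ := mem_biUnion.1 hi
        rw [mem_filter] at ha
        exact mem_pre.2 ⟨l, h1, a, ha.1, ha.2, (hPT a ha.1).reads i hia⟩
      · intro i hi
        obtain ⟨b, hb, hib⟩ := mem_biUnion.1 hi
        rcases le_or_gt b j with h4 | h4
        · exact Or.inl (mem_biUnion.2 ⟨b, mem_filter.2 ⟨hb, h4⟩, hib⟩)
        · by_cases hpre : i ∈ pre C g j
          · exact Or.inr (Or.inr (hside b hb h4 i hpre ((hPT b hb).reads i hib)))
          · exact Or.inr (Or.inl hpre)

end Pool.Agent.TH708.Shr
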