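import Pool.Agent.TH708.Shr.Main

/-!
# Circuits whose AND gates share few inputs: the lower bound with a gap
-/

set_option autoImplicit false
set_option linter.unusedSectionVars false

namespace Pool.Agent.TH708.Shr

open Finset

variable {X : Type} {k s : ℕ}

/-- The pairs without a true bit. -/
def Pairing.viol (π : Pairing k) (y : Fin k → Bool) : Finset π.Λ :=
  univ.filter fun a => y (π.e a) = false ∧ y (π.e' a) = false

/-- **The main lemma, with a gap.**  The circuit accepts if each pair contains a true bit and rejects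
if at least `d` pairs contain no true bit. -/
theorem main_gap {C : Net X k s} {x : X} {o : Fin s} {m t t' d : ℕ} (hsh : SharesLe C o m)
    (π : Pairing k) (D : Finset (Fin k)) (hD : ∀ a, π.e a ∈ D ∧ π.e' a ∈ D)
    (hΛ : 2 ≤ Fintype.card π.Λ) (hd : 3 * d ≤ Fintype.card π.Λ)
    (hacc : ∀ y, π.Supp y → (∀ a, y (π.e a) = true ∨ y (π.e' a) = true) → Val C x y o)
    (hrej : ∀ y, π.Supp y → d ≤ (π.viol y).card → ¬ Val C x y o)
    (ht : s ^ 2 * (Small D m).card ^ 2 < 2 ^ t)
    (ht' : (Small (univ : Finset π.Λ) (2 * d)).card ≤ 2 ^ t') :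
    ∃ h j : Fin s, (π.split (pre C h j)).card < t + t' ∧
      Fintype.card π.Λ < 6 * ((π.both (pre C h j)).card + (π.split (pre C h j)).card) ∧
      Fintype.card π.Λ ≤ 6 * ((π.none (pre C h j)).card + (π.split (pre C h j)).card + m + d) := by
  classical
  set K := Fintype.card π.Λ with hK
  -- the data of each tight assignment
  have hdata : ∀ w : π.Λ → Bool, ∃ (h j : Fin s) (M : Finset (Fin k)), M.card ≤ m ∧
      Ctx C x (π.tight w) h j (pre C h j) M o ∧
      (∀ l, C h = Kind.and l → ∀ a ∈ l, a ≤ j → Val C x (π.tight w) a) ∧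
      K < 6 * ((π.both (pre C h j)).card + (π.split (pre C h j)).card) ∧
      K ≤ 6 * ((π.none (pre C h j)).card + (π.split (pre C h j)).card + m + d) := by
    intro w
    have hval : Val C x (π.tight w) o := by
      refine hacc _ (π.tight_supp w) fun a => ?_
      rw [π.tight_e, π.tight_e']
      cases w a <;> simp
    obtain ⟨P, hP⟩ := hval.pt
    -- few relevant bits are not read
    have hE : (π.rel w \ P).card < d := by
      by_contra hcon
      push Not at hcon
      let y' : Fin k → Bool := fun i => if i ∈ π.rel w \ P then false else π.tight w i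
      have hv : Val C x y' o := hP.val fun i hi => by
        show (if i ∈ π.rel w \ P then false else π.tight w i) = _
        rw [if_neg]
        rw [mem_sdiff, not_and, not_not]
        exact fun _ => hi
      refine hrej y' ?_ (hcon.trans ?_) hv
      · intro i h1 h2
        show (if i ∈ π.rel w \ P then false else π.tight w i) = true
        rw [if_neg, π.tight_off w i h1 h2]
        rw [mem_sdiff, Pairing.rel, mem_image, not_and]
        rintro ⟨a, _, ha⟩
        exfalso
        by_cases hw : w a = true
        · simp only [hw, if_true] at ha; exact h1 a ha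
        · simp only [hw, if_false, Bool.false_eq_true] at ha; exact h2 a ha
      · have h3 : π.rel w \ P ⊆ (π.viol y').image fun a => if w a then π.e a else π.e' a := by
          intro i hi
          have hi' := hi
          rw [mem_sdiff, Pairing.rel, mem_image] at hi
          obtain ⟨⟨a, _, ha⟩, _⟩ := hi
          rw [mem_image]
          refine ⟨a, ?_, ha⟩
          rw [Pairing.viol, mem_filter]
          have hi2 : y' i = false := by
            show (if i ∈ π.rel w \ P then false else π.tight w i) = false
            rw [if_pos hi']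
          have hf : ∀ j, π.tight w j = false → y' j = false := by
            intro j hj
            show (if j ∈ π.rel w \ P then false else π.tight w j) = false
            split_ifs
            · rfl
            · exact hj
          refine ⟨mem_univ _, ?_⟩
          by_cases hw : w a = true
          · simp only [hw, if_true] at ha
            subst ha
            refine ⟨hi2, hf _ ?_⟩
            rw [π.tight_e', hw]; rfl
          · simp only [hw, if_false, Bool.false_eq_true] at ha
            subst ha
            refine ⟨hf _ ?_, hi2⟩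
            rw [π.tight_e]
            simpa using hw
        exact (card_le_card h3).trans card_image_le
    have hcr := π.card_rel w
    have hsplit : (P ∩ π.rel w).card + (π.rel w \ P).card = K := by
      rw [inter_comm, card_inter_add_card_sdiff, hcr]
    obtain ⟨h, j, M', Q, a1, _, a3, a4, a5, a6, a7, a8⟩ :=
      descent (C := C) (x := x) (y := π.tight w) (o := o) (π.rel w) (by omega) hP
        (by omega) _ Walk.start
    have hM' : M'.card ≤ m := by
      have := hsh _ _ a1
      rwa [Set.ncard_coe_finset] at this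
    refine ⟨h, j, M', hM', a3, a4, ?_, ?_⟩
    · have h1 : (Q ∩ π.rel w).card ≤ (pre C h j ∩ π.rel w).card :=
        card_le_card (inter_subset_inter_right a5)
      have h2 := π.rel_inter w (pre C h j)
      omega
    · have h1 : π.rel w ⊆ (Q ∩ π.rel w) ∪ ((π.rel w \ pre C h j) ∪ (M' ∪ (π.rel w \ P))) := by
        intro i hi
        rw [mem_union, mem_inter, mem_union, mem_sdiff, mem_union, mem_sdiff]
        by_cases hiP : i ∈ P
        · rcases a8 i hiP with h | h | h
          · exact Or.inl ⟨h, hi⟩
          · exact Or.inr (Or.inl ⟨hi, h⟩)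
          · exact Or.inr (Or.inr (Or.inl h))
        · exact Or.inr (Or.inr (Or.inr ⟨hi, hiP⟩))
      have h2 := card_le_card h1
      have h3 := card_union_le (Q ∩ π.rel w) ((π.rel w \ pre C h j) ∪ (M' ∪ (π.rel w \ P)))
      have h4 := card_union_le (π.rel w \ pre C h j) (M' ∪ (π.rel w \ P))
      have h5 := card_union_le M' (π.rel w \ P)
      have h6 := π.rel_sdiff w (pre C h j)
      omega
  choose h j M hM hctx hpre hb hn using hdata
  have hMD : ∀ w, (M w ∩ D) ∈ Small D m := fun w =>
    mem_Small.2 ⟨inter_subset_right, (card_le_card inter_subset_left).trans (hM w)⟩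
  -- the classes
  let Φ : (π.Λ → Bool) → Fin s × Fin s × ↥(Small D m) × ↥(Small D m) := fun w =>
    (h w, j w, ⟨M w ∩ D, hMD w⟩, ⟨(M w ∩ D).filter fun i => π.tight w i = true,
      mem_Small.2 ⟨(filter_subset _ _).trans inter_subset_right,
        (card_le_card (filter_subset _ _)).trans (mem_Small.1 (hMD w)).2⟩⟩)
  have hcard : Fintype.card (Fin s × Fin s × ↥(Small D m) × ↥(Small D m)) * 2 ^ (K - t) <
      Fintype.card (π.Λ → Bool) ∨ K < t := by
    rcases Nat.lt_or_ge K t with hKt | hKt
    · exact Or.inr hKt
    · left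
      rw [Fintype.card_prod, Fintype.card_prod, Fintype.card_prod, Fintype.card_fin,
        Fintype.card_coe, Fintype.card_fun, Fintype.card_bool, ← hK]
      calc s * (s * ((Small D m).card * (Small D m).card)) * 2 ^ (K - t)
          = s ^ 2 * (Small D m).card ^ 2 * 2 ^ (K - t) := by ring
        _ < 2 ^ t * 2 ^ (K - t) := Nat.mul_lt_mul_of_pos_right ht (by positivity)
        _ = 2 ^ K := by rw [← pow_add]; congr 1; omega
  rcases hcard with hcard | hKt
  swap
  · refine ⟨h fun _ => true, j fun _ => true, ?_, hb _, hn _⟩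
    refine lt_of_le_of_lt (card_le_univ _) ?_
    rw [← hK]; omega
  · obtain ⟨c, hc⟩ := Fintype.exists_lt_card_fiber_of_mul_lt_card Φ hcard
    -- the class
    have hne : (univ.filter fun w => Φ w = c).Nonempty := card_pos.1 (lt_of_le_of_lt (Nat.zero_le _) hc)
    obtain ⟨w₀, hw₀⟩ := hne
    rw [mem_filter] at hw₀
    have hw₀' := hw₀.2
    refine ⟨h w₀, j w₀, ?_, hb w₀, hn w₀⟩
    -- mixtures
    have hmix : ∀ w w' : π.Λ → Bool, Φ w = Φ w' →
        (univ.filter fun a => ¬ ((π.tight w (π.e a) = true ∧ π.e a ∈ pre C (h w) (j w)) ∨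
            (π.tight w' (π.e a) = true ∧ π.e a ∉ pre C (h w) (j w)) ∨
            (π.tight w (π.e' a) = true ∧ π.e' a ∈ pre C (h w) (j w)) ∨
            (π.tight w' (π.e' a) = true ∧ π.e' a ∉ pre C (h w) (j w)))).card < d := by
      intro w w' hΦ
      have hh : h w = h w' := congrArg Prod.fst hΦ
      have hj : j w = j w' := congrArg (fun p => p.2.1) hΦ
      have hMM : M w ∩ D = M w' ∩ D := congrArg (fun p => p.2.2.1.1) hΦ
      have hMt : ((M w ∩ D).filter fun i => π.tight w i = true) =
          ((M w' ∩ D).filter fun i => π.tight w' i = true) := congrArg (fun p => p.2.2.2.1) hΦ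
      have hagM : ∀ i ∈ M w', π.tight w i = π.tight w' i := by
        intro i hi
        by_cases hiD : i ∈ D
        · have h1 : i ∈ ((M w ∩ D).filter fun i => π.tight w i = true) ↔
              i ∈ ((M w' ∩ D).filter fun i => π.tight w' i = true) := by rw [hMt]
          have hiM : i ∈ M w' ∩ D := mem_inter.2 ⟨hi, hiD⟩
          rw [mem_filter, mem_filter, hMM] at h1
          simp only [hiM, true_and] at h1
          exact Bool.eq_iff_iff.2 h1
        · rw [π.tight_off w i (fun a ha => hiD (ha ▸ (hD a).1))
            (fun a ha => hiD (ha ▸ (hD a).2)), π.tight_off w' i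
            (fun a ha => hiD (ha ▸ (hD a).1)) (fun a ha => hiD (ha ▸ (hD a).2))]
      -- the mixture
      let z : Fin k → Bool := fun i => if i ∈ pre C (h w) (j w) then π.tight w i
        else π.tight w' i
      have hzA : ∀ i ∈ pre C (h w) (j w), z i = π.tight w i := fun i hi => by simp [z, hi]
      have hzB : ∀ i ∉ pre C (h w) (j w), z i = π.tight w' i := fun i hi => by simp [z, hi]
      have hz : Val C x z o := by
        refine Ctx.sound (h := h w) (j := j w) (A := pre C (h w) (j w)) (M := M w') ?_ ?_
        · have h1 := hctx w'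
          rw [← hh, ← hj] at h1
          refine h1.local fun i hi => ?_
          by_cases hA : i ∈ pre C (h w) (j w)
          · rw [hzA i hA]; exact hagM i (hi hA)
          · exact hzB i hA
        · intro l hl a ha haj
          refine (hpre w l hl a ha haj).local fun i hi => ?_
          exact hzA i (mem_pre.2 ⟨l, hl, a, ha, haj, hi⟩)
      have hzs : π.Supp z := by
        intro i h1 h2
        show (if i ∈ pre C (h w) (j w) then π.tight w i else π.tight w' i) = true
        rw [π.tight_off w i h1 h2, π.tight_off w' i h1 h2]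
        simp
      by_contra hcon
      rw [not_lt] at hcon
      refine hrej z hzs (hcon.trans (card_le_card ?_)) hz
      intro a ha
      rw [mem_filter] at ha
      obtain ⟨_, ha⟩ := ha
      rw [Pairing.viol, mem_filter]
      refine ⟨mem_univ _, ?_, ?_⟩
      · by_contra h1
        rw [Bool.not_eq_false] at h1
        apply ha
        by_cases hA : π.e a ∈ pre C (h w) (j w)
        · rw [hzA _ hA] at h1; exact Or.inl ⟨h1, hA⟩
        · rw [hzB _ hA] at h1; exact Or.inr (Or.inl ⟨h1, hA⟩)
      · by_contra h1
        rw [Bool.not_eq_false] at h1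
        apply ha
        by_cases hA : π.e' a ∈ pre C (h w) (j w)
        · rw [hzA _ hA] at h1; exact Or.inr (Or.inr (Or.inl ⟨h1, hA⟩))
        · rw [hzB _ hA] at h1; exact Or.inr (Or.inr (Or.inr ⟨h1, hA⟩))
    -- members of the class nearly agree on the split pairs
    have hagree : ∀ w w' : π.Λ → Bool, Φ w = Φ w' →
        ((π.split (pre C (h w) (j w))).filter fun a => w a ≠ w' a).card ≤ 2 * d := by
      intro w w' hΦ
      have hh : h w = h w' := congrArg Prod.fst hΦ
      have hj : j w = j w' := congrArg (fun p => p.2.1) hΦ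
      have k1 := hmix w w' hΦ
      have k2 := hmix w' w hΦ.symm
      rw [← hh, ← hj] at k2
      refine (card_le_card (t := _ ∪ _) ?_).trans ((card_union_le _ _).trans
        ((Nat.add_le_add k1.le k2.le).trans (by omega)))
      intro a ha
      rw [mem_filter, π.mem_split] at ha
      obtain ⟨h3, hne⟩ := ha
      rw [mem_union, mem_filter, mem_filter, π.tight_e, π.tight_e, π.tight_e', π.tight_e']
      simp only [mem_univ, true_and]
      by_cases h1 : π.e a ∈ pre C (h w) (j w)
      · have h2 : π.e' a ∉ pre C (h w) (j w) := fun h2 => h3 ⟨fun _ => h2, fun _ => h1⟩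
        simp only [h1, h2, not_true_eq_false, not_false_eq_true, and_true, and_false,
          false_or]
        cases h4 : w a <;> cases h5 : w' a <;> simp_all
      · have h2 : π.e' a ∈ pre C (h w) (j w) := by
          by_contra h2
          exact h3 ⟨fun h => absurd h h1, fun h => absurd h h2⟩
        simp only [h1, h2, not_true_eq_false, not_false_eq_true, and_true, and_false, false_or,
          or_false]
        cases h4 : w a <;> cases h5 : w' a <;> simp_all
    set S := π.split (pre C (h w₀) (j w₀)) with hS
    have hclass : (univ.filter fun w => Φ w = c).card ≤ 2 ^ t' * 2 ^ (K - S.card) := by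
      have h1 : (univ.filter fun w => Φ w = c).card ≤
          Fintype.card (↥(Small (univ : Finset π.Λ) (2 * d)) × (↥(Sᶜ : Finset π.Λ) → Bool)) := by
        rw [← card_univ]
        apply card_le_card_of_injOn (fun w => (if hw : S.filter (fun a => w₀ a ≠ w a) ∈
          Small (univ : Finset π.Λ) (2 * d) then ⟨_, hw⟩ else ⟨∅, mem_Small.2 ⟨empty_subset _,
            Nat.zero_le _⟩⟩, fun a => w a.1))
        · intro w _; simp
        · intro w hw w' hw' he
          rw [mem_coe, mem_filter] at hw hw'
          have g1 : S.filter (fun a => w₀ a ≠ w a) ∈ Small (univ : Finset π.Λ) (2 * d) :=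
            mem_Small.2 ⟨subset_univ _, hagree w₀ w (hw₀'.trans hw.2.symm)⟩
          have g2 : S.filter (fun a => w₀ a ≠ w' a) ∈ Small (univ : Finset π.Λ) (2 * d) :=
            mem_Small.2 ⟨subset_univ _, hagree w₀ w' (hw₀'.trans hw'.2.symm)⟩
          simp only at he
          rw [dif_pos g1, dif_pos g2, Prod.mk.injEq, Subtype.mk.injEq] at he
          funext a
          by_cases ha : a ∈ S
          · have h3 : a ∈ S.filter (fun a => w₀ a ≠ w a) ↔ a ∈ S.filter (fun a => w₀ a ≠ w' a) := by
              rw [he.1]
            rw [mem_filter, mem_filter] at h3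
            simp only [ha, true_and] at h3
            cases h4 : w₀ a <;> cases h5 : w a <;> cases h6 : w' a <;> simp_all
          · exact congrFun he.2 ⟨a, by rw [mem_compl]; exact ha⟩
      rw [Fintype.card_prod, Fintype.card_coe, Fintype.card_fun, Fintype.card_bool,
        Fintype.card_coe, card_compl] at h1
      exact h1.trans (Nat.mul_le_mul_right _ ht')
    have h2 : 2 ^ (K - t) < 2 ^ (t' + (K - S.card)) := by
      rw [pow_add]; exact lt_of_lt_of_le hc hclass
    have h3 := (Nat.pow_lt_pow_iff_right (by norm_num : 1 < 2)).1 h2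
    have h4 : S.card ≤ K := card_le_univ _
    omega

/-- **The lower bound, with a gap.** -/
theorem gap_lower {C : Net X k s} {o : Fin s} {m : ℕ} (hsh : SharesLe C o m)
    (hC : 2 ^ 26 ≤ k → ∀ π : Pairing k, 2 * Fintype.card π.Λ ≤ k → ∃ x,
      (∀ y, π.Supp y → (∀ a, y (π.e a) = true ∨ y (π.e' a) = true) → Val C x y o) ∧
      ∀ y, π.Supp y → 4 * (k / 2 ^ 26) ≤ (π.viol y).card → ¬ Val C x y o) :
    k ≤ 2 ^ 26 * (m + Nat.log 2 s + 1) := by
  classical
  by_contra hcon
  push Not at hcon
  obtain ⟨q, hq⟩ : ∃ q, q = k / 2 ^ 26 := ⟨_, rfl⟩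
  have hq1 : m + Nat.log 2 s + 1 ≤ q := by
    rw [hq, Nat.le_div_iff_mul_le (by norm_num)]
    omega
  have hk26 : 2 ^ 26 ≤ k := by
    have : 2 ^ 26 * 1 ≤ 2 ^ 26 * (m + Nat.log 2 s + 1) := Nat.mul_le_mul_left _ (by omega)
    omega
  have hqk : 67108864 * q ≤ k := by
    rw [hq]
    have : (2 : ℕ) ^ 26 = 67108864 := by norm_num
    rw [this]
    exact Nat.mul_div_le _ _
  replace hC := hC hk26
  rw [← hq] at hC
  clear hcon hq
  have hs : s < 2 ^ q := by
    have h1 := Nat.lt_pow_succ_log_self (b := 2) (by norm_num) s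
    exact lt_of_lt_of_le h1 (Nat.pow_le_pow_right (by norm_num) (by omega))
  obtain ⟨N, hN⟩ : ∃ N, N = 65536 * q := ⟨_, rfl⟩
  obtain ⟨L, hL⟩ : ∃ L, N + L = 67108864 * q := ⟨67108864 * q - N, by omega⟩
  obtain ⟨T, hT⟩ : ∃ T, T = N + L := ⟨_, rfl⟩
  have hkNL : N + L ≤ k := by omega
  have hTk : T ≤ k := by omega
  have hs2 : s ^ 2 ≤ 2 ^ (2 * q) := by
    calc s ^ 2 ≤ (2 ^ q) ^ 2 := Nat.pow_le_pow_left hs.le 2
      _ = 2 ^ (2 * q) := by rw [← pow_mul, mul_comm]
  have hr1 : 1 ≤ 512 * q := by omega
  have hr2 : N = 128 * (512 * q) := by rw [hN]; ring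
  have hr3 : 512 * N ≤ L := by omega
  have hι : Fintype.card (Fin s × Fin s) ≤ 2 ^ (512 * q) := by
    rw [Fintype.card_prod, Fintype.card_fin, ← pow_two]
    exact hs2.trans (Nat.pow_le_pow_right (by norm_num) (by omega))
  obtain ⟨g, hg1, hg2⟩ := exists_map (N := N) (L := L) (512 * q) hr1 hr2 hr3
    (ι := Fin s × Fin s) hι
    (fun a => univ.filter fun i : Fin N =>
      (⟨i.1, by have := i.2; omega⟩ : Fin k) ∈ pre C a.1 a.2)
    (fun a => univ.filter fun j : Fin L =>
      (⟨N + j.1, by have := j.2; omega⟩ : Fin k) ∈ pre C a.1 a.2)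
  set π := ofMap hkNL g with hπ
  have hcardΛ : Fintype.card π.Λ = N - (coll g).card := by
    show Fintype.card {i : Fin N // i ∉ coll g} = _
    rw [Fintype.card_subtype_compl, Fintype.card_fin, Fintype.card_coe]
  obtain ⟨x, hx1, hx2⟩ := hC π (by rw [hcardΛ]; omega)
  have hsm : (Small (univ : Finset π.Λ) (2 * (4 * q))).card ≤ 2 ^ (212 * q) := by
    have h1 : (Small (univ : Finset π.Λ) (2 * (4 * q))).card ≤
        (Small (univ : Finset (Fin N)) (2 * (4 * q))).card := by
      apply card_le_card_of_injOn (fun M => M.image fun a : π.Λ => a.1)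
      · intro M hM
        rw [mem_coe, mem_Small] at hM
        rw [mem_coe, mem_Small]
        exact ⟨subset_univ _, card_image_le.trans hM.2⟩
      · intro M _ M' _ h
        exact image_injective (f := fun a : π.Λ => a.1) (fun a b h => Subtype.ext h) h
    have h2 := card_Small (univ : Finset (Fin N)) (2 * (4 * q)) 10 (64 * q) (by
      rw [card_univ, Fintype.card_fin, hN]
      have : (2 : ℕ) ^ 10 = 1024 := by norm_num
      rw [this]; ring)
    have h3 : (4 : ℕ) ^ (64 * q) * 2 ^ (10 * (2 * (4 * q))) ≤ 2 ^ (212 * q) := by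
      have : (4 : ℕ) = 2 ^ 2 := by norm_num
      rw [show (4 : ℕ) ^ (64 * q) = (2 ^ 2) ^ (64 * q) by norm_num, ← pow_mul, ← pow_add]
      exact Nat.pow_le_pow_right (by norm_num) (by omega)
    exact h1.trans (h2.trans h3)
  obtain ⟨h, j, h1, h2, h3⟩ := main_gap (t := 299 * q) (t' := 212 * q) (d := 4 * q) hsh π
    ((univ : Finset (Fin T)).map (Fin.castLEEmb hTk)) (by
      intro a
      constructor
      · rw [mem_map]
        exact ⟨⟨a.1, by have := a.1.2; omega⟩, mem_univ _, Fin.ext rfl⟩
      · rw [mem_map]
        exact ⟨⟨N + g a.1, by have := (g a.1).2; omega⟩, mem_univ _, Fin.ext rfl⟩)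
    (by rw [hcardΛ]; omega) (by rw [hcardΛ]; omega) hx1 hx2 (by
      have h4 := card_Small ((univ : Finset (Fin T)).map (Fin.castLEEmb hTk)) m 20
        (64 * q) (by
          rw [card_map, card_univ, Fintype.card_fin, hT, hL]
          have : (2 : ℕ) ^ 20 = 1048576 := by norm_num
          rw [this]; ring)
      have h5 : (4 : ℕ) ^ (64 * q) * 2 ^ (20 * m) ≤ 2 ^ (148 * q) := by
        have : (4 : ℕ) = 2 ^ 2 := by norm_num
        rw [this, ← pow_mul, ← pow_add]
        exact Nat.pow_le_pow_right (by norm_num) (by omega)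
      calc s ^ 2 * _ ^ 2 ≤ 2 ^ (2 * q) * (2 ^ (148 * q)) ^ 2 :=
            Nat.mul_le_mul hs2 (Nat.pow_le_pow_left (h4.trans h5) 2)
        _ = 2 ^ (298 * q) := by rw [← pow_mul, ← pow_add]; congr 1; ring
        _ < 2 ^ (299 * q) := Nat.pow_lt_pow_right (by norm_num) (by omega)) hsm
  apply hg2 (h, j)
  rw [compat, mem_filter]
  refine ⟨mem_univ _, coll g ∪ (π.split (pre C h j)).image (fun a => a.1), ?_, ?_, ?_, ?_⟩
  · refine (card_union_le _ _).trans ?_
    have : ((π.split (pre C h j)).image (fun a => a.1)).card ≤ (π.split (pre C h j)).card :=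
      card_image_le
    omega
  · have h4 : (π.both (pre C h j)).card ≤ ((univ.filter fun i : Fin N =>
        (⟨i.1, by have := i.2; omega⟩ : Fin k) ∈ pre C h j) \
        (coll g ∪ (π.split (pre C h j)).image (fun a => a.1))).card := by
      apply card_le_card_of_injOn (fun a => a.1)
      · intro a ha
        rw [mem_coe, Pairing.both, mem_filter] at ha
        rw [mem_coe, mem_sdiff, mem_filter, mem_union, mem_image]
        refine ⟨⟨mem_univ _, ha.2.1⟩, ?_⟩
        rintro (h5 | ⟨b, hb, hab⟩)
        · exact a.2 h5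
        · have : b = a := Subtype.ext hab
          subst this
          exact (π.mem_split.1 hb) ⟨fun _ => ha.2.2, fun _ => ha.2.1⟩
      · intro a _ b _ hab
        exact Subtype.ext hab
    refine le_trans ?_ h4
    rw [hcardΛ] at h2
    omega
  · have h4 : (π.none (pre C h j)).card ≤ ((univ.filter fun i : Fin N =>
        (⟨i.1, by have := i.2; omega⟩ : Fin k) ∈ pre C h j)ᶜ \
        (coll g ∪ (π.split (pre C h j)).image (fun a => a.1))).card := by
      apply card_le_card_of_injOn (fun a => a.1)
      · intro a ha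
        rw [mem_coe, Pairing.none, mem_filter] at ha
        rw [mem_coe, mem_sdiff, mem_compl, mem_filter, mem_union, mem_image]
        refine ⟨fun h5 => ha.2.1 h5.2, ?_⟩
        rintro (h5 | ⟨b, hb, hab⟩)
        · exact a.2 h5
        · have : b = a := Subtype.ext hab
          subst this
          exact (π.mem_split.1 hb) ⟨fun h => absurd h ha.2.1, fun h => absurd h ha.2.2⟩
      · intro a _ b _ hab
        exact Subtype.ext hab
    refine le_trans ?_ h4
    rw [hcardΛ] at h3
    omega
  · intro i hi
    rw [mem_union, mem_image, not_or] at hi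
    rw [mem_filter, mem_filter]
    have h5 : (⟨i, hi.1⟩ : π.Λ) ∉ π.split (pre C h j) := fun h6 => hi.2 ⟨_, h6, rfl⟩
    have h6 := not_not.1 fun h' => h5 (π.mem_split.2 h')
    constructor
    · rintro ⟨_, h7⟩
      exact ⟨mem_univ _, h6.1 h7⟩
    · rintro ⟨_, h7⟩
      exact ⟨mem_univ _, h6.2 h7⟩

end Pool.Agent.TH708.Shr
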