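import Pool.Agent.TH708.Shr.Main

/-!
# Satisfiability and circuits whose AND gates share few unit clauses
-/

set_option autoImplicit false
set_option linter.unusedSectionVars false

namespace Pool.Agent.TH708.Shr.Sat

open Finset

/-- The clauses of at most three literals; the literal `(i, b)` is true if variable `i` is `b`. -/
abbrev Cl (n : ℕ) : Type := {c : Finset (Fin n × Bool) // c.card ≤ 3}

/-- The unit clause which says that variable `i` is true. -/
def unit {n : ℕ} (i : Fin n) : Cl n := ⟨{(i, true)}, by simp⟩

/-- The formula with the clauses `c` with `x c = true` is satisfiable. -/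
def Satisfiable {n : ℕ} (x : Cl n → Bool) : Prop :=
  ∃ a : Fin n → Bool, ∀ c : Cl n, x c = true → ∃ l ∈ c.1, a l.1 = l.2

theorem unit_inj {n : ℕ} {i j : Fin n} (h : unit i = unit j) : i = j := by
  have h1 : ({(i, true)} : Finset (Fin n × Bool)) = {(j, true)} := congrArg Subtype.val h
  rw [singleton_inj] at h1
  exact congrArg Prod.fst h1

open Classical in
/-- The formula of a pairing: unit clauses for the false bits, and for each pair the clause which
says that one of the two variables is false. -/
noncomputable def formula {n : ℕ} (π : Pairing n) (y : Fin n → Bool) : Cl n → Bool := fun c =>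
  decide ((∃ i, c = unit i ∧ y i = false) ∨ ∃ a, c.1 = {(π.e a, false), (π.e' a, false)})

theorem formula_iff {n : ℕ} (π : Pairing n) (y : Fin n → Bool) (c : Cl n) :
    formula π y c = true ↔
      (∃ i, c = unit i ∧ y i = false) ∨ ∃ a, c.1 = {(π.e a, false), (π.e' a, false)} := by
  unfold formula
  exact decide_eq_true_iff

theorem formula_unit {n : ℕ} (π : Pairing n) (y : Fin n → Bool) (i : Fin n) :
    (!formula π y (unit i)) = y i := by
  have h : formula π y (unit i) = true ↔ y i = false := by
    rw [formula_iff]
    constructor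
    · rintro (⟨j, h1, h2⟩ | ⟨a, h1⟩)
      · rw [unit_inj h1]; exact h2
      · exfalso
        have h2 : (π.e a, false) ∈ ({(i, true)} : Finset (Fin n × Bool)) := by
          show (π.e a, false) ∈ (unit i).1
          rw [h1]; exact mem_insert_self _ _
        rw [mem_singleton] at h2
        have := congrArg Prod.snd h2
        simp at this
    · intro h; exact Or.inl ⟨i, rfl, h⟩
  cases hy : y i
  · rw [h.2 hy]; rfl
  · cases hf : formula π y (unit i)
    · rfl
    · rw [h.1 hf] at hy; cases hy

theorem formula_sat {n : ℕ} (π : Pairing n) (y : Fin n → Bool) :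
    Satisfiable (formula π y) ↔ ∀ a, y (π.e a) = true ∨ y (π.e' a) = true := by
  constructor
  · rintro ⟨v, hv⟩ a
    by_contra hcon
    rw [not_or, Bool.not_eq_true, Bool.not_eq_true] at hcon
    have key : ∀ i, y i = false → v i = true := by
      intro i hi
      obtain ⟨l, hl, h1⟩ := hv (unit i) ((formula_iff π y _).2 (Or.inl ⟨i, rfl, hi⟩))
      have h2 : l ∈ ({(i, true)} : Finset (Fin n × Bool)) := hl
      rw [mem_singleton] at h2
      rw [h2] at h1
      exact h1
    have hc : ({(π.e a, false), (π.e' a, false)} : Finset (Fin n × Bool)).card ≤ 3 :=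
      card_le_two.trans (by norm_num)
    obtain ⟨l, hl, h1⟩ := hv ⟨{(π.e a, false), (π.e' a, false)}, hc⟩
      ((formula_iff π y _).2 (Or.inr ⟨a, rfl⟩))
    have h2 : l ∈ ({(π.e a, false), (π.e' a, false)} : Finset (Fin n × Bool)) := hl
    rw [mem_insert, mem_singleton] at h2
    rcases h2 with rfl | rfl
    · rw [key _ hcon.1] at h1; cases h1
    · rw [key _ hcon.2] at h1; cases h1
  · intro h
    refine ⟨fun i => !y i, fun c hc => ?_⟩
    rcases (formula_iff π y c).1 hc with ⟨i, rfl, hi⟩ | ⟨a, ha⟩
    · exact ⟨(i, true), mem_singleton_self _, by simp [hi]⟩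
    · rw [ha]
      rcases h a with h1 | h1
      · exact ⟨(π.e a, false), mem_insert_self _ _, by simp [h1]⟩
      · exact ⟨(π.e' a, false), mem_insert_of_mem (mem_singleton_self _), by simp [h1]⟩

theorem formula_card {n : ℕ} (π : Pairing n) (y : Fin n → Bool) (c : Cl n)
    (h : formula π y c = true) : c.1.card ≤ 2 := by
  rcases (formula_iff π y c).1 h with ⟨i, rfl, _⟩ | ⟨a, ha⟩
  · show ({(i, true)} : Finset (Fin n × Bool)).card ≤ 2
    simp
  · rw [ha]; exact card_le_two

theorem formula_congr {n : ℕ} (π : Pairing n) (y y' : Fin n → Bool) (c : Cl n)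
    (hc : ∀ i, c ≠ unit i) : formula π y c = formula π y' c := by
  rw [Bool.eq_iff_iff, formula_iff, formula_iff]
  constructor
  · rintro (⟨i, h, _⟩ | h)
    · exact absurd h (hc i)
    · exact Or.inr h
  · rintro (⟨i, h, _⟩ | h)
    · exact absurd h (hc i)
    · exact Or.inr h

theorem lower {n s : ℕ} (C : Net (Cl n → Bool) n s) (o : Fin s)
    (hfree : ∀ g φ, C g = Kind.fn φ → ∀ x x' : Cl n → Bool,
      (∀ c, (∀ i, c ≠ unit i) → x c = x' c) → (φ x ↔ φ x'))
    (hdec : ∀ x : Cl n → Bool, (∀ c, x c = true → c.1.card ≤ 2) →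
      (Val C x (fun i => !x (unit i)) o ↔ Satisfiable x))
    (m : ℕ) (hsh : SharesLe C o m) : n ≤ 2 ^ 26 * (m + Nat.log 2 s + 1) := by
  refine size_lower hsh fun π _ => ⟨formula π fun _ => true, fun y _ => ?_⟩
  have h1 : Val C (formula π fun _ => true) y o ↔ Val C (formula π y) y o := by
    constructor
    · intro h
      exact h.congr fun g φ hg hφ => (hfree g φ hg _ _ fun c hc =>
        formula_congr π (fun _ => true) y c hc).1 hφ
    · intro h
      exact h.congr fun g φ hg hφ => (hfree g φ hg _ _ fun c hc =>
        formula_congr π y (fun _ => true) c hc).1 hφ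
  have h2 := hdec (formula π y) (formula_card π y)
  have h3 : (fun i => !formula π y (unit i)) = y := funext fun i => formula_unit π y i
  rw [h3] at h2
  rw [h1, h2]
  exact formula_sat π y

end Pool.Agent.TH708.Shr.Sat
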