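import Pool.Agent.TH708.Shr.Gap
import Pool.Agent.TH708.Shr.Sat

/-!
# Gap satisfiability and circuits whose AND gates share few unit clauses
-/

set_option autoImplicit false
set_option linter.unusedSectionVars false

namespace Pool.Agent.TH708.Shr.Sat

open Finset

/-- The clauses of the formula. -/
def clauses {n : ℕ} (x : Cl n → Bool) : Finset (Cl n) := univ.filter fun c => x c = true

/-- The clauses of the formula which the assignment `v` falsifies. -/
def falsified {n : ℕ} (x : Cl n → Bool) (v : Fin n → Bool) : Finset (Cl n) :=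
  (clauses x).filter fun c => ∀ l ∈ c.1, v l.1 ≠ l.2

/-- The formula has a clause, and every assignment falsifies at least the fraction `2 ^ (-26)` of its
clauses. -/
def Far {n : ℕ} (x : Cl n → Bool) : Prop :=
  (clauses x).Nonempty ∧ ∀ v, (clauses x).card ≤ 2 ^ 26 * (falsified x v).card

theorem falsified_card {n : ℕ} (π : Pairing n) (y v : Fin n → Bool) :
    (π.viol y).card ≤ (falsified (formula π y) v).card := by
  classical
  have hc : ∀ a : π.Λ, ({(π.e a, false), (π.e' a, false)} : Finset (Fin n × Bool)).card ≤ 3 :=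
    fun a => card_le_two.trans (by norm_num)
  apply card_le_card_of_injOn (fun a => if v (π.e a) = false then unit (π.e a) else
    if v (π.e' a) = false then unit (π.e' a) else ⟨{(π.e a, false), (π.e' a, false)}, hc a⟩)
  · intro a ha
    rw [mem_coe, Pairing.viol, mem_filter] at ha
    simp only
    rw [mem_coe, falsified, mem_filter, clauses, mem_filter]
    by_cases h1 : v (π.e a) = false
    · rw [if_pos h1]
      refine ⟨⟨mem_univ _, (formula_iff π y _).2 (Or.inl ⟨_, rfl, ha.2.1⟩)⟩, ?_⟩
      intro l hl
      have h2 : l ∈ ({(π.e a, true)} : Finset (Fin n × Bool)) := hl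
      rw [mem_singleton] at h2
      rw [h2, h1]; simp
    · rw [if_neg h1]
      by_cases h3 : v (π.e' a) = false
      · rw [if_pos h3]
        refine ⟨⟨mem_univ _, (formula_iff π y _).2 (Or.inl ⟨_, rfl, ha.2.2⟩)⟩, ?_⟩
        intro l hl
        have h2 : l ∈ ({(π.e' a, true)} : Finset (Fin n × Bool)) := hl
        rw [mem_singleton] at h2
        rw [h2, h3]; simp
      · rw [if_neg h3]
        refine ⟨⟨mem_univ _, (formula_iff π y _).2 (Or.inr ⟨a, rfl⟩)⟩, ?_⟩
        intro l hl
        have h2 : l ∈ ({(π.e a, false), (π.e' a, false)} : Finset (Fin n × Bool)) := hl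
        rw [mem_insert, mem_singleton] at h2
        rcases h2 with rfl | rfl
        · exact h1
        · exact h3
  · intro a _ b _ hab
    simp only at hab
    have hu : ∀ (i : Fin n) (b : π.Λ),
        unit i ≠ (⟨{(π.e b, false), (π.e' b, false)}, hc b⟩ : Cl n) := by
      intro i b h
      have h2 : (π.e b, false) ∈ ({(i, true)} : Finset (Fin n × Bool)) := by
        show (π.e b, false) ∈ (unit i).1
        rw [h]; exact mem_insert_self _ _
      rw [mem_singleton] at h2
      have := congrArg Prod.snd h2
      simp at this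
    split_ifs at hab with h1 h2 h3 h4 h5 h6 h7 h8
    · exact π.inj (unit_inj hab)
    · exact absurd (unit_inj hab) (π.ne _ _)
    · exact absurd hab (hu _ _)
    · exact absurd (unit_inj hab).symm (π.ne _ _)
    · exact π.inj' (unit_inj hab)
    · exact absurd hab (hu _ _)
    · exact absurd hab.symm (hu _ _)
    · exact absurd hab.symm (hu _ _)
    · have h : ({(π.e a, false), (π.e' a, false)} : Finset (Fin n × Bool)) =
          {(π.e b, false), (π.e' b, false)} := congrArg Subtype.val hab
      have h9 : (π.e a, false) ∈ ({(π.e b, false), (π.e' b, false)} : Finset (Fin n × Bool)) := by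
        rw [← h]; exact mem_insert_self _ _
      rw [mem_insert, mem_singleton] at h9
      rcases h9 with h9 | h9
      · exact π.inj (congrArg Prod.fst h9)
      · exact absurd (congrArg Prod.fst h9) (π.ne _ _)

theorem clauses_card {n : ℕ} (π : Pairing n) (hπ : 2 * Fintype.card π.Λ ≤ n)
    (y : Fin n → Bool) : (clauses (formula π y)).card ≤ 2 * n := by
  classical
  have hc : ∀ a : π.Λ, ({(π.e a, false), (π.e' a, false)} : Finset (Fin n × Bool)).card ≤ 3 :=
    fun a => card_le_two.trans (by norm_num)
  have h : clauses (formula π y) ⊆ (univ.image unit) ∪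
      (univ.image fun a : π.Λ => (⟨{(π.e a, false), (π.e' a, false)}, hc a⟩ : Cl n)) := by
    intro c hcc
    rw [clauses, mem_filter, formula_iff] at hcc
    rw [mem_union, mem_image, mem_image]
    rcases hcc.2 with ⟨i, h1, _⟩ | ⟨a, h1⟩
    · exact Or.inl ⟨i, mem_univ _, h1.symm⟩
    · exact Or.inr ⟨a, mem_univ _, Subtype.ext h1.symm⟩
  refine (card_le_card h).trans ((card_union_le _ _).trans ?_)
  have h1 : (univ.image (unit : Fin n → Cl n)).card ≤ n :=
    card_image_le.trans (by rw [card_univ, Fintype.card_fin])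
  have h2 : (univ.image fun a : π.Λ => (⟨{(π.e a, false), (π.e' a, false)}, hc a⟩ : Cl n)).card ≤
      Fintype.card π.Λ := card_image_le.trans (by rw [card_univ])
  omega

theorem far_of_viol {n : ℕ} (hn : 2 ^ 26 ≤ n) (π : Pairing n) (hπ : 2 * Fintype.card π.Λ ≤ n)
    (y : Fin n → Bool) (hy : 4 * (n / 2 ^ 26) ≤ (π.viol y).card) : Far (formula π y) := by
  classical
  have h26 : (2 : ℕ) ^ 26 = 67108864 := by norm_num
  have hq : 2 * n ≤ 2 ^ 26 * (4 * (n / 2 ^ 26)) := by
    rw [h26] at hn ⊢
    have h1 := Nat.div_add_mod n 67108864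
    have h2 := Nat.mod_lt n (by norm_num : 0 < 67108864)
    have h3 : 1 ≤ n / 67108864 := (Nat.one_le_div_iff (by norm_num)).2 hn
    omega
  refine ⟨?_, fun v => ?_⟩
  · have h1 := falsified_card π y (fun _ => true)
    have h2 : 1 ≤ n / 2 ^ 26 := (Nat.one_le_div_iff (by norm_num)).2 hn
    have h3 : (falsified (formula π y) fun _ => true).Nonempty := by
      rw [← card_pos]; omega
    exact h3.mono (filter_subset _ _)
  · calc (clauses (formula π y)).card ≤ 2 * n := clauses_card π hπ y
      _ ≤ 2 ^ 26 * (4 * (n / 2 ^ 26)) := hq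
      _ ≤ _ := Nat.mul_le_mul_left _ (hy.trans (falsified_card π y v))

theorem gap_sat_lower {n s : ℕ} (C : Net (Cl n → Bool) n s) (o : Fin s)
    (hfree : ∀ g φ, C g = Kind.fn φ → ∀ x x' : Cl n → Bool,
      (∀ c, (∀ i, c ≠ unit i) → x c = x' c) → (φ x ↔ φ x'))
    (hyes : ∀ x : Cl n → Bool, (∀ c, x c = true → c.1.card ≤ 2) → Satisfiable x →
      Val C x (fun i => !x (unit i)) o)
    (hno : ∀ x : Cl n → Bool, (∀ c, x c = true → c.1.card ≤ 2) → Far x →
      ¬ Val C x (fun i => !x (unit i)) o)
    (m : ℕ) (hsh : SharesLe C o m) : n ≤ 2 ^ 26 * (m + Nat.log 2 s + 1) := by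
  refine gap_lower hsh fun hn π hπ => ⟨formula π fun _ => true, fun y _ hy => ?_, fun y _ hy => ?_⟩
  all_goals
    have h1 : Val C (formula π fun _ => true) y o ↔ Val C (formula π y) y o := by
      constructor
      · intro h
        exact h.congr fun g φ hg hφ => (hfree g φ hg _ _ fun c hc =>
          formula_congr π (fun _ => true) y c hc).1 hφ
      · intro h
        exact h.congr fun g φ hg hφ => (hfree g φ hg _ _ fun c hc =>
          formula_congr π y (fun _ => true) c hc).1 hφ
    have h3 : (fun i => !formula π y (unit i)) = y := funext fun i => formula_unit π y i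
    rw [h1]
  · have h2 := hyes (formula π y) (formula_card π y) ((formula_sat π y).2 hy)
    rw [h3] at h2
    exact h2
  · have h2 := hno (formula π y) (formula_card π y) (far_of_viol hn π hπ y hy)
    rw [h3] at h2
    exact h2

end Pool.Agent.TH708.Shr.Sat
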