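import Pool.Agent.TH708.Shr.Reach

/-!
# Path systems and circuits whose AND gates share few inputs
-/

set_option autoImplicit false
set_option linter.unusedSectionVars false

namespace Pool.Agent.TH708.Shr.Gen

open Finset

/-- The elements which are derivable from the axioms `A` with the rules `R`: a rule `(a, b, c)`
derives `c` from `a` and `b`. -/
inductive Der {V : Type} (R : Set (V × V × V)) (A : Set V) : V → Prop
  | ax (v : V) : v ∈ A → Der R A v
  | rule (a b c : V) : (a, b, c) ∈ R → Der R A a → Der R A b → Der R A c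

variable {k : ℕ}

/-- The axioms: the element `inr 0`, and the elements `inl i` with `y i` true. -/
def axioms (y : Fin k → Bool) : Set (Fin k ⊕ Fin (k + 1)) :=
  {v | v = Sum.inr 0 ∨ ∃ i, v = Sum.inl i ∧ y i = true}

/-- The rules of a pairing. -/
def rules (π : Pairing k) (r : ℕ) (E : π.Λ ≃ Fin r) :
    Set ((Fin k ⊕ Fin (k + 1)) × (Fin k ⊕ Fin (k + 1)) × (Fin k ⊕ Fin (k + 1))) :=
  {t | ∃ j : Fin k, t.1 = Sum.inr j.castSucc ∧ t.2.2 = Sum.inr j.succ ∧
    ((∃ a, (E a : ℕ) = j ∧ (t.2.1 = Sum.inl (π.e a) ∨ t.2.1 = Sum.inl (π.e' a))) ∨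
      (r ≤ j ∧ t.2.1 = Sum.inr j.castSucc))}

theorem der_iff (π : Pairing k) (r : ℕ) (E : π.Λ ≃ Fin r) (hr : r ≤ k) (y : Fin k → Bool) :
    Der (rules π r E) (axioms y) (Sum.inr (Fin.last k)) ↔
      ∀ a, y (π.e a) = true ∨ y (π.e' a) = true := by
  constructor
  · intro h
    have key : ∀ v, Der (rules π r E) (axioms y) v →
        (∀ i, v = Sum.inl i → y i = true) ∧
        (∀ j : Fin (k + 1), v = Sum.inr j → ∀ a, (E a : ℕ) < j →
          y (π.e a) = true ∨ y (π.e' a) = true) := by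
      intro v hv
      induction hv with
      | ax v hv =>
        rcases hv with rfl | ⟨i, rfl, hi⟩
        · refine ⟨fun i h => by simp at h, fun j h a ha => ?_⟩
          simp only [Sum.inr.injEq] at h
          rw [← h] at ha
          simp at ha
        · refine ⟨fun i' h => ?_, fun j h => by simp at h⟩
          simp only [Sum.inl.injEq] at h
          rw [← h]; exact hi
      | rule a b c hr' _ _ iha ihb =>
        obtain ⟨j, h1, h2, h3⟩ := hr'
        simp only at h1 h2 h3
        refine ⟨fun i h => by rw [h2] at h; simp at h, fun j' h a' ha' => ?_⟩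
        rw [h2, Sum.inr.injEq] at h
        rw [← h, Fin.val_succ] at ha'
        by_cases hlt : (E a' : ℕ) < j
        · exact iha.2 _ h1 a' (by simpa using hlt)
        · have hj : (E a' : ℕ) = j := by omega
          rcases h3 with ⟨a'', h4, h5⟩ | ⟨h4, _⟩
          · have : a'' = a' := E.injective (Fin.ext (h4.trans hj.symm))
            subst this
            rcases h5 with h5 | h5
            · exact Or.inl (ihb.1 _ h5)
            · exact Or.inr (ihb.1 _ h5)
          · have := (E a').2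
            omega
    intro a
    refine (key _ h).2 _ rfl a ?_
    have := (E a).2
    simp only [Fin.val_last]
    omega
  · intro h
    have key : ∀ j : Fin (k + 1), Der (rules π r E) (axioms y) (Sum.inr j) := by
      intro j
      induction j using Fin.induction with
      | zero => exact Der.ax _ (Or.inl rfl)
      | succ j ih =>
        by_cases hj : (j : ℕ) < r
        · obtain ⟨a, ha⟩ := E.surjective ⟨j, hj⟩
          have hv : (E a : ℕ) = j := by rw [ha]
          rcases h a with h1 | h1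
          · exact Der.rule _ (Sum.inl (π.e a)) _ ⟨j, rfl, rfl, Or.inl ⟨a, hv, Or.inl rfl⟩⟩ ih
              (Der.ax _ (Or.inr ⟨_, rfl, h1⟩))
          · exact Der.rule _ (Sum.inl (π.e' a)) _ ⟨j, rfl, rfl, Or.inl ⟨a, hv, Or.inr rfl⟩⟩ ih
              (Der.ax _ (Or.inr ⟨_, rfl, h1⟩))
        · exact Der.rule _ (Sum.inr j.castSucc) _ ⟨j, rfl, rfl, Or.inr ⟨by omega, rfl⟩⟩ ih ih
    exact key _

theorem lower {s : ℕ}
    (C : Net (Set ((Fin k ⊕ Fin (k + 1)) × (Fin k ⊕ Fin (k + 1)) × (Fin k ⊕ Fin (k + 1)))) k s)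
    (o : Fin s)
    (hdec : ∀ R (y : Fin k → Bool), (Val C R y o ↔ Der R (axioms y) (Sum.inr (Fin.last k))))
    (m : ℕ) (hsh : SharesLe C o m) : k ≤ 2 ^ 26 * (m + Nat.log 2 s + 1) := by
  refine size_lower hsh fun π hπ =>
    ⟨rules π _ (Fintype.equivFin π.Λ), fun y _ => (hdec _ y).trans (der_iff π _ _ (by omega) y)⟩

theorem depth_lower {s : ℕ}
    (C : Net (Set ((Fin k ⊕ Fin (k + 1)) × (Fin k ⊕ Fin (k + 1)) × (Fin k ⊕ Fin (k + 1)))) k s)
    (o : Fin s)
    (hdec : ∀ R (y : Fin k → Bool), (Val C R y o ↔ Der R (axioms y) (Sum.inr (Fin.last k))))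
    (dep : Fin s → ℕ) (μ : ℕ)
    (hand : ∀ g l, C g = Kind.and l → l.card ≤ 2 ∧ ∀ a ∈ l, dep a < dep g)
    (hor : ∀ g l, C g = Kind.or l → l.card ≤ 2 ∧ ∀ a ∈ l, dep a < dep g)
    (hreach : ∀ g, ∃ M, Walk C o g M)
    (hμ : ∀ g, (shared C g).ncard ≤ μ) : k ≤ 2 ^ 26 * ((μ + 1) * (dep o + 2)) := by
  have h1 := lower C o hdec _ (sharesLe_of_depth dep μ (fun g l h => (hand g l h).2)
    (fun g l h a ha => ((hor g l h).2 a ha).le) hμ)
  have h2 := size_lt_of_depth dep hand hor hreach
  have h3 : Nat.log 2 s ≤ dep o + 1 := by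
    by_cases hs : s = 0
    · subst hs; simp
    · have h4 := Nat.pow_log_le_self 2 hs
      have h5 : (2 : ℕ) ^ Nat.log 2 s < 2 ^ (dep o + 1) := lt_of_le_of_lt h4 h2
      exact ((Nat.pow_lt_pow_iff_right (by norm_num)).1 h5).le
  refine h1.trans (Nat.mul_le_mul_left _ ?_)
  have : (μ + 1) * (dep o + 2) = μ * dep o + 2 * μ + dep o + 2 := by ring
  omega

end Pool.Agent.TH708.Shr.Gen
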