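import Pool.Agent.TH708.Shr.Rand

/-!
# Circuits whose AND gates share few inputs: the lower bound
-/

set_option autoImplicit false
set_option linter.unusedSectionVars false

namespace Pool.Agent.TH708.Shr

open Finset

variable {X : Type} {k s : ℕ}

/-- The pairing of a map. -/
noncomputable def ofMap {N L : ℕ} (hk : N + L ≤ k) (g : Fin N → Fin L) : Pairing k where
  Λ := {i : Fin N // i ∉ coll g}
  fin := inferInstance
  dec := inferInstance
  e i := ⟨i.1, by have := i.1.2; omega⟩
  e' i := ⟨N + g i.1, by have := (g i.1).2; omega⟩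
  inj := by
    intro a b h
    simp only [Fin.mk.injEq] at h
    exact Subtype.ext (Fin.ext h)
  inj' := by
    intro a b h
    simp only [Fin.mk.injEq, Nat.add_left_cancel_iff] at h
    by_contra hne
    exact b.2 (mem_coll.2 ⟨a.1, fun h' => hne (Subtype.ext h'), Fin.ext h⟩)
  ne := by
    intro a b h
    simp only [Fin.mk.injEq] at h
    have := a.1.2
    omega

theorem size_lower {C : Net X k s} {o : Fin s} {m : ℕ} (hsh : SharesLe C o m)
    (hC : ∀ π : Pairing k, 2 * Fintype.card π.Λ ≤ k → ∃ x, ∀ y, π.Supp y →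
      (Val C x y o ↔ ∀ a, y (π.e a) = true ∨ y (π.e' a) = true)) :
    k ≤ 2 ^ 26 * (m + Nat.log 2 s + 1) := by
  classical
  by_contra hcon
  push Not at hcon
  set q := m + Nat.log 2 s + 1 with hq
  have hs : s < 2 ^ q := by
    have h1 := Nat.lt_pow_succ_log_self (b := 2) (by norm_num) s
    exact lt_of_lt_of_le h1 (Nat.pow_le_pow_right (by norm_num) (by omega))
  have hcon' : 67108864 * q < k := by
    have : (2 : ℕ) ^ 26 = 67108864 := by norm_num
    rw [this] at hcon
    exact hcon
  clear hcon
  obtain ⟨N, hN⟩ : ∃ N, N = 65536 * q := ⟨_, rfl⟩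
  obtain ⟨L, hL⟩ : ∃ L, N + L = 67108864 * q := ⟨67108864 * q - N, by omega⟩
  obtain ⟨T, hT⟩ : ∃ T, T = N + L := ⟨_, rfl⟩
  have hkNL : N + L ≤ k := by omega
  have hTk : T ≤ k := by omega
  have hs2 : s ^ 2 ≤ 2 ^ (2 * q) := by
    calc s ^ 2 ≤ (2 ^ q) ^ 2 := Nat.pow_le_pow_left hs.le 2
      _ = 2 ^ (2 * q) := by rw [← pow_mul, mul_comm]
  have hr1 : 1 ≤ 512 * q := by omega
  have hr2 : N = 128 * (512 * q) := by rw [hN]; ring
  have hr3 : 512 * N ≤ L := by omega
  have hι : Fintype.card (Fin s × Fin s) ≤ 2 ^ (512 * q) := by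
    rw [Fintype.card_prod, Fintype.card_fin, ← pow_two]
    exact hs2.trans (Nat.pow_le_pow_right (by norm_num) (by omega))
  obtain ⟨g, hg1, hg2⟩ := exists_map (N := N) (L := L) (512 * q) hr1 hr2 hr3
    (ι := Fin s × Fin s) hι
    (fun a => univ.filter fun i : Fin N =>
      (⟨i.1, by have := i.2; omega⟩ : Fin k) ∈ pre C a.1 a.2)
    (fun a => univ.filter fun j : Fin L =>
      (⟨N + j.1, by have := j.2; omega⟩ : Fin k) ∈ pre C a.1 a.2)
  set π := ofMap hkNL g with hπ
  have hcardΛ : Fintype.card π.Λ = N - (coll g).card := by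
    show Fintype.card {i : Fin N // i ∉ coll g} = _
    rw [Fintype.card_subtype_compl, Fintype.card_fin, Fintype.card_coe]
  obtain ⟨x, hx⟩ := hC π (by rw [hcardΛ]; omega)
  obtain ⟨h, j, h1, h2, h3⟩ := main (t := 512 * q) hsh π
    ((univ : Finset (Fin T)).map (Fin.castLEEmb hTk)) (by
      intro a
      constructor
      · rw [mem_map]
        exact ⟨⟨a.1, by have := a.1.2; omega⟩, mem_univ _, Fin.ext rfl⟩
      · rw [mem_map]
        exact ⟨⟨N + g a.1, by have := (g a.1).2; omega⟩, mem_univ _, Fin.ext rfl⟩)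
    (by rw [hcardΛ]; omega) hx (by
      have h4 := card_Small ((univ : Finset (Fin T)).map (Fin.castLEEmb hTk)) m 20
        (64 * q) (by
          rw [card_map, card_univ, Fintype.card_fin, hT, hL]
          have : (2 : ℕ) ^ 20 = 1048576 := by norm_num
          rw [this]; ring)
      have h5 : (4 : ℕ) ^ (64 * q) * 2 ^ (20 * m) ≤ 2 ^ (148 * q) := by
        have : (4 : ℕ) = 2 ^ 2 := by norm_num
        rw [this, ← pow_mul, ← pow_add]
        exact Nat.pow_le_pow_right (by norm_num) (by omega)
      calc s ^ 2 * _ ^ 2 ≤ 2 ^ (2 * q) * (2 ^ (148 * q)) ^ 2 :=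
            Nat.mul_le_mul hs2 (Nat.pow_le_pow_left (h4.trans h5) 2)
        _ = 2 ^ (298 * q) := by rw [← pow_mul, ← pow_add]; congr 1; ring
        _ < 2 ^ (512 * q) := Nat.pow_lt_pow_right (by norm_num) (by omega))
  apply hg2 (h, j)
  rw [compat, mem_filter]
  refine ⟨mem_univ _, coll g ∪ (π.split (pre C h j)).image (fun a => a.1), ?_, ?_, ?_, ?_⟩
  · refine (card_union_le _ _).trans ?_
    have : ((π.split (pre C h j)).image (fun a => a.1)).card ≤ (π.split (pre C h j)).card :=
      card_image_le
    omega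
  · have h4 : (π.both (pre C h j)).card ≤ ((univ.filter fun i : Fin N =>
        (⟨i.1, by have := i.2; omega⟩ : Fin k) ∈ pre C h j) \
        (coll g ∪ (π.split (pre C h j)).image (fun a => a.1))).card := by
      apply card_le_card_of_injOn (fun a => a.1)
      · intro a ha
        rw [mem_coe, Pairing.both, mem_filter] at ha
        rw [mem_coe, mem_sdiff, mem_filter, mem_union, mem_image]
        refine ⟨⟨mem_univ _, ha.2.1⟩, ?_⟩
        rintro (h5 | ⟨b, hb, hab⟩)
        · exact a.2 h5
        · have : b = a := Subtype.ext hab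
          subst this
          exact (π.mem_split.1 hb) ⟨fun _ => ha.2.2, fun _ => ha.2.1⟩
      · intro a _ b _ hab
        exact Subtype.ext hab
    refine le_trans ?_ h4
    rw [hcardΛ] at h2
    omega
  · have h4 : (π.none (pre C h j)).card ≤ ((univ.filter fun i : Fin N =>
        (⟨i.1, by have := i.2; omega⟩ : Fin k) ∈ pre C h j)ᶜ \
        (coll g ∪ (π.split (pre C h j)).image (fun a => a.1))).card := by
      apply card_le_card_of_injOn (fun a => a.1)
      · intro a ha
        rw [mem_coe, Pairing.none, mem_filter] at ha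
        rw [mem_coe, mem_sdiff, mem_compl, mem_filter, mem_union, mem_image]
        refine ⟨fun h5 => ha.2.1 h5.2, ?_⟩
        rintro (h5 | ⟨b, hb, hab⟩)
        · exact a.2 h5
        · have : b = a := Subtype.ext hab
          subst this
          exact (π.mem_split.1 hb) ⟨fun h => absurd h ha.2.1, fun h => absurd h ha.2.2⟩
      · intro a _ b _ hab
        exact Subtype.ext hab
    refine le_trans ?_ h4
    rw [hcardΛ] at h3
    omega
  · intro i hi
    rw [mem_union, mem_image, not_or] at hi
    rw [mem_filter, mem_filter]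
    have h5 : (⟨i, hi.1⟩ : π.Λ) ∉ π.split (pre C h j) := fun h6 => hi.2 ⟨_, h6, rfl⟩
    have h6 := not_not.1 fun h' => h5 (π.mem_split.2 h')
    constructor
    · rintro ⟨_, h7⟩
      exact ⟨mem_univ _, h6.1 h7⟩
    · rintro ⟨_, h7⟩
      exact ⟨mem_univ _, h6.2 h7⟩

/-- If the input of every AND gate has smaller depth, and the inputs of OR gates have at most the
depth of the gate, then few shared bits at the AND gates are few shared bits on the paths. -/
theorem sharesLe_of_depth {C : Net X k s} {o : Fin s} (dep : Fin s → ℕ) (μ : ℕ)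
    (hand : ∀ g l, C g = Kind.and l → ∀ a ∈ l, dep a < dep g)
    (hor : ∀ g l, C g = Kind.or l → ∀ a ∈ l, dep a ≤ dep g)
    (hμ : ∀ g, (shared C g).ncard ≤ μ) : SharesLe C o (μ * dep o) := by
  have key : ∀ g M, Walk C o g M → dep g ≤ dep o ∧
      M.ncard ≤ μ * (dep o - dep g) + (shared C g).ncard := by
    intro g M h
    induction h with
    | start => exact ⟨le_rfl, by omega⟩
    | and g M l a _ h1 h2 ih =>
      have h3 := hand g l h1 a h2
      refine ⟨by omega, (Set.ncard_union_le _ _).trans (Nat.add_le_add_right ?_ _)⟩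
      have h4 : μ * (dep o - dep g) + μ ≤ μ * (dep o - dep a) := by
        rw [← Nat.mul_succ]
        exact Nat.mul_le_mul_left _ (by omega)
      have := hμ g
      omega
    | or g M l a _ h1 h2 ih =>
      have h3 := hor g l h1 a h2
      refine ⟨by omega, (Set.ncard_union_le _ _).trans (Nat.add_le_add_right ?_ _)⟩
      have h4 : shared C g = ∅ := by
        ext i
        simp only [shared, Set.mem_setOf_eq, Set.mem_empty_iff_false, iff_false]
        rintro ⟨l', h5, _⟩
        rw [h1] at h5
        cases h5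
      rw [h4, Set.ncard_empty, add_zero] at ih
      exact ih.2.trans (Nat.mul_le_mul_left _ (by omega))
  intro g M h
  obtain ⟨h1, h2⟩ := key g M h
  by_cases h3 : (shared C g).Nonempty
  · obtain ⟨i, l, h4, a, ha, _⟩ := h3
    have h5 := hand g l h4 a ha
    have h6 := hμ g
    calc M.ncard ≤ μ * (dep o - dep g) + μ := by omega
      _ = μ * (dep o - dep g + 1) := (Nat.mul_succ _ _).symm
      _ ≤ μ * dep o := Nat.mul_le_mul_left _ (by omega)
  · rw [Set.not_nonempty_iff_eq_empty] at h3
    rw [h3, Set.ncard_empty, add_zero] at h2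
    exact h2.trans (Nat.mul_le_mul_left _ (by omega))

theorem Val.congr {C : Net X k s} {x x' : X} {y : Fin k → Bool} {g : Fin s}
    (h : Val C x y g) (hφ : ∀ g φ, C g = Kind.fn φ → φ x → φ x') : Val C x' y g := by
  induction h with
  | lit g i b h1 h2 => exact Val.lit g i b h1 h2
  | fn g φ h1 h2 => exact Val.fn g φ h1 (hφ g φ h1 h2)
  | and g l h1 _ ih => exact Val.and g l h1 ih
  | or g l a h1 h2 _ ih => exact Val.or g l a h1 h2 ih

end Pool.Agent.TH708.Shr
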