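import Pool.Agent.TH708.Shr.Main

/-!
# Circuits whose AND gates share few inputs: orthogonal vectors over the field with two elements
-/

set_option autoImplicit false
set_option linter.unusedSectionVars false

namespace Pool.Agent.TH708.Shr

open Finset

theorem rect_sub {ℓ : ℕ} (P : Submodule (ZMod 2) (Fin ℓ → ZMod 2)) (W : Finset (Fin ℓ → ZMod 2))
    (h : ∀ u ∈ P, ∀ w ∈ W, u ⬝ᵥ w = 0) : Nat.card P * W.card ≤ 2 ^ ℓ := by
  classical
  let B : LinearMap.BilinForm (ZMod 2) (Fin ℓ → ZMod 2) := Matrix.toBilin' 1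
  have hB : B.Nondegenerate := by
    apply Matrix.Nondegenerate.toBilin'
    apply Matrix.nondegenerate_of_det_ne_zero
    simp
  have hBa : ∀ u w, B u w = u ⬝ᵥ w := by
    intro u w
    show Matrix.toBilin' 1 u w = _
    rw [Matrix.toBilin'_apply', Matrix.one_mulVec]
  have h1 := LinearMap.BilinForm.finrank_orthogonal hB P
  have h2 : (W : Set (Fin ℓ → ZMod 2)) ⊆ B.orthogonal P := by
    intro w hw
    rw [SetLike.mem_coe, LinearMap.BilinForm.mem_orthogonal_iff]
    intro u hu
    show B u w = 0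
    rw [hBa]
    exact h u hu w hw
  have h3 : W.card ≤ Nat.card (B.orthogonal P) := by
    rw [Nat.card_eq_fintype_card]
    have : W.card = Fintype.card ↥W := (Fintype.card_coe W).symm
    rw [this]
    exact Fintype.card_le_of_injective (fun w => ⟨w.1, h2 w.2⟩) (fun a b hab => by
      simp only [Subtype.mk.injEq] at hab
      exact Subtype.ext hab)
  have h4 : Nat.card (B.orthogonal P) = 2 ^ Module.finrank (ZMod 2) (B.orthogonal P) := by
    rw [Nat.card_eq_fintype_card, Module.card_eq_pow_finrank (K := ZMod 2), ZMod.card]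
  have h5 : Nat.card P = 2 ^ Module.finrank (ZMod 2) P := by
    rw [Nat.card_eq_fintype_card, Module.card_eq_pow_finrank (K := ZMod 2), ZMod.card]
  have h6 : Module.finrank (ZMod 2) P ≤ Module.finrank (ZMod 2) (Fin ℓ → ZMod 2) :=
    Submodule.finrank_le P
  have h7 : Module.finrank (ZMod 2) (Fin ℓ → ZMod 2) = ℓ := by simp
  rw [h7] at h1 h6
  calc Nat.card P * W.card ≤ Nat.card P * Nat.card (B.orthogonal P) := Nat.mul_le_mul_left _ h3
    _ = 2 ^ ℓ := by rw [h4, h5, h1, ← pow_add]; congr 1; omega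

theorem rect {ℓ : ℕ} (U W : Finset (Fin ℓ → ZMod 2)) (c : ZMod 2)
    (h : ∀ u ∈ U, ∀ w ∈ W, u ⬝ᵥ w = c) : U.card * W.card ≤ 2 ^ ℓ := by
  classical
  rcases U.eq_empty_or_nonempty with rfl | ⟨u₀, hu₀⟩
  · simp
  let P : Submodule (ZMod 2) (Fin ℓ → ZMod 2) :=
    Submodule.span (ZMod 2) ((U.image fun u => u - u₀ : Finset _) : Set (Fin ℓ → ZMod 2))
  have h1 : U.card ≤ Nat.card P := by
    rw [Nat.card_eq_fintype_card, ← Fintype.card_coe]
    refine Fintype.card_le_of_injective (fun u => ⟨u.1 - u₀, Submodule.subset_span ?_⟩) ?_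
    · rw [mem_coe, mem_image]; exact ⟨u.1, u.2, rfl⟩
    · intro a b hab
      simp only [Subtype.mk.injEq, sub_left_inj] at hab
      exact Subtype.ext hab
  refine (Nat.mul_le_mul_right _ h1).trans (rect_sub P W ?_)
  intro u hu w hw
  induction hu using Submodule.span_induction with
  | mem x hx =>
    rw [mem_coe, mem_image] at hx
    obtain ⟨u, hu, rfl⟩ := hx
    rw [sub_dotProduct, h u hu w hw, h u₀ hu₀ w hw, sub_self]
  | zero => exact zero_dotProduct _
  | add x y _ _ hx hy => rw [add_dotProduct, hx, hy, add_zero]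
  | smul a x _ hx => rw [smul_dotProduct, hx, smul_zero]

/-- The product of the sizes. -/
theorem prod_sizes {k N : ℕ} (u : Fin k → ℕ) (I : Finset (Fin k)) (hu : ∀ γ, u γ ≤ N)
    (h : ∀ γ ∈ I, ∀ δ ∉ I, u γ * u δ ≤ N) : ∏ γ, u γ ≤ N ^ max I.card (k - I.card) := by
  classical
  rcases I.eq_empty_or_nonempty with rfl | hI
  · calc ∏ γ, u γ ≤ ∏ _γ : Fin k, N := prod_le_prod' fun γ _ => hu γ
      _ ≤ _ := by simp
  obtain ⟨γ₀, hγ₀, hmax⟩ := exists_max_image I u hI
  rcases Nat.eq_zero_or_pos (u γ₀) with h0 | hpos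
  · rw [prod_eq_zero (mem_univ γ₀) h0]; exact Nat.zero_le _
  have hkc : Iᶜ.card = k - I.card := by rw [card_compl, Fintype.card_fin]
  rw [← prod_mul_prod_compl I u]
  have h1 : ∏ γ ∈ I, u γ ≤ u γ₀ ^ I.card := prod_le_pow_card _ _ _ fun γ hγ => hmax γ hγ
  have h2 : (∏ δ ∈ Iᶜ, u δ) * u γ₀ ^ Iᶜ.card ≤ N ^ Iᶜ.card := by
    rw [← prod_const, ← prod_mul_distrib]
    calc ∏ δ ∈ Iᶜ, u δ * u γ₀ ≤ ∏ _δ ∈ Iᶜ, N := by
          apply prod_le_prod'
          intro δ hδ
          rw [mul_comm]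
          exact h γ₀ hγ₀ δ (by rwa [mem_compl] at hδ)
      _ = _ := by simp
  rw [← hkc]
  have hub := hu γ₀
  have hpow : 0 < u γ₀ ^ Iᶜ.card := by positivity
  refine Nat.le_of_mul_le_mul_right ?_ hpow
  calc (∏ γ ∈ I, u γ) * (∏ δ ∈ Iᶜ, u δ) * u γ₀ ^ Iᶜ.card
      = (∏ γ ∈ I, u γ) * ((∏ δ ∈ Iᶜ, u δ) * u γ₀ ^ Iᶜ.card) := by ring
    _ ≤ u γ₀ ^ I.card * N ^ Iᶜ.card := Nat.mul_le_mul h1 h2
    _ ≤ N ^ max I.card Iᶜ.card * u γ₀ ^ Iᶜ.card := by
        rcases le_total I.card Iᶜ.card with h3 | h3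
        · rw [max_eq_right h3, mul_comm]
          exact Nat.mul_le_mul_left _ (Nat.pow_le_pow_right hpos h3)
        · rw [max_eq_left h3]
          obtain ⟨e, he⟩ := Nat.exists_eq_add_of_le h3
          rw [he, pow_add, pow_add]
          have := Nat.pow_le_pow_left hub e
          calc u γ₀ ^ Iᶜ.card * u γ₀ ^ e * N ^ Iᶜ.card ≤ u γ₀ ^ Iᶜ.card * N ^ e * N ^ Iᶜ.card :=
                Nat.mul_le_mul_right _ (Nat.mul_le_mul_left _ this)
            _ = _ := by ring


/-- Vectors over the field with two elements. -/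
abbrev Vec (ℓ : ℕ) : Type := Fin ℓ → ZMod 2

variable {X : Type} {k ℓ T s : ℕ}

/-- The inner products of the vectors `f γ` are prescribed. -/
def Good (P : Fin k → Fin k → ZMod 2) (f : Fin k → Vec ℓ) : Prop :=
  ∀ γ δ, γ ≠ δ → f γ ⬝ᵥ f δ = P γ δ

open Classical in
theorem exists_pattern (k ℓ : ℕ) : ∃ P : Fin k → Fin k → ZMod 2, (∀ γ δ, P γ δ = P δ γ) ∧
    (2 ^ ℓ) ^ k ≤ 2 ^ (k ^ 2) * (univ.filter fun f : Fin k → Vec ℓ => Good P f).card := by
  let G : (Fin k → Vec ℓ) → (Fin k → Fin k → ZMod 2) := fun f γ δ => f γ ⬝ᵥ f δ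
  obtain ⟨P, _, hP⟩ := exists_max_image (univ : Finset (Fin k → Fin k → ZMod 2))
    (fun P => (univ.filter fun f => G f = P).card) univ_nonempty
  have h1 : Fintype.card (Fin k → Vec ℓ) = (2 ^ ℓ) ^ k := by
    simp [ZMod.card]
  have h2 : Fintype.card (Fin k → Fin k → ZMod 2) = 2 ^ (k ^ 2) := by
    simp only [Fintype.card_fun, ZMod.card, Fintype.card_fin]
    rw [← pow_mul, pow_two]
  have h3 : Fintype.card (Fin k → Vec ℓ) ≤ 2 ^ (k ^ 2) * (univ.filter fun f => G f = P).card := by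
    rw [← card_univ, card_eq_sum_card_fiberwise (f := G) (t := univ) fun _ _ => mem_univ _]
    calc ∑ b : Fin k → Fin k → ZMod 2, (univ.filter fun f => G f = b).card
        ≤ ∑ _b : Fin k → Fin k → ZMod 2, (univ.filter fun f => G f = P).card :=
          sum_le_sum fun b hb => hP b hb
      _ = _ := by rw [sum_const, card_univ, h2, smul_eq_mul]
  have h4 : (univ.filter fun f => G f = P).Nonempty := by
    rw [← card_pos]
    by_contra h0
    have h5 : (univ.filter fun f => G f = P).card = 0 := by omega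
    rw [h5, h1, mul_zero] at h3
    have : 0 < ((2 : ℕ) ^ ℓ) ^ k := by positivity
    omega
  obtain ⟨f₀, hf₀⟩ := h4
  rw [mem_filter] at hf₀
  refine ⟨P, ?_, ?_⟩
  · intro γ δ
    rw [← hf₀.2]
    exact dotProduct_comm _ _
  · rw [← h1]
    refine h3.trans (Nat.mul_le_mul_left _ (card_le_card ?_))
    intro f hf
    rw [mem_filter] at hf ⊢
    refine ⟨mem_univ _, fun γ δ _ => ?_⟩
    rw [← hf.2]

theorem card_Small_le {V : Type} [DecidableEq V] (D : Finset V) (m : ℕ) :
    (Small D m).card ≤ (D.card + 1) ^ m := by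
  classical
  induction m with
  | zero =>
    rw [pow_zero]
    refine card_le_one.2 fun a ha b hb => ?_
    rw [mem_Small] at ha hb
    rw [card_eq_zero.1 (Nat.le_zero.1 ha.2), card_eq_zero.1 (Nat.le_zero.1 hb.2)]
  | succ m ih =>
    have h1 : Small D (m + 1) ⊆ ((Small D m) ×ˢ (insertNone D)).image fun p =>
        match p.2 with
        | none => p.1
        | some v => insert v p.1 := by
      intro M hM
      rw [mem_Small] at hM
      rw [mem_image]
      rcases Nat.lt_or_ge m M.card with h2 | h2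
      · have hne : M.Nonempty := by rw [← card_pos]; omega
        obtain ⟨v, hv⟩ := hne
        refine ⟨(M.erase v, some v), ?_, ?_⟩
        · rw [mem_product, mem_Small]
          refine ⟨⟨(erase_subset _ _).trans hM.1, ?_⟩, ?_⟩
          · rw [card_erase_of_mem hv]; omega
          · simp only [some_mem_insertNone]; exact hM.1 hv
        · exact insert_erase hv
      · refine ⟨(M, none), ?_, rfl⟩
        rw [mem_product, mem_Small]
        exact ⟨⟨hM.1, h2⟩, none_mem_insertNone⟩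
    calc (Small D (m + 1)).card ≤ ((Small D m) ×ˢ (insertNone D)).card :=
          (card_le_card h1).trans card_image_le
      _ = (Small D m).card * (D.card + 1) := by rw [card_product, card_insertNone]
      _ ≤ (D.card + 1) ^ m * (D.card + 1) := Nat.mul_le_mul_right _ ih
      _ = _ := (pow_succ _ _).symm

/-- Small sets with a marked subset. -/
def keys (T m : ℕ) : Finset ((_ : Finset (Fin T)) × Finset (Fin T)) :=
  (Small (univ : Finset (Fin T)) m).sigma fun M => M.powerset

theorem card_keys (T m : ℕ) : (keys T m).card ≤ (T + 1) ^ m * 2 ^ m := by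
  rw [keys, card_sigma]
  calc ∑ M ∈ Small (univ : Finset (Fin T)) m, (M.powerset).card
      ≤ ∑ _M ∈ Small (univ : Finset (Fin T)) m, 2 ^ m := by
        apply sum_le_sum
        intro M hM
        rw [card_powerset]
        exact Nat.pow_le_pow_right (by norm_num) (mem_Small.1 hM).2
    _ = (Small (univ : Finset (Fin T)) m).card * 2 ^ m := by rw [sum_const, smul_eq_mul]
    _ ≤ _ := by
        refine Nat.mul_le_mul_right _ ((card_Small_le _ _).trans ?_)
        rw [card_univ, Fintype.card_fin]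

/-- The chosen bits. -/
def pick (ι : Fin k × Vec ℓ → Fin T) (f : Fin k → Vec ℓ) : Finset (Fin T) :=
  univ.image fun γ => ι (γ, f γ)

theorem mem_pick {ι : Fin k × Vec ℓ → Fin T} (hι : Function.Injective ι) {f : Fin k → Vec ℓ}
    {γ : Fin k} {v : Vec ℓ} : ι (γ, v) ∈ pick ι f ↔ v = f γ := by
  rw [pick, mem_image]
  constructor
  · rintro ⟨δ, _, h⟩
    have h1 := hι h
    rw [Prod.mk.injEq] at h1
    obtain ⟨rfl, h2⟩ := h1
    exact h2.symm
  · rintro rfl
    exact ⟨γ, mem_univ _, rfl⟩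

theorem card_pick {ι : Fin k × Vec ℓ → Fin T} (hι : Function.Injective ι) (f : Fin k → Vec ℓ) :
    (pick ι f).card = k := by
  rw [pick, card_image_of_injective, card_univ, Fintype.card_fin]
  intro a b h
  exact (Prod.mk.inj (hι h)).1

/-- The indices of the chosen bits in a set. -/
def inside (ι : Fin k × Vec ℓ → Fin T) (A : Finset (Fin T)) (f : Fin k → Vec ℓ) :
    Finset (Fin k) := univ.filter fun γ => ι (γ, f γ) ∈ A

theorem card_inside {ι : Fin k × Vec ℓ → Fin T} (hι : Function.Injective ι)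
    (A : Finset (Fin T)) (f : Fin k → Vec ℓ) :
    (inside ι A f).card = (pick ι f ∩ A).card := by
  symm
  have h : pick ι f ∩ A = (inside ι A f).image fun γ => ι (γ, f γ) := by
    ext i
    rw [mem_inter, pick, mem_image, mem_image]
    constructor
    · rintro ⟨⟨γ, _, rfl⟩, h⟩
      exact ⟨γ, mem_filter.2 ⟨mem_univ _, h⟩, rfl⟩
    · rintro ⟨γ, hγ, rfl⟩
      rw [inside, mem_filter] at hγ
      exact ⟨⟨γ, mem_univ _, rfl⟩, hγ.2⟩
  rw [h, card_image_of_injective]
  intro a b h
  exact (Prod.mk.inj (hι h)).1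

/-- The assignment that chooses. -/
def choice (ι : Fin k × Vec ℓ → Fin T) (f : Fin k → Vec ℓ) (i : Fin T) : Bool :=
  decide (i ∈ pick ι f)

/-- **The main lemma.** -/
theorem orth_main {C : Net X T s} {x : X} {o : Fin s} {m : ℕ} (hsh : SharesLe C o m)
    (hk : 2 ≤ k) (ι : Fin k × Vec ℓ → Fin T) (hι : Function.Injective ι)
    (P : Fin k → Fin k → ZMod 2) (F : Finset (Fin k → Vec ℓ)) (hF : ∀ f ∈ F, Good P f)
    (hC : ∀ y, Val C x y o ↔ ∃ f : Fin k → Vec ℓ, (∀ γ, y (ι (γ, f γ)) = true) ∧ Good P f) :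
    F.card ≤ s ^ 2 * ((T + 1) ^ m * 2 ^ m) * (2 ^ ℓ) ^ ((5 * k + 6 * m) / 6) := by
  classical
  -- the data of each choice
  have hdata : ∀ f : ↥F, ∃ (h j : Fin s) (M : Finset (Fin T)), M.card ≤ m ∧
      Ctx C x (choice ι f.1) h j (pre C h j) M o ∧
      (∀ l, C h = Kind.and l → ∀ a ∈ l, a ≤ j → Val C x (choice ι f.1) a) ∧
      6 * max (inside ι (pre C h j) f.1).card (k - (inside ι (pre C h j) f.1).card) ≤
        5 * k + 6 * m := by
    intro f
    have hval : Val C x (choice ι f.1) o := by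
      rw [hC]
      exact ⟨f.1, fun γ => decide_eq_true ((mem_pick hι).2 rfl), hF f.1 f.2⟩
    obtain ⟨R, hR⟩ := hval.pt
    have hrel : pick ι f.1 ⊆ R := by
      intro i hi
      by_contra hiR
      rw [pick, mem_image] at hi
      obtain ⟨γ, _, rfl⟩ := hi
      have hv : Val C x (Function.update (choice ι f.1) (ι (γ, f.1 γ)) false) o :=
        hR.val fun i' hi' => by
          rw [Function.update_of_ne]
          rintro rfl; exact hiR hi'
      rw [hC] at hv
      obtain ⟨g, hg, _⟩ := hv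
      have h1 := hg γ
      by_cases h2 : ι (γ, g γ) = ι (γ, f.1 γ)
      · rw [h2, Function.update_self] at h1
        cases h1
      · rw [Function.update_of_ne h2, choice, decide_eq_true_eq, mem_pick hι] at h1
        exact h2 (by rw [h1])
    have hcr := card_pick hι f.1
    have hPR : R ∩ pick ι f.1 = pick ι f.1 := inter_eq_right.2 hrel
    obtain ⟨h, j, M', Q, a1, _, a3, a4, a5, a6, a7, a8⟩ :=
      descent (C := C) (x := x) (y := choice ι f.1) (o := o) (pick ι f.1) (by omega) hR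
        (by rw [hPR]; omega) _ Walk.start
    have hM' : M'.card ≤ m := by
      have := hsh _ _ a1
      rwa [Set.ncard_coe_finset] at this
    refine ⟨h, j, M', hM', a3, a4, ?_⟩
    have hci := card_inside hι (pre C h j) f.1
    have h1 : (Q ∩ pick ι f.1).card ≤ (pick ι f.1 ∩ pre C h j).card := by
      rw [inter_comm (pick ι f.1)]
      exact card_le_card (inter_subset_inter_right a5)
    have h2 : (pick ι f.1 ∩ pre C h j).card + (pick ι f.1 \ pre C h j).card = k := by
      rw [card_inter_add_card_sdiff, hcr]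
    have h3 : pick ι f.1 ⊆ (Q ∩ pick ι f.1) ∪ ((pick ι f.1 \ pre C h j) ∪ M') := by
      intro i hi
      rw [mem_union, mem_inter, mem_union, mem_sdiff]
      rcases a8 i (hrel hi) with h | h | h
      · exact Or.inl ⟨h, hi⟩
      · exact Or.inr (Or.inl ⟨hi, h⟩)
      · exact Or.inr (Or.inr h)
    have h4 := card_le_card h3
    have h5 := card_union_le (Q ∩ pick ι f.1) ((pick ι f.1 \ pre C h j) ∪ M')
    have h6 := card_union_le (pick ι f.1 \ pre C h j) M'
    rw [hci]
    omega
  choose h j M hM hctx hpre hI using hdata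
  let Φ : ↥F → Fin s × Fin s × ↥(keys T m) := fun f =>
    (h f, j f, ⟨⟨M f, M f ∩ pick ι f.1⟩, by
      rw [keys, mem_sigma, mem_Small, mem_powerset]
      exact ⟨⟨subset_univ _, hM f⟩, inter_subset_left⟩⟩)
  by_contra hcon
  push Not at hcon
  have hcard : Fintype.card (Fin s × Fin s × ↥(keys T m)) * (2 ^ ℓ) ^ ((5 * k + 6 * m) / 6) <
      Fintype.card ↥F := by
    rw [Fintype.card_prod, Fintype.card_prod, Fintype.card_fin, Fintype.card_coe,
      Fintype.card_coe]
    refine lt_of_le_of_lt (Nat.mul_le_mul_right _ ?_) hcon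
    rw [pow_two, mul_assoc]
    exact Nat.mul_le_mul_left _ (Nat.mul_le_mul_left _ (card_keys T m))
  obtain ⟨c, hc⟩ := Fintype.exists_lt_card_fiber_of_mul_lt_card Φ hcard
  -- mixtures
  have mix : ∀ f f' : ↥F, Φ f = Φ f' → ∃ g : Fin k → Vec ℓ, Good P g ∧ ∀ γ,
      (ι (γ, f.1 γ) ∈ pre C (h f) (j f) ∧ g γ = f.1 γ) ∨
      (ι (γ, f'.1 γ) ∉ pre C (h f) (j f) ∧ g γ = f'.1 γ) := by
    intro f f' hΦ
    have hh : h f = h f' := congrArg Prod.fst hΦ
    have hj : j f = j f' := congrArg (fun p => p.2.1) hΦ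
    have hMM : M f = M f' := congrArg (fun p => p.2.2.1.1) hΦ
    have hMt : M f ∩ pick ι f.1 = M f' ∩ pick ι f'.1 := congrArg (fun p => p.2.2.1.2) hΦ
    have hagM : ∀ i ∈ M f', choice ι f.1 i = choice ι f'.1 i := by
      intro i hi
      have h1 : i ∈ M f ∩ pick ι f.1 ↔ i ∈ M f' ∩ pick ι f'.1 := by rw [hMt]
      rw [mem_inter, mem_inter, hMM] at h1
      simp only [hi, true_and] at h1
      unfold choice
      rw [decide_eq_decide]
      exact h1
    let z : Fin T → Bool := fun i => if i ∈ pre C (h f) (j f) then choice ι f.1 i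
      else choice ι f'.1 i
    have hzA : ∀ i ∈ pre C (h f) (j f), z i = choice ι f.1 i := fun i hi => by simp [z, hi]
    have hzB : ∀ i ∉ pre C (h f) (j f), z i = choice ι f'.1 i := fun i hi => by simp [z, hi]
    have hz : Val C x z o := by
      refine Ctx.sound (h := h f) (j := j f) (A := pre C (h f) (j f)) (M := M f') ?_ ?_
      · have h1 := hctx f'
        rw [← hh, ← hj] at h1
        refine h1.local fun i hi => ?_
        by_cases hA : i ∈ pre C (h f) (j f)
        · rw [hzA i hA]; exact hagM i (hi hA)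
        · exact hzB i hA
      · intro l hl a ha haj
        refine (hpre f l hl a ha haj).local fun i hi => ?_
        exact hzA i (mem_pre.2 ⟨l, hl, a, ha, haj, hi⟩)
    rw [hC] at hz
    obtain ⟨g, hg, hgood⟩ := hz
    refine ⟨g, hgood, fun γ => ?_⟩
    have h1 := hg γ
    by_cases hA : ι (γ, g γ) ∈ pre C (h f) (j f)
    · rw [hzA _ hA, choice, decide_eq_true_eq, mem_pick hι] at h1
      left
      rw [← h1]; exact ⟨hA, rfl⟩
    · rw [hzB _ hA, choice, decide_eq_true_eq, mem_pick hι] at h1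
      right
      rw [← h1]; exact ⟨hA, rfl⟩
  have hsub : ∀ f f' : ↥F, Φ f = Φ f' →
      inside ι (pre C (h f) (j f)) f'.1 ⊆ inside ι (pre C (h f) (j f)) f.1 := by
    intro f f' hΦ γ hγ
    rw [inside, mem_filter] at hγ ⊢
    obtain ⟨g, _, hg⟩ := mix f f' hΦ
    rcases hg γ with h1 | h1
    · exact ⟨mem_univ _, h1.1⟩
    · exact absurd hγ.2 h1.1
  have hsame : ∀ f f' : ↥F, Φ f = Φ f' →
      inside ι (pre C (h f) (j f)) f'.1 = inside ι (pre C (h f) (j f)) f.1 := by
    intro f f' hΦ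
    refine Subset.antisymm (hsub f f' hΦ) ?_
    have hh : h f = h f' := congrArg Prod.fst hΦ
    have hj : j f = j f' := congrArg (fun p => p.2.1) hΦ
    have := hsub f' f hΦ.symm
    rwa [← hh, ← hj] at this
  -- the class
  set 𝓒 : Finset ↥F := univ.filter fun f => Φ f = c with h𝓒
  have hne : 𝓒.Nonempty := card_pos.1 (lt_of_le_of_lt (Nat.zero_le _) hc)
  obtain ⟨f₀, hf₀⟩ := hne
  rw [h𝓒, mem_filter] at hf₀
  set A := pre C (h f₀) (j f₀) with hA
  set I := inside ι A f₀.1 with hIdef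
  let U : Fin k → Finset (Vec ℓ) := fun γ => 𝓒.image fun f => f.1 γ
  have hpair : ∀ γ ∈ I, ∀ δ ∉ I, ∀ u ∈ U γ, ∀ w ∈ U δ, u ⬝ᵥ w = P γ δ := by
    intro γ hγ δ hδ u hu w hw
    simp only [U, mem_image, h𝓒, mem_filter, mem_univ, true_and] at hu hw
    obtain ⟨f, hf, rfl⟩ := hu
    obtain ⟨f', hf', rfl⟩ := hw
    have e1 : Φ f₀ = Φ f := hf₀.2.trans hf.symm
    have e2 : Φ f₀ = Φ f' := hf₀.2.trans hf'.symm
    have e3 : Φ f = Φ f' := hf.trans hf'.symm
    have hh : h f₀ = h f := congrArg Prod.fst e1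
    have hj : j f₀ = j f := congrArg (fun p => p.2.1) e1
    obtain ⟨g, hgood, hg⟩ := mix f f' e3
    rw [← hh, ← hj, ← hA] at hg
    have i1 := hsame f₀ f e1
    have i2 := hsame f₀ f' e2
    rw [← hA, ← hIdef] at i1 i2
    have g1 : g γ = f.1 γ := by
      rcases hg γ with h1 | h1
      · exact h1.2
      · rw [← i2, inside, mem_filter] at hγ
        exact absurd hγ.2 h1.1
    have g2 : g δ = f'.1 δ := by
      rcases hg δ with h1 | h1
      · rw [← i1, inside, mem_filter] at hδ
        exact absurd ⟨mem_univ _, h1.1⟩ hδ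
      · exact h1.2
    rw [← g1, ← g2]
    exact hgood γ δ (fun h' => hδ (h' ▸ hγ))
  have h1 : 𝓒.card ≤ ∏ γ, (U γ).card := by
    rw [← Fintype.card_piFinset]
    apply card_le_card_of_injOn (fun f : ↥F => f.1)
    · intro f hf
      rw [mem_coe] at hf
      rw [mem_coe, Fintype.mem_piFinset]
      intro γ
      exact mem_image_of_mem _ hf
    · intro f _ f' _ hff
      exact Subtype.ext hff
  have h2 : ∏ γ, (U γ).card ≤ (2 ^ ℓ) ^ max I.card (k - I.card) := by
    refine prod_sizes _ I (fun γ => ?_) fun γ hγ δ hδ => ?_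
    · refine (card_le_univ _).trans ?_
      simp [ZMod.card]
    · exact rect _ _ (P γ δ) (hpair γ hγ δ hδ)
  have h3 : max I.card (k - I.card) ≤ (5 * k + 6 * m) / 6 := by
    have := hI f₀
    rw [Nat.le_div_iff_mul_le (by norm_num), mul_comm]
    exact this
  have h4 : (2 ^ ℓ) ^ max I.card (k - I.card) ≤ (2 ^ ℓ) ^ ((5 * k + 6 * m) / 6) :=
    Nat.pow_le_pow_right (by positivity) h3
  exact absurd hc (not_lt.2 (h1.trans (h2.trans h4)))

end Pool.Agent.TH708.Shr
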