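import Pool.Agent.TH708.Shr.Dup
import Pool.Agent.TH708.Shr.Clq

/-!
# Few bits read both below a node and in its contexts: orthogonal vectors and cliques
-/

set_option autoImplicit false
set_option linter.unusedSectionVars false

namespace Pool.Agent.TH708.Shr

open Finset

/-- The product of the sizes, on two sets of indices. -/
theorem prod_sizes_two {k N : ℕ} (u : Fin k → ℕ) (I J : Finset (Fin k)) (hu : ∀ γ, u γ ≤ N)
    (hN : 1 ≤ N) (h : ∀ γ ∈ I, ∀ δ ∈ J, u γ * u δ ≤ N) :
    (∏ γ ∈ I, u γ) * ∏ δ ∈ J, u δ ≤ N ^ max I.card J.card := by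
  classical
  rcases I.eq_empty_or_nonempty with rfl | hI
  · rw [prod_empty, one_mul, card_empty, max_eq_right (Nat.zero_le _)]
    exact prod_le_pow_card _ _ _ fun γ _ => hu γ
  obtain ⟨γ₀, hγ₀, hmax⟩ := exists_max_image I u hI
  rcases Nat.eq_zero_or_pos (u γ₀) with h0 | hpos
  · rw [prod_eq_zero hγ₀ h0, zero_mul]; exact Nat.zero_le _
  have h1 : ∏ γ ∈ I, u γ ≤ u γ₀ ^ I.card := prod_le_pow_card _ _ _ fun γ hγ => hmax γ hγ
  have h2 : (∏ δ ∈ J, u δ) * u γ₀ ^ J.card ≤ N ^ J.card := by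
    rw [← prod_const, ← prod_mul_distrib]
    calc ∏ δ ∈ J, u δ * u γ₀ ≤ ∏ _δ ∈ J, N := by
          apply prod_le_prod'
          intro δ hδ
          rw [mul_comm]
          exact h γ₀ hγ₀ δ hδ
      _ = _ := by simp
  have hub := hu γ₀
  have hpow : 0 < u γ₀ ^ J.card := by positivity
  refine Nat.le_of_mul_le_mul_right ?_ hpow
  calc (∏ γ ∈ I, u γ) * (∏ δ ∈ J, u δ) * u γ₀ ^ J.card
      = (∏ γ ∈ I, u γ) * ((∏ δ ∈ J, u δ) * u γ₀ ^ J.card) := by ring
    _ ≤ u γ₀ ^ I.card * N ^ J.card := Nat.mul_le_mul h1 h2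
    _ ≤ N ^ max I.card J.card * u γ₀ ^ J.card := by
        rcases le_total I.card J.card with h3 | h3
        · rw [max_eq_right h3, mul_comm]
          exact Nat.mul_le_mul_left _ (Nat.pow_le_pow_right hpos h3)
        · rw [max_eq_left h3]
          obtain ⟨e, he⟩ := Nat.exists_eq_add_of_le h3
          rw [he, pow_add, pow_add]
          have := Nat.pow_le_pow_left hub e
          calc u γ₀ ^ J.card * u γ₀ ^ e * N ^ J.card ≤ u γ₀ ^ J.card * N ^ e * N ^ J.card :=
                Nat.mul_le_mul_right _ (Nat.mul_le_mul_left _ this)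
            _ = _ := by ring

variable {X : Type} {k ℓ T s : ℕ}

/-- **The main lemma.** -/
theorem orth_dup {C : Net X T s} {x : X} {o : Fin s} {m : ℕ}
    (hdup : ∀ h j, Reach C o h → (dupPre C o h j).card ≤ m) (hm1 : 1 ≤ m) (hmN : m ≤ 2 ^ ℓ)
    (hk : 2 ≤ k) (ι : Fin k × Vec ℓ → Fin T) (hι : Function.Injective ι)
    (P : Fin k → Fin k → ZMod 2) (F : Finset (Fin k → Vec ℓ)) (hF : ∀ f ∈ F, Good P f)
    (hC : ∀ y, Val C x y o ↔ ∃ f : Fin k → Vec ℓ, (∀ γ, y (ι (γ, f γ)) = true) ∧ Good P f) :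
    F.card ^ 6 ≤ (s ^ 2 * (k + 1)) ^ 6 * (m ^ k * (2 ^ ℓ) ^ (5 * k)) := by
  classical
  -- the data of each choice
  have hdata : ∀ f : ↥F, ∃ (h j : Fin s), Reach C o h ∧
      Ctx C x (choice ι f.1) h j (pre C h j) (dupPre C o h j) o ∧
      (∀ l, C h = Kind.and l → ∀ a ∈ l, a ≤ j → Val C x (choice ι f.1) a) ∧
      k < 6 * (inside ι (pre C h j) f.1).card ∧
      k ≤ 6 * (k - (inside ι (pre C h j) f.1).card) +
        6 * (inside ι (dupPre C o h j) f.1).card := by
    intro f
    have hval : Val C x (choice ι f.1) o := by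
      rw [hC]
      exact ⟨f.1, fun γ => decide_eq_true ((mem_pick hι).2 rfl), hF f.1 f.2⟩
    obtain ⟨R, hR⟩ := hval.pt
    have hrel : pick ι f.1 ⊆ R := by
      intro i hi
      by_contra hiR
      rw [pick, mem_image] at hi
      obtain ⟨γ, _, rfl⟩ := hi
      have hv : Val C x (Function.update (choice ι f.1) (ι (γ, f.1 γ)) false) o :=
        hR.val fun i' hi' => by
          rw [Function.update_of_ne]
          rintro rfl; exact hiR hi'
      rw [hC] at hv
      obtain ⟨g, hg, _⟩ := hv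
      have h1 := hg γ
      by_cases h2 : ι (γ, g γ) = ι (γ, f.1 γ)
      · rw [h2, Function.update_self] at h1
        cases h1
      · rw [Function.update_of_ne h2, choice, decide_eq_true_eq, mem_pick hι] at h1
        exact h2 (by rw [h1])
    have hcr := card_pick hι f.1
    have hPR : R ∩ pick ι f.1 = pick ι f.1 := inter_eq_right.2 hrel
    obtain ⟨h, j, Q, a1, a3, a4, a5, a6, a7, a8⟩ :=
      descent_dup (C := C) (x := x) (y := choice ι f.1) (o := o) (pick ι f.1) (by omega) hR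
        (by rw [hPR]; omega) Reach.start
    have hci := card_inside hι (pre C h j) f.1
    have hcd := card_inside hι (dupPre C o h j) f.1
    have h1 : (Q ∩ pick ι f.1).card ≤ (pick ι f.1 ∩ pre C h j).card := by
      rw [inter_comm (pick ι f.1)]
      exact card_le_card (inter_subset_inter_right a5)
    have h2 : (pick ι f.1 ∩ pre C h j).card + (pick ι f.1 \ pre C h j).card = k := by
      rw [card_inter_add_card_sdiff, hcr]
    have h3 : pick ι f.1 ⊆ (Q ∩ pick ι f.1) ∪
        ((pick ι f.1 \ pre C h j) ∪ (pick ι f.1 ∩ dupPre C o h j)) := by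
      intro i hi
      rw [mem_union, mem_inter, mem_union, mem_sdiff, mem_inter]
      rcases a8 i (hrel hi) with h | h | h
      · exact Or.inl ⟨h, hi⟩
      · exact Or.inr (Or.inl ⟨hi, h⟩)
      · exact Or.inr (Or.inr ⟨hi, h⟩)
    have h4 := card_le_card h3
    have h5 := card_union_le (Q ∩ pick ι f.1)
      ((pick ι f.1 \ pre C h j) ∪ (pick ι f.1 ∩ dupPre C o h j))
    have h6 := card_union_le (pick ι f.1 \ pre C h j) (pick ι f.1 ∩ dupPre C o h j)
    refine ⟨h, j, a1, a3, a4, ?_, ?_⟩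
    · rw [hci]; omega
    · rw [hci, hcd]; omega
  choose h j hreach hctx hpre hI1 hI2 using hdata
  -- mixtures
  have mix : ∀ f f' : ↥F, h f = h f' → j f = j f' →
      pick ι f.1 ∩ dupPre C o (h f) (j f) = pick ι f'.1 ∩ dupPre C o (h f) (j f) →
      ∃ g : Fin k → Vec ℓ, Good P g ∧ ∀ γ,
      (ι (γ, f.1 γ) ∈ pre C (h f) (j f) ∧ g γ = f.1 γ) ∨
      (ι (γ, f'.1 γ) ∉ pre C (h f) (j f) ∧ g γ = f'.1 γ) := by
    intro f f' hh hj hD
    have hagM : ∀ i ∈ dupPre C o (h f) (j f), choice ι f.1 i = choice ι f'.1 i := by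
      intro i hi
      have h1 : i ∈ pick ι f.1 ∩ dupPre C o (h f) (j f) ↔
          i ∈ pick ι f'.1 ∩ dupPre C o (h f) (j f) := by rw [hD]
      rw [mem_inter, mem_inter] at h1
      simp only [hi, and_true] at h1
      unfold choice
      rw [decide_eq_decide]
      exact h1
    let z : Fin T → Bool := fun i => if i ∈ pre C (h f) (j f) then choice ι f.1 i
      else choice ι f'.1 i
    have hzA : ∀ i ∈ pre C (h f) (j f), z i = choice ι f.1 i := fun i hi => by simp [z, hi]
    have hzB : ∀ i ∉ pre C (h f) (j f), z i = choice ι f'.1 i := fun i hi => by simp [z, hi]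
    have hz : Val C x z o := by
      refine Ctx.sound (h := h f) (j := j f) (A := pre C (h f) (j f))
        (M := dupPre C o (h f) (j f)) ?_ ?_
      · have h1 := hctx f'
        rw [← hh, ← hj] at h1
        refine h1.local fun i hi => ?_
        by_cases hA : i ∈ pre C (h f) (j f)
        · rw [hzA i hA]; exact hagM i (hi hA)
        · exact hzB i hA
      · intro l hl a ha haj
        refine (hpre f l hl a ha haj).local fun i hi => ?_
        exact hzA i (mem_pre.2 ⟨l, hl, a, ha, haj, hi⟩)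
    rw [hC] at hz
    obtain ⟨g, hg, hgood⟩ := hz
    refine ⟨g, hgood, fun γ => ?_⟩
    have h1 := hg γ
    by_cases hA : ι (γ, g γ) ∈ pre C (h f) (j f)
    · rw [hzA _ hA, choice, decide_eq_true_eq, mem_pick hι] at h1
      left
      rw [← h1]; exact ⟨hA, rfl⟩
    · rw [hzB _ hA, choice, decide_eq_true_eq, mem_pick hι] at h1
      right
      rw [← h1]; exact ⟨hA, rfl⟩
  have hsub : ∀ f f' : ↥F, h f = h f' → j f = j f' →
      pick ι f.1 ∩ dupPre C o (h f) (j f) = pick ι f'.1 ∩ dupPre C o (h f) (j f) →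
      inside ι (pre C (h f) (j f)) f'.1 ⊆ inside ι (pre C (h f) (j f)) f.1 := by
    intro f f' hh hj hD γ hγ
    rw [inside, mem_filter] at hγ ⊢
    obtain ⟨g, _, hg⟩ := mix f f' hh hj hD
    rcases hg γ with h1 | h1
    · exact ⟨mem_univ _, h1.1⟩
    · exact absurd hγ.2 h1.1
  have hsame : ∀ f f' : ↥F, h f = h f' → j f = j f' →
      pick ι f.1 ∩ dupPre C o (h f) (j f) = pick ι f'.1 ∩ dupPre C o (h f) (j f) →
      inside ι (pre C (h f) (j f)) f'.1 = inside ι (pre C (h f) (j f)) f.1 := by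
    intro f f' hh hj hD
    refine Subset.antisymm (hsub f f' hh hj hD) ?_
    have := hsub f' f hh.symm hj.symm (by rw [← hh, ← hj]; exact hD.symm)
    rwa [← hh, ← hj] at this
  -- the size of a class
  have hclass : ∀ (h₀ j₀ : Fin s) (κ : Finset (Fin T)) (r : ℕ), κ.card = r →
      (univ.filter fun f : ↥F => h f = h₀ ∧ j f = j₀ ∧
        pick ι f.1 ∩ dupPre C o h₀ j₀ = κ).card ≤ (2 ^ ℓ) ^ (min (5 * k) (6 * k - 6 * r) / 6) := by
    intro h₀ j₀ κ r hr
    set 𝓒 : Finset ↥F := univ.filter fun f : ↥F => h f = h₀ ∧ j f = j₀ ∧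
        pick ι f.1 ∩ dupPre C o h₀ j₀ = κ with h𝓒
    rcases 𝓒.eq_empty_or_nonempty with h0 | ⟨f₀, hf₀⟩
    · rw [h0, card_empty]; exact Nat.zero_le _
    have hmem : ∀ f ∈ 𝓒, h f = h₀ ∧ j f = j₀ ∧ pick ι f.1 ∩ dupPre C o h₀ j₀ = κ := by
      intro f hf
      rw [h𝓒, mem_filter] at hf
      exact hf.2
    obtain ⟨e1, e2, e3⟩ := hmem f₀ hf₀
    set A := pre C h₀ j₀ with hA
    set D := dupPre C o h₀ j₀ with hDdef
    set I := inside ι A f₀.1 with hIdef
    set R := inside ι D f₀.1 with hRdef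
    have hDA : D ⊆ A := fun i hi => (mem_dupPre.1 hi).1
    have hRI : R ⊆ I := by
      intro γ hγ
      rw [hRdef, inside, mem_filter] at hγ
      rw [hIdef, inside, mem_filter]
      exact ⟨mem_univ _, hDA hγ.2⟩
    have hRc : R.card = r := by
      rw [hRdef, card_inside hι, e3, hr]
    have hIA : ∀ f ∈ 𝓒, inside ι A f.1 = I := by
      intro f hf
      obtain ⟨g1, g2, g3⟩ := hmem f hf
      have := hsame f₀ f (e1.trans g1.symm) (e2.trans g2.symm)
        (by rw [e1, e2]; exact e3.trans g3.symm)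
      rw [e1, e2] at this
      exact this
    let U : Fin k → Finset (Vec ℓ) := fun γ => 𝓒.image fun f => f.1 γ
    have hpair : ∀ γ ∈ I, ∀ δ ∉ I, ∀ u ∈ U γ, ∀ w ∈ U δ, u ⬝ᵥ w = P γ δ := by
      intro γ hγ δ hδ u hu w hw
      simp only [U, mem_image] at hu hw
      obtain ⟨f, hf, rfl⟩ := hu
      obtain ⟨f', hf', rfl⟩ := hw
      obtain ⟨g1, g2, g3⟩ := hmem f hf
      obtain ⟨g1', g2', g3'⟩ := hmem f' hf'
      obtain ⟨g, hgood, hg⟩ := mix f f' (g1.trans g1'.symm) (g2.trans g2'.symm)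
        (by rw [g1, g2]; exact g3.trans g3'.symm)
      rw [g1, g2] at hg
      have i1 := hIA f hf
      have i2 := hIA f' hf'
      have k1 : g γ = f.1 γ := by
        rcases hg γ with h1 | h1
        · exact h1.2
        · rw [← i2, inside, mem_filter] at hγ
          exact absurd hγ.2 h1.1
      have k2 : g δ = f'.1 δ := by
        rcases hg δ with h1 | h1
        · rw [← i1, inside, mem_filter] at hδ
          exact absurd ⟨mem_univ _, h1.1⟩ hδ
        · exact h1.2
      rw [← k1, ← k2]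
      exact hgood γ δ (fun h' => hδ (h' ▸ hγ))
    have hUR : ∀ γ ∈ R, (U γ).card ≤ 1 := by
      intro γ hγ
      rw [card_le_one]
      have key : ∀ u ∈ U γ, u = f₀.1 γ := by
        intro u hu
        simp only [U, mem_image] at hu
        obtain ⟨f, hf, rfl⟩ := hu
        obtain ⟨g1, g2, g3⟩ := hmem f hf
        rw [hRdef, inside, mem_filter] at hγ
        have h1 : ι (γ, f₀.1 γ) ∈ pick ι f₀.1 ∩ D := mem_inter.2 ⟨(mem_pick hι).2 rfl, hγ.2⟩
        rw [e3, ← g3, mem_inter, mem_pick hι] at h1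
        exact h1.1.symm
      intro a ha b hb
      rw [key a ha, key b hb]
    have h1 : 𝓒.card ≤ ∏ γ, (U γ).card := by
      rw [← Fintype.card_piFinset]
      apply card_le_card_of_injOn (fun f : ↥F => f.1)
      · intro f hf
        rw [mem_coe] at hf
        rw [mem_coe, Fintype.mem_piFinset]
        intro γ
        exact mem_image_of_mem _ hf
      · intro f _ f' _ hff
        exact Subtype.ext hff
    have h2 : ∏ γ, (U γ).card ≤ (∏ γ ∈ I \ R, (U γ).card) * ∏ δ ∈ Iᶜ, (U δ).card := by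
      rw [← prod_mul_prod_compl I, ← prod_sdiff hRI]
      have h3 : ∏ γ ∈ R, (U γ).card ≤ 1 := prod_le_one' hUR
      calc (∏ γ ∈ I \ R, (U γ).card) * (∏ γ ∈ R, (U γ).card) * ∏ δ ∈ Iᶜ, (U δ).card
          ≤ (∏ γ ∈ I \ R, (U γ).card) * 1 * ∏ δ ∈ Iᶜ, (U δ).card :=
            Nat.mul_le_mul_right _ (Nat.mul_le_mul_left _ h3)
        _ = _ := by rw [mul_one]
    have h3 : (∏ γ ∈ I \ R, (U γ).card) * ∏ δ ∈ Iᶜ, (U δ).card ≤
        (2 ^ ℓ) ^ max (I \ R).card Iᶜ.card := by
      refine prod_sizes_two _ _ _ (fun γ => ?_) Nat.one_le_two_pow fun γ hγ δ hδ => ?_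
      · refine (card_le_univ _).trans ?_
        simp [ZMod.card]
      · exact rect _ _ (P γ δ) (hpair γ (mem_sdiff.1 hγ).1 δ (mem_compl.1 hδ))
    have h4 : max (I \ R).card Iᶜ.card ≤ min (5 * k) (6 * k - 6 * r) / 6 := by
      have b1 := hI1 f₀
      have b2 := hI2 f₀
      rw [e1, e2] at b1 b2
      have b3 : Iᶜ.card = k - I.card := by rw [card_compl, Fintype.card_fin]
      have b4 : (I \ R).card = I.card - r := by rw [card_sdiff_of_subset hRI, hRc]
      have b5 : I.card ≤ k := by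
        have := card_le_univ I
        rwa [Fintype.card_fin] at this
      have b6 : R.card ≤ I.card := card_le_card hRI
      rw [hRc] at b6
      rw [Nat.le_div_iff_mul_le (by norm_num), b3, b4]
      change k < 6 * I.card at b1
      change k ≤ 6 * (k - I.card) + 6 * R.card at b2
      rw [hRc] at b2
      omega
    exact h1.trans (h2.trans (h3.trans (Nat.pow_le_pow_right (by positivity) h4)))
  -- all classes of a gate with a given number of duplicated bits
  have hfib : ∀ (h₀ j₀ : Fin s) (r : Fin (k + 1)),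
      ((univ.filter fun f : ↥F => h f = h₀ ∧ j f = j₀ ∧
        (pick ι f.1 ∩ dupPre C o h₀ j₀).card = r).card) ^ 6 ≤ m ^ k * (2 ^ ℓ) ^ (5 * k) := by
    intro h₀ j₀ r
    rcases (univ.filter fun f : ↥F => h f = h₀ ∧ j f = j₀ ∧
        (pick ι f.1 ∩ dupPre C o h₀ j₀).card = r).eq_empty_or_nonempty with h0 | ⟨f₁, hf₁⟩
    · rw [h0, card_empty, zero_pow (by norm_num)]; exact Nat.zero_le _
    have hDm : (dupPre C o h₀ j₀).card ≤ m := by
      rw [mem_filter] at hf₁
      apply hdup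
      rw [← hf₁.2.1]
      exact hreach f₁
    have h1 : (univ.filter fun f : ↥F => h f = h₀ ∧ j f = j₀ ∧
        (pick ι f.1 ∩ dupPre C o h₀ j₀).card = r).card ≤
        m ^ (r : ℕ) * (2 ^ ℓ) ^ (min (5 * k) (6 * k - 6 * r) / 6) := by
      rw [card_eq_sum_card_fiberwise (f := fun f : ↥F => pick ι f.1 ∩ dupPre C o h₀ j₀)
        (t := powersetCard r (dupPre C o h₀ j₀)) (by
          intro f hf
          rw [mem_coe, mem_filter] at hf
          rw [mem_coe, mem_powersetCard]
          exact ⟨inter_subset_right, hf.2.2.2⟩)]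
      calc _ ≤ ∑ _κ ∈ powersetCard (r : ℕ) (dupPre C o h₀ j₀),
            (2 ^ ℓ) ^ (min (5 * k) (6 * k - 6 * r) / 6) := by
            apply sum_le_sum
            intro κ hκ
            rw [mem_powersetCard] at hκ
            refine le_trans (card_le_card ?_) (hclass h₀ j₀ κ r hκ.2)
            intro f hf
            rw [mem_filter, mem_filter] at hf
            rw [mem_filter]
            exact ⟨mem_univ _, hf.1.2.1, hf.1.2.2.1, hf.2⟩
        _ = (dupPre C o h₀ j₀).card.choose r *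
            (2 ^ ℓ) ^ (min (5 * k) (6 * k - 6 * r) / 6) := by
            rw [sum_const, card_powersetCard, smul_eq_mul]
        _ ≤ _ := Nat.mul_le_mul_right _ ((Nat.choose_le_pow _ _).trans
            (Nat.pow_le_pow_left hDm _))
    refine (Nat.pow_le_pow_left h1 6).trans ?_
    have h2 : ((2 ^ ℓ) ^ (min (5 * k) (6 * k - 6 * (r : ℕ)) / 6)) ^ 6 ≤
        (2 ^ ℓ) ^ min (5 * k) (6 * k - 6 * r) := by
      rw [← pow_mul]
      exact Nat.pow_le_pow_right (by positivity) (Nat.div_mul_le_self _ _)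
    have hrk : (r : ℕ) ≤ k := by have := r.2; omega
    rw [mul_pow]
    refine (Nat.mul_le_mul_left _ h2).trans ?_
    rw [← pow_mul]
    rcases Nat.le_total (6 * r) k with h3 | h3
    · exact Nat.mul_le_mul (Nat.pow_le_pow_right hm1 (by omega))
        (Nat.pow_le_pow_right (by positivity) (min_le_left _ _))
    · have e1 : (r : ℕ) * 6 = k + (6 * r - k) := by omega
      have e2 : min (5 * k) (6 * k - 6 * (r : ℕ)) = 6 * k - 6 * r := by omega
      have e3 : 5 * k = (6 * r - k) + (6 * k - 6 * r) := by omega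
      rw [e1, e2]
      calc m ^ (k + (6 * ↑r - k)) * (2 ^ ℓ) ^ (6 * k - 6 * ↑r)
          ≤ m ^ k * (2 ^ ℓ) ^ (6 * ↑r - k) * (2 ^ ℓ) ^ (6 * k - 6 * ↑r) := by
            rw [pow_add]
            exact Nat.mul_le_mul_right _ (Nat.mul_le_mul_left _ (Nat.pow_le_pow_left hmN _))
        _ = m ^ k * (2 ^ ℓ) ^ (5 * k) := by rw [mul_assoc, ← pow_add, ← e3]
  -- all gates
  let Φ : ↥F → Fin s × Fin s × Fin (k + 1) := fun f =>
    (h f, j f, ⟨(pick ι f.1 ∩ dupPre C o (h f) (j f)).card, by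
      have h1 : (pick ι f.1 ∩ dupPre C o (h f) (j f)).card ≤ (pick ι f.1).card :=
        card_le_card inter_subset_left
      rw [card_pick hι] at h1
      omega⟩)
  rcases F.eq_empty_or_nonempty with hF0 | hF1
  · rw [hF0, card_empty, zero_pow (by norm_num)]; exact Nat.zero_le _
  obtain ⟨f₁, hf₁⟩ := hF1
  obtain ⟨c, _, hc⟩ := exists_max_image (univ : Finset (Fin s × Fin s × Fin (k + 1)))
    (fun c => (univ.filter fun f : ↥F => Φ f = c).card) ⟨Φ ⟨f₁, hf₁⟩, mem_univ _⟩
  have h1 : F.card ≤ s ^ 2 * (k + 1) * (univ.filter fun f : ↥F => Φ f = c).card := by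
    have h2 : F.card = (univ : Finset ↥F).card := by rw [card_univ, Fintype.card_coe]
    rw [h2, card_eq_sum_card_fiberwise (f := Φ) (t := univ) fun _ _ => mem_univ _]
    calc _ ≤ ∑ _b : Fin s × Fin s × Fin (k + 1), (univ.filter fun f : ↥F => Φ f = c).card :=
          sum_le_sum fun b hb => hc b hb
      _ = _ := by
          rw [sum_const, card_univ, Fintype.card_prod, Fintype.card_prod, Fintype.card_fin,
            Fintype.card_fin, smul_eq_mul]
          ring
  have h2 : (univ.filter fun f : ↥F => Φ f = c) ⊆ univ.filter fun f : ↥F => h f = c.1 ∧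
      j f = c.2.1 ∧ (pick ι f.1 ∩ dupPre C o c.1 c.2.1).card = c.2.2 := by
    intro f hf
    rw [mem_filter] at hf
    rw [mem_filter]
    have e := hf.2
    have e1 : h f = c.1 := congrArg Prod.fst e
    have e2 : j f = c.2.1 := congrArg (fun p => p.2.1) e
    have e3 : (pick ι f.1 ∩ dupPre C o (h f) (j f)).card = (c.2.2 : ℕ) :=
      congrArg (fun p => (p.2.2 : ℕ)) e
    rw [e1, e2] at e3
    exact ⟨mem_univ _, e1, e2, e3⟩
  calc F.card ^ 6 ≤ (s ^ 2 * (k + 1) * (univ.filter fun f : ↥F => Φ f = c).card) ^ 6 :=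
        Nat.pow_le_pow_left h1 6
    _ = (s ^ 2 * (k + 1)) ^ 6 * (univ.filter fun f : ↥F => Φ f = c).card ^ 6 := mul_pow _ _ _
    _ ≤ _ := Nat.mul_le_mul_left _ ((Nat.pow_le_pow_left (card_le_card h2) 6).trans
        (hfib c.1 c.2.1 c.2.2))

end Pool.Agent.TH708.Shr
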