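import Pool.Agent.TH708.Shr.Main

/-!
# Perfect matchings and circuits whose AND gates share few inputs
-/

set_option autoImplicit false
set_option linter.unusedSectionVars false

namespace Pool.Agent.TH708.Shr.Pm

open Finset

/-- A perfect matching is an involution along edges. -/
theorem hasPM_iff {V : Type} (G : SimpleGraph V) :
    (∃ M : G.Subgraph, M.IsPerfectMatching) ↔
      ∃ f : V → V, (∀ v, f (f v) = v) ∧ ∀ v, G.Adj v (f v) := by
  constructor
  · rintro ⟨M, hM, hsp⟩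
    have h1 : ∀ v, ∃! w, M.Adj v w := fun v => hM (hsp v)
    choose f hf hu using h1
    refine ⟨f, fun v => ?_, fun v => M.adj_sub (hf v)⟩
    exact (hu (f v) v (M.symm.symm _ _ (hf v))).symm
  · rintro ⟨f, hf, hadj⟩
    refine ⟨{ verts := Set.univ
              Adj := fun u v => v = f u
              adj_sub := ?_
              edge_vert := fun _ => Set.mem_univ _
              symm := ⟨fun u v h => ?_⟩ }, ?_, ?_⟩
    · rintro u v rfl
      exact hadj u
    · show u = f v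
      rw [h, hf]
    · intro v _
      exact ⟨f v, rfl, fun w hw => hw⟩
    · intro v
      exact Set.mem_univ v

/-- The bipartite graph of a relation. -/
def bip {n : ℕ} (A : Fin n → Fin n → Prop) : SimpleGraph (Fin n ⊕ Fin n) where
  Adj x z := (∃ u v, x = Sum.inl u ∧ z = Sum.inr v ∧ A u v) ∨
    ∃ u v, z = Sum.inl u ∧ x = Sum.inr v ∧ A u v
  symm := ⟨fun x z h => h.symm⟩
  loopless := ⟨by
    rintro x (⟨u, v, h1, h2, _⟩ | ⟨u, v, h1, h2, _⟩)
    · rw [h1] at h2; cases h2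
    · rw [h1] at h2; cases h2⟩

theorem bip_adj {n : ℕ} (A : Fin n → Fin n → Prop) (u v : Fin n) :
    (bip A).Adj (Sum.inl u) (Sum.inr v) ↔ A u v := by
  constructor
  · rintro (⟨u', v', h1, h2, h3⟩ | ⟨u', v', h1, h2, _⟩)
    · cases h1; cases h2; exact h3
    · cases h1
  · intro h
    exact Or.inl ⟨u, v, rfl, rfl, h⟩

theorem bip_le {n : ℕ} (A : Fin n → Fin n → Prop) :
    bip A ≤ completeBipartiteGraph (Fin n) (Fin n) := by
  rintro x z (⟨u, v, rfl, rfl, _⟩ | ⟨u, v, rfl, rfl, _⟩) <;> simp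

/-- The pairs inside one gadget. -/
def ok (c d : Bool) (s t : Fin 3) : Prop :=
  (s = 0 ∧ t = 0 ∧ c = true) ∨ (s = 1 ∧ t = 1 ∧ d = true) ∨ (s = 0 ∧ t = 2) ∨ (s = 2 ∧ t = 0) ∨
    (s = 1 ∧ t = 2) ∨ (s = 2 ∧ t = 1)

/-- Two copies of three vertices for each index, and the remaining vertices. -/
def rel {Λ : Type} {n r : ℕ} (EL ER : (Λ × Fin 3) ⊕ Fin r ≃ Fin n) (c d : Λ → Bool)
    (u v : Fin n) : Prop :=
  (∃ i j, u = EL (Sum.inr i) ∧ v = ER (Sum.inr j)) ∨
    ∃ l s t, u = EL (Sum.inl (l, s)) ∧ v = ER (Sum.inl (l, t)) ∧ ok (c l) (d l) s t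

theorem rel_inl {Λ : Type} {n r : ℕ} (EL ER : (Λ × Fin 3) ⊕ Fin r ≃ Fin n) (c d : Λ → Bool)
    (l l' : Λ) (s t : Fin 3) : rel EL ER c d (EL (Sum.inl (l, s))) (ER (Sum.inl (l', t))) ↔
      l = l' ∧ ok (c l) (d l) s t := by
  constructor
  · rintro (⟨i, j, h1, _⟩ | ⟨l1, s1, t1, h1, h2, h3⟩)
    · have := EL.injective h1; cases this
    · have h4 := EL.injective h1
      have h5 := ER.injective h2
      simp only [Sum.inl.injEq, Prod.mk.injEq] at h4 h5
      obtain ⟨rfl, rfl⟩ := h4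
      obtain ⟨rfl, rfl⟩ := h5
      exact ⟨rfl, h3⟩
  · rintro ⟨rfl, h⟩
    exact Or.inr ⟨l, s, t, rfl, rfl, h⟩

theorem pm_iff {Λ : Type} [DecidableEq Λ] {n r : ℕ} (EL ER : (Λ × Fin 3) ⊕ Fin r ≃ Fin n)
    (c d : Λ → Bool) :
    (∃ M : (bip (rel EL ER c d)).Subgraph, M.IsPerfectMatching) ↔
      ∀ l, c l = true ∨ d l = true := by
  rw [hasPM_iff]
  constructor
  · rintro ⟨f, hf, hadj⟩ l
    by_contra hcon
    rw [not_or] at hcon
    have key : ∀ s : Fin 3, s ≠ 2 →
        f (Sum.inl (EL (Sum.inl (l, s)))) = Sum.inr (ER (Sum.inl (l, 2))) := by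
      intro s hs
      rcases hadj (Sum.inl (EL (Sum.inl (l, s)))) with ⟨u, v, h1, h2, h3⟩ | ⟨u, v, _, h2, _⟩
      · rw [h2]
        simp only [Sum.inl.injEq] at h1
        subst h1
        rcases h3 with ⟨i, j, h4, _⟩ | ⟨l1, s1, t1, h4, h5, h6⟩
        · have := EL.injective h4; cases this
        · have h7 := EL.injective h4
          simp only [Sum.inl.injEq, Prod.mk.injEq] at h7
          obtain ⟨rfl, rfl⟩ := h7
          rw [h5]
          have : t1 = 2 := by
            rcases h6 with h | h | h | h | h | h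
            · exact absurd h.2.2 hcon.1
            · exact absurd h.2.2 hcon.2
            · exact h.2
            · exact absurd h.1 hs
            · exact h.2
            · exact absurd h.1 hs
          rw [this]
      · cases h2
    have h0 := key 0 (by decide)
    have h1 := key 1 (by decide)
    have h2 : Sum.inl (EL (Sum.inl (l, 0))) = (Sum.inl (EL (Sum.inl (l, 1))) : Fin n ⊕ Fin n) := by
      rw [← hf (Sum.inl (EL (Sum.inl (l, 0)))), h0, ← h1, hf]
    simp only [Sum.inl.injEq] at h2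
    have h3 := EL.injective h2
    simp at h3
  · intro h
    let τ : Λ → Equiv.Perm (Fin 3) := fun l => if c l = true then Equiv.swap 1 2 else Equiv.swap 0 2
    let σ : Fin n ≃ Fin n :=
      (EL.symm.trans (Equiv.sumCongr (Equiv.prodCongrRight τ) (Equiv.refl (Fin r)))).trans ER
    have hσ : ∀ u, rel EL ER c d u (σ u) := by
      intro u
      obtain ⟨x, rfl⟩ := EL.surjective u
      rcases x with ⟨l, s⟩ | i
      · have h1 : σ (EL (Sum.inl (l, s))) = ER (Sum.inl (l, τ l s)) := by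
          simp [σ]
        rw [h1, rel_inl]
        refine ⟨rfl, ?_⟩
        by_cases hc : c l = true
        · have h2 : τ l = Equiv.swap 1 2 := by simp [τ, hc]
          rw [h2]
          fin_cases s <;> simp [ok, hc, Equiv.swap_apply_def]
        · have h2 : τ l = Equiv.swap 0 2 := by simp [τ, hc]
          have hd : d l = true := (h l).resolve_left hc
          rw [h2]
          fin_cases s <;> simp [ok, hd, Equiv.swap_apply_def]
      · refine Or.inl ⟨i, i, rfl, ?_⟩
        simp [σ]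
    refine ⟨Sum.elim (fun u => Sum.inr (σ u)) (fun v => Sum.inl (σ.symm v)), ?_, ?_⟩
    · rintro (u | v) <;> simp
    · rintro (u | v)
      · exact Or.inl ⟨u, σ u, rfl, rfl, hσ u⟩
      · refine Or.inr ⟨σ.symm v, v, rfl, rfl, ?_⟩
        have := hσ (σ.symm v)
        rwa [Equiv.apply_symm_apply] at this

theorem exists_equiv {α : Type} [Fintype α] {n : ℕ} (φ : α → Fin n) (hφ : Function.Injective φ) :
    ∃ E : α ⊕ Fin (n - Fintype.card α) ≃ Fin n, ∀ x, E (Sum.inl x) = φ x := by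
  classical
  have e1 := Equiv.ofInjective φ hφ
  have hcard : Fintype.card ((Set.range φ)ᶜ : Set (Fin n)) = n - Fintype.card α := by
    rw [Fintype.card_compl_set, Fintype.card_fin, Set.card_range_of_injective hφ]
  have e2 : Fin (n - Fintype.card α) ≃ ((Set.range φ)ᶜ : Set (Fin n)) :=
    (Fintype.equivFinOfCardEq hcard).symm
  refine ⟨(Equiv.sumCongr (Equiv.ofInjective φ hφ) e2).trans (Equiv.Set.sumCompl (Set.range φ)),
    fun x => ?_⟩
  simp

theorem exists_fresh {Λ : Type} [Fintype Λ] {n k : ℕ} (a : Fin k → Fin n)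
    (ha : Function.Injective a) (h : Fintype.card Λ + k ≤ n) :
    ∃ p : Λ → Fin n, Function.Injective p ∧ ∀ l i, a i ≠ p l := by
  classical
  have hcard : Fintype.card ((Set.range a)ᶜ : Set (Fin n)) = n - k := by
    rw [Fintype.card_compl_set, Fintype.card_fin, Set.card_range_of_injective ha, Fintype.card_fin]
  obtain ⟨f⟩ : Nonempty (Λ ↪ ((Set.range a)ᶜ : Set (Fin n))) := by
    apply Function.Embedding.nonempty_of_card_le
    omega
  refine ⟨fun l => (f l).1, fun x y hxy => f.injective (Subtype.ext hxy), fun l i hli => ?_⟩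
  exact (f l).2 ⟨i, hli⟩

/-- The left (or right) vertices of the gadgets. -/
theorem exists_side {k n : ℕ} (hk : 3 * k ≤ 2 * n) (a : Fin k → Fin n)
    (ha : Function.Injective a) (π : Pairing k) (hπ : 2 * Fintype.card π.Λ ≤ k) :
    ∃ E : (π.Λ × Fin 3) ⊕ Fin (n - Fintype.card (π.Λ × Fin 3)) ≃ Fin n,
      (∀ l, E (Sum.inl (l, 0)) = a (π.e l)) ∧ (∀ l, E (Sum.inl (l, 1)) = a (π.e' l)) ∧
      ∀ i, (∀ l, π.e l ≠ i) → (∀ l, π.e' l ≠ i) → ∃ j, a i = E (Sum.inr j) := by
  obtain ⟨p, hp1, hp2⟩ := exists_fresh (Λ := π.Λ) a ha (by omega)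
  let φ : π.Λ × Fin 3 → Fin n := fun x => ![a (π.e x.1), a (π.e' x.1), p x.1] x.2
  have hφ : Function.Injective φ := by
    rintro ⟨l, s⟩ ⟨l', t⟩ h
    fin_cases s <;> fin_cases t <;> simp [φ] at h ⊢
    · exact π.inj (ha h)
    · exact π.ne _ _ (ha h)
    · exact hp2 _ _ h
    · exact π.ne _ _ (ha h).symm
    · exact π.inj' (ha h)
    · exact hp2 _ _ h
    · exact hp2 _ _ h.symm
    · exact hp2 _ _ h.symm
    · exact hp1 h
  obtain ⟨E, hE⟩ := exists_equiv φ hφ
  refine ⟨E, fun l => hE (l, 0), fun l => hE (l, 1), ?_⟩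
  intro i h1 h2
  obtain ⟨x, hx⟩ := E.surjective (a i)
  rcases x with ⟨l, s⟩ | j
  · exfalso
    rw [hE] at hx
    fin_cases s <;> simp [φ] at hx
    · exact h1 l (ha hx)
    · exact h2 l (ha hx)
    · exact hp2 _ _ hx.symm
  · exact ⟨j, hx.symm⟩

open Classical in
/-- Circuits whose leaves are the tracked pairs and arbitrary functions of the other pairs. -/
theorem lower {n k s : ℕ} (hk : 3 * k ≤ 2 * n) (a b : Fin k → Fin n)
    (ha : Function.Injective a) (hb : Function.Injective b)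
    (C : Net (SimpleGraph (Fin n ⊕ Fin n)) k s) (o : Fin s)
    (hfree : ∀ g φ, C g = Kind.fn φ → ∀ G G' : SimpleGraph (Fin n ⊕ Fin n),
      (∀ u v, (∀ i, s(u, v) ≠ s(Sum.inl (a i), Sum.inr (b i))) → (G.Adj u v ↔ G'.Adj u v)) →
      (φ G ↔ φ G'))
    (hdec : ∀ G : SimpleGraph (Fin n ⊕ Fin n), G ≤ completeBipartiteGraph (Fin n) (Fin n) →
      (Val C G (fun i => decide (G.Adj (Sum.inl (a i)) (Sum.inr (b i)))) o ↔
        ∃ M : G.Subgraph, M.IsPerfectMatching))
    (m : ℕ) (hsh : SharesLe C o m) : k ≤ 2 ^ 26 * (m + Nat.log 2 s + 1) := by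
  refine size_lower hsh fun π hπ => ?_
  obtain ⟨EL, hL0, hL1, hL2⟩ := exists_side hk a ha π hπ
  obtain ⟨ER, hR0, hR1, hR2⟩ := exists_side hk b hb π hπ
  set Gr : (Fin k → Bool) → SimpleGraph (Fin n ⊕ Fin n) := fun y =>
    bip (rel EL ER (fun l => y (π.e l)) (fun l => y (π.e' l))) with hGr
  have hbits : ∀ y, π.Supp y →
      (fun i => decide ((Gr y).Adj (Sum.inl (a i)) (Sum.inr (b i)))) = y := by
    intro y hy
    funext i
    have h1 : (Gr y).Adj (Sum.inl (a i)) (Sum.inr (b i)) ↔ y i = true := by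
      rw [hGr]
      simp only [bip_adj]
      by_cases h1 : ∃ l, π.e l = i
      · obtain ⟨l, rfl⟩ := h1
        rw [← hL0, ← hR0, rel_inl]
        simp [ok]
      by_cases h2 : ∃ l, π.e' l = i
      · obtain ⟨l, rfl⟩ := h2
        rw [← hL1, ← hR1, rel_inl]
        simp [ok]
      push Not at h1 h2
      obtain ⟨j, hj⟩ := hL2 i h1 h2
      obtain ⟨j', hj'⟩ := hR2 i h1 h2
      constructor
      · intro _; exact hy i h1 h2
      · intro _; exact Or.inl ⟨j, j', hj, hj'⟩
    rw [Bool.eq_iff_iff, decide_eq_true_iff]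
    exact h1
  have hrel : ∀ (y y' : Fin k → Bool) (u v : Fin n), (∀ i, ¬(u = a i ∧ v = b i)) →
      rel EL ER (fun l => y (π.e l)) (fun l => y (π.e' l)) u v →
      rel EL ER (fun l => y' (π.e l)) (fun l => y' (π.e' l)) u v := by
    intro y y' u v hi h
    rcases h with h | ⟨l, s, t, h1, h2, h3⟩
    · exact Or.inl h
    · refine Or.inr ⟨l, s, t, h1, h2, ?_⟩
      rcases h3 with h | h | h | h | h | h
      · exfalso
        apply hi (π.e l)
        rw [h1, h2, h.1, h.2.1, hL0, hR0]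
        exact ⟨rfl, rfl⟩
      · exfalso
        apply hi (π.e' l)
        rw [h1, h2, h.1, h.2.1, hL1, hR1]
        exact ⟨rfl, rfl⟩
      · exact Or.inr (Or.inr (Or.inl h))
      · exact Or.inr (Or.inr (Or.inr (Or.inl h)))
      · exact Or.inr (Or.inr (Or.inr (Or.inr (Or.inl h))))
      · exact Or.inr (Or.inr (Or.inr (Or.inr (Or.inr h))))
  have hadj : ∀ (y y' : Fin k → Bool) (u v : Fin n ⊕ Fin n),
      (∀ i, s(u, v) ≠ s(Sum.inl (a i), Sum.inr (b i))) → (Gr y).Adj u v → (Gr y').Adj u v := by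
    intro y y' u v hi h
    rcases h with ⟨u1, v1, rfl, rfl, h⟩ | ⟨u1, v1, rfl, rfl, h⟩
    · refine Or.inl ⟨u1, v1, rfl, rfl, hrel y y' u1 v1 (fun i hi' => ?_) h⟩
      apply hi i
      rw [hi'.1, hi'.2]
    · refine Or.inr ⟨u1, v1, rfl, rfl, hrel y y' u1 v1 (fun i hi' => ?_) h⟩
      apply hi i
      rw [hi'.1, hi'.2, Sym2.eq_swap]
  have hφ : ∀ (y y' : Fin k → Bool) g φ, C g = Kind.fn φ → φ (Gr y) → φ (Gr y') := by
    intro y y' g φ hg h
    exact (hfree g φ hg (Gr y) (Gr y') fun u v hi => ⟨hadj y y' u v hi, hadj y' y u v hi⟩).1 h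
  refine ⟨Gr fun _ => true, fun y hy => ?_⟩
  have h1 : Val C (Gr fun _ => true) y o ↔ Val C (Gr y) y o :=
    ⟨fun h => h.congr (hφ (fun _ => true) y), fun h => h.congr (hφ y (fun _ => true))⟩
  have h2 := hdec (Gr y) (bip_le _)
  rw [hbits y hy] at h2
  rw [h1, h2, hGr]
  exact pm_iff EL ER _ _

end Pool.Agent.TH708.Shr.Pm
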