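import Pool.Agent.TH708.Shr.Class

/-!
# A random map splits all sets of a small family
-/

set_option autoImplicit false
set_option linter.unusedSectionVars false

namespace Pool.Agent.TH708.Shr

open Finset

theorem pow_le_four (a : ℕ) (ha : 0 < a) : (1 + a) ^ a ≤ 4 * a ^ a := by
  have ha' : (0 : ℝ) < a := by exact_mod_cast ha
  have h1 : ((1 : ℝ) + 1 / a) ^ a ≤ 4 := by
    have h2 : (1 : ℝ) + 1 / a ≤ Real.exp (1 / a) := by
      rw [add_comm]; exact Real.add_one_le_exp _
    calc ((1 : ℝ) + 1 / a) ^ a ≤ (Real.exp (1 / a)) ^ a :=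
          pow_le_pow_left₀ (by positivity) h2 a
      _ = Real.exp 1 := by
          rw [← Real.exp_nat_mul]; congr 1; field_simp
      _ ≤ 4 := by have := Real.exp_one_lt_d9; linarith
  have h3 : ((1 + a : ℕ) : ℝ) ^ a ≤ ((4 * a ^ a : ℕ) : ℝ) := by
    push_cast
    calc ((1 : ℝ) + a) ^ a = ((1 + 1 / a) * a) ^ a := by
          congr 1; field_simp; ring
      _ = (1 + 1 / (a : ℝ)) ^ a * (a : ℝ) ^ a := mul_pow _ _ _
      _ ≤ 4 * (a : ℝ) ^ a := mul_le_mul_of_nonneg_right h1 (by positivity)
  exact_mod_cast h3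

/-- The number of small subsets. -/
theorem card_Small {V : Type} [DecidableEq V] (D : Finset V) (m c w : ℕ)
    (hD : D.card = 2 ^ c * w) : (Small D m).card ≤ 4 ^ w * 2 ^ (c * m) := by
  have h1 : (Small D m).card * (2 ^ c) ^ (D.card - m) ≤ (1 + 2 ^ c) ^ D.card := by
    rw [← sum_pow_mul_eq_add_pow]
    calc (Small D m).card * (2 ^ c) ^ (D.card - m)
        = ∑ _M ∈ Small D m, (2 ^ c) ^ (D.card - m) := by rw [sum_const, smul_eq_mul]
      _ ≤ ∑ M ∈ Small D m, 1 ^ M.card * (2 ^ c) ^ (D.card - M.card) := by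
          apply sum_le_sum
          intro M hM
          rw [mem_Small] at hM
          rw [one_pow, one_mul]
          exact Nat.pow_le_pow_right (by positivity) (by omega)
      _ ≤ ∑ M ∈ D.powerset, 1 ^ M.card * (2 ^ c) ^ (D.card - M.card) :=
          sum_le_sum_of_subset (filter_subset _ _)
  have h2 : (1 + 2 ^ c) ^ D.card ≤ 4 ^ w * (2 ^ c) ^ D.card := by
    rw [hD, pow_mul, pow_mul (2 ^ c)]
    rw [← mul_pow]
    exact Nat.pow_le_pow_left (pow_le_four (2 ^ c) (by positivity)) w
  have h3 : (2 ^ c) ^ D.card ≤ (2 ^ c) ^ (D.card - m) * (2 ^ c) ^ m := by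
    rw [← pow_add]
    exact Nat.pow_le_pow_right (by positivity) (by omega)
  have h4 : (Small D m).card * (2 ^ c) ^ (D.card - m) ≤
      (4 ^ w * 2 ^ (c * m)) * (2 ^ c) ^ (D.card - m) := by
    calc (Small D m).card * (2 ^ c) ^ (D.card - m) ≤ 4 ^ w * (2 ^ c) ^ D.card := h1.trans h2
      _ ≤ 4 ^ w * ((2 ^ c) ^ (D.card - m) * (2 ^ c) ^ m) := Nat.mul_le_mul_left _ h3
      _ = (4 ^ w * 2 ^ (c * m)) * (2 ^ c) ^ (D.card - m) := by rw [pow_mul]; ring
  exact Nat.le_of_mul_le_mul_right h4 (by positivity)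

variable {N L : ℕ}

/-- The indices that share their value with another index. -/
noncomputable def coll (g : Fin N → Fin L) : Finset (Fin N) :=
  univ.filter fun i => ∃ i', i' ≠ i ∧ g i' = g i

theorem mem_coll {g : Fin N → Fin L} {i : Fin N} :
    i ∈ coll g ↔ ∃ i', i' ≠ i ∧ g i' = g i := by
  simp [coll]

theorem card_eq_pair (i i' : Fin N) (h : i' ≠ i) :
    (univ.filter fun g : Fin N → Fin L => g i' = g i).card * L ≤ L ^ N := by
  have h1 : ((univ.filter fun g : Fin N → Fin L => g i' = g i) ×ˢ (univ : Finset (Fin L))).card ≤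
      (univ : Finset (Fin N → Fin L)).card := by
    apply card_le_card_of_injOn (fun p => Function.update p.1 i p.2)
    · intro p _; simp
    · intro p hp q hq he
      rw [mem_coe, mem_product, mem_filter] at hp hq
      have e1 : p.2 = q.2 := by
        have := congrFun he i
        simpa using this
      have e2 : ∀ l, l ≠ i → p.1 l = q.1 l := by
        intro l hl
        have := congrFun he l
        simpa [Function.update_of_ne hl] using this
      refine Prod.ext ?_ e1
      funext l
      by_cases hl : l = i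
      · rw [hl, ← hp.1.2, ← hq.1.2]; exact e2 i' h
      · exact e2 l hl
  rw [card_product, card_univ, card_univ, Fintype.card_fin, Fintype.card_fun, Fintype.card_fin,
    Fintype.card_fin] at h1
  exact h1

theorem sum_coll : (∑ g : Fin N → Fin L, (coll g).card) * L ≤ N ^ 2 * L ^ N := by
  classical
  have h1 : ∀ g : Fin N → Fin L, (coll g).card ≤
      ∑ i : Fin N, ∑ i' : Fin N, if i' ≠ i ∧ g i' = g i then 1 else 0 := by
    intro g
    rw [coll, card_filter]
    apply sum_le_sum
    intro i _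
    by_cases h : ∃ i', i' ≠ i ∧ g i' = g i
    · rw [if_pos h]
      obtain ⟨i', hi'⟩ := h
      calc 1 = if i' ≠ i ∧ g i' = g i then 1 else 0 := by rw [if_pos hi']
        _ ≤ _ := single_le_sum (f := fun i' => if i' ≠ i ∧ g i' = g i then 1 else 0)
            (fun _ _ => Nat.zero_le _) (mem_univ i')
    · rw [if_neg h]; exact Nat.zero_le _
  calc (∑ g : Fin N → Fin L, (coll g).card) * L
      ≤ (∑ g : Fin N → Fin L, ∑ i : Fin N, ∑ i' : Fin N,
          if i' ≠ i ∧ g i' = g i then 1 else 0) * L :=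
        Nat.mul_le_mul_right _ (sum_le_sum fun g _ => h1 g)
    _ = ∑ i : Fin N, ∑ i' : Fin N, (∑ g : Fin N → Fin L,
          if i' ≠ i ∧ g i' = g i then 1 else 0) * L := by
        rw [sum_comm, sum_mul]
        apply sum_congr rfl
        intro i _
        rw [sum_comm, sum_mul]
    _ ≤ ∑ _i : Fin N, ∑ _i' : Fin N, L ^ N := by
        apply sum_le_sum
        intro i _
        apply sum_le_sum
        intro i' _
        by_cases h : i' = i
        · simp [h]
        · have : (∑ g : Fin N → Fin L, if i' ≠ i ∧ g i' = g i then 1 else 0) =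
              (univ.filter fun g : Fin N → Fin L => g i' = g i).card := by
            rw [card_filter]
            apply sum_congr rfl
            intro g _
            simp [h]
          rw [this]
          exact card_eq_pair i i' h
    _ = N ^ 2 * L ^ N := by
        simp [sum_const, card_univ]; ring

/-- The maps which are nearly compatible with the sets `A₁`, `A₂`. -/
noncomputable def compat (A₁ : Finset (Fin N)) (A₂ : Finset (Fin L)) (b p : ℕ) :
    Finset (Fin N → Fin L) :=
  open Classical in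
  univ.filter fun g => ∃ E : Finset (Fin N), E.card ≤ b ∧ p ≤ (A₁ \ E).card ∧
    p ≤ (A₁ᶜ \ E).card ∧ ∀ i ∉ E, (i ∈ A₁ ↔ g i ∈ A₂)

theorem two_pow_aux (x y a b p : ℕ) (ha : p ≤ a) (hb : p ≤ b) :
    x ^ a * y ^ b * 4 ^ p ≤ (x + y) ^ (a + b) := by
  obtain ⟨a', rfl⟩ := Nat.exists_eq_add_of_le ha
  obtain ⟨b', rfl⟩ := Nat.exists_eq_add_of_le hb
  have h1 : 4 * (x * y) ≤ (x + y) ^ 2 := by
    have := four_mul_le_sq_add x y
    nlinarith
  calc x ^ (p + a') * y ^ (p + b') * 4 ^ p = (4 * (x * y)) ^ p * (x ^ a' * y ^ b') := by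
        rw [pow_add, pow_add, mul_pow, mul_pow]; ring
    _ ≤ ((x + y) ^ 2) ^ p * ((x + y) ^ a' * (x + y) ^ b') :=
        Nat.mul_le_mul (Nat.pow_le_pow_left h1 p)
          (Nat.mul_le_mul (Nat.pow_le_pow_left (by omega) _) (Nat.pow_le_pow_left (by omega) _))
    _ = (x + y) ^ (p + a' + (p + b')) := by
        rw [← pow_mul, ← pow_add, ← pow_add]; congr 1; ring

theorem card_compat (A₁ : Finset (Fin N)) (A₂ : Finset (Fin L)) (b p : ℕ) :
    (compat A₁ A₂ b p).card * 4 ^ p ≤ (Small (univ : Finset (Fin N)) b).card * L ^ N := by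
  classical
  have h1 : compat A₁ A₂ b p ⊆ ((Small (univ : Finset (Fin N)) b).filter fun E =>
      p ≤ (A₁ \ E).card ∧ p ≤ (A₁ᶜ \ E).card).biUnion fun E =>
        Fintype.piFinset fun i => if i ∈ E then univ else if i ∈ A₁ then A₂ else A₂ᶜ := by
    intro g hg
    rw [compat, mem_filter] at hg
    obtain ⟨_, E, h2, h3, h4, h5⟩ := hg
    rw [mem_biUnion]
    refine ⟨E, ?_, ?_⟩
    · rw [mem_filter, mem_Small]
      exact ⟨⟨subset_univ _, h2⟩, h3, h4⟩
    · rw [Fintype.mem_piFinset]
      intro i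
      by_cases hi : i ∈ E
      · simp [hi]
      · have := h5 i hi
        by_cases hA : i ∈ A₁
        · simp only [hi, hA, if_false, if_true]
          exact this.1 hA
        · simp only [hi, hA, if_false, mem_compl]
          exact fun h => hA (this.2 h)
  have h2 : ∀ E ∈ ((Small (univ : Finset (Fin N)) b).filter fun E =>
      p ≤ (A₁ \ E).card ∧ p ≤ (A₁ᶜ \ E).card),
      (Fintype.piFinset fun i => if i ∈ E then (univ : Finset (Fin L)) else
        if i ∈ A₁ then A₂ else A₂ᶜ).card * 4 ^ p ≤ L ^ N := by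
    intro E hE
    rw [mem_filter] at hE
    rw [Fintype.card_piFinset]
    have h3 : (∏ i : Fin N, (if i ∈ E then (univ : Finset (Fin L)) else
        if i ∈ A₁ then A₂ else A₂ᶜ).card) =
        L ^ E.card * (A₂.card ^ (A₁ \ E).card * (L - A₂.card) ^ (A₁ᶜ \ E).card) := by
      have hE1 : (univ : Finset (Fin N)) = E ∪ ((A₁ \ E) ∪ (A₁ᶜ \ E)) := by
        ext i; simp only [mem_univ, mem_union, mem_sdiff, mem_compl, true_iff]; tauto
      rw [hE1, prod_union, prod_union]
      · rw [prod_congr rfl (g := fun _ => L) (fun i hi => by simp [hi]),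
          prod_congr (s₁ := A₁ \ E) rfl (g := fun _ => A₂.card)
            (fun i hi => by rw [mem_sdiff] at hi; simp [hi.1, hi.2]),
          prod_congr (s₁ := A₁ᶜ \ E) rfl (g := fun _ => L - A₂.card)
            (fun i hi => by
              rw [mem_sdiff, mem_compl] at hi; simp [hi.1, hi.2, card_compl])]
        rw [prod_const, prod_const, prod_const]
      · rw [disjoint_left]; intro i hi hi'
        rw [mem_sdiff] at hi hi'; exact (mem_compl.1 hi'.1) hi.1
      · rw [disjoint_left]; intro i hi hi'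
        rw [mem_union, mem_sdiff, mem_sdiff] at hi'
        rcases hi' with h | h <;> exact h.2 hi
    rw [h3]
    have h4 : A₂.card + (L - A₂.card) = L := by
      have := card_le_univ A₂
      rw [Fintype.card_fin] at this
      omega
    have h5 := two_pow_aux A₂.card (L - A₂.card) (A₁ \ E).card (A₁ᶜ \ E).card p hE.2.1 hE.2.2
    rw [h4] at h5
    have h6 : E.card + ((A₁ \ E).card + (A₁ᶜ \ E).card) = N := by
      have h7 : (A₁ \ E) ∪ (A₁ᶜ \ E) = Eᶜ := by
        ext i; simp only [mem_union, mem_sdiff, mem_compl]; tauto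
      have h8 : Disjoint (A₁ \ E) (A₁ᶜ \ E) := by
        rw [disjoint_left]; intro i hi hi'
        rw [mem_sdiff] at hi hi'; exact (mem_compl.1 hi'.1) hi.1
      rw [← card_union_of_disjoint h8, h7, card_compl, Fintype.card_fin]
      have := card_le_univ E
      rw [Fintype.card_fin] at this
      omega
    calc L ^ E.card * (A₂.card ^ (A₁ \ E).card * (L - A₂.card) ^ (A₁ᶜ \ E).card) * 4 ^ p
        = L ^ E.card * (A₂.card ^ (A₁ \ E).card * (L - A₂.card) ^ (A₁ᶜ \ E).card * 4 ^ p) := by
          ring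
      _ ≤ L ^ E.card * L ^ ((A₁ \ E).card + (A₁ᶜ \ E).card) := Nat.mul_le_mul_left _ h5
      _ = L ^ N := by rw [← pow_add, h6]
  calc (compat A₁ A₂ b p).card * 4 ^ p
      ≤ (((Small (univ : Finset (Fin N)) b).filter fun E =>
          p ≤ (A₁ \ E).card ∧ p ≤ (A₁ᶜ \ E).card).biUnion fun E =>
          Fintype.piFinset fun i => if i ∈ E then univ else if i ∈ A₁ then A₂ else A₂ᶜ).card *
          4 ^ p := Nat.mul_le_mul_right _ (card_le_card h1)
    _ ≤ (∑ E ∈ ((Small (univ : Finset (Fin N)) b).filter fun E =>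
          p ≤ (A₁ \ E).card ∧ p ≤ (A₁ᶜ \ E).card),
          (Fintype.piFinset fun i => if i ∈ E then (univ : Finset (Fin L)) else
            if i ∈ A₁ then A₂ else A₂ᶜ).card) * 4 ^ p :=
        Nat.mul_le_mul_right _ card_biUnion_le
    _ ≤ ∑ _E ∈ ((Small (univ : Finset (Fin N)) b).filter fun E =>
          p ≤ (A₁ \ E).card ∧ p ≤ (A₁ᶜ \ E).card), L ^ N := by
        rw [sum_mul]; exact sum_le_sum h2
    _ ≤ ∑ _E ∈ (Small (univ : Finset (Fin N)) b), L ^ N :=
        sum_le_sum_of_subset (filter_subset _ _)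
    _ = (Small (univ : Finset (Fin N)) b).card * L ^ N := by rw [sum_const, smul_eq_mul]

/-- **The random map.** -/
theorem exists_map (r : ℕ) (hr : 1 ≤ r) (hN : N = 128 * r) (hL : 512 * N ≤ L)
    {ι : Type} [Fintype ι] (hι : Fintype.card ι ≤ 2 ^ r)
    (A₁ : ι → Finset (Fin N)) (A₂ : ι → Finset (Fin L)) :
    ∃ g : Fin N → Fin L, (coll g).card < r ∧ ∀ a, g ∉ compat (A₁ a) (A₂ a) (2 * r) (20 * r) := by
  classical
  by_contra hcon
  push Not at hcon
  have hLpos : 0 < L := by omega
  have hcov : (univ : Finset (Fin N → Fin L)) ⊆ (univ.filter fun g => r ≤ (coll g).card) ∪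
      (univ : Finset ι).biUnion fun a => compat (A₁ a) (A₂ a) (2 * r) (20 * r) := by
    intro g _
    rw [mem_union, mem_filter, mem_biUnion]
    by_cases h : (coll g).card < r
    · obtain ⟨a, ha⟩ := hcon g h
      exact Or.inr ⟨a, mem_univ _, ha⟩
    · exact Or.inl ⟨mem_univ _, by omega⟩
  have h1 := (card_le_card hcov).trans (card_union_le _ _)
  rw [card_univ, Fintype.card_fun, Fintype.card_fin, Fintype.card_fin] at h1
  -- collisions
  have h2 : 4 * (univ.filter fun g : Fin N → Fin L => r ≤ (coll g).card).card ≤ L ^ N := by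
    have h3 : (univ.filter fun g : Fin N → Fin L => r ≤ (coll g).card).card * r ≤
        ∑ g : Fin N → Fin L, (coll g).card := by
      calc (univ.filter fun g : Fin N → Fin L => r ≤ (coll g).card).card * r
          = ∑ _g ∈ (univ.filter fun g : Fin N → Fin L => r ≤ (coll g).card), r := by
            rw [sum_const, smul_eq_mul]
        _ ≤ ∑ g ∈ (univ.filter fun g : Fin N → Fin L => r ≤ (coll g).card), (coll g).card :=
            sum_le_sum fun g hg => (mem_filter.1 hg).2
        _ ≤ _ := sum_le_sum_of_subset (filter_subset _ _)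
    have h4 := sum_coll (N := N) (L := L)
    have h5 : (univ.filter fun g : Fin N → Fin L => r ≤ (coll g).card).card * r * (512 * N) ≤
        N ^ 2 * L ^ N := by
      calc _ ≤ (univ.filter fun g : Fin N → Fin L => r ≤ (coll g).card).card * r * L :=
            Nat.mul_le_mul_left _ hL
        _ ≤ (∑ g : Fin N → Fin L, (coll g).card) * L := Nat.mul_le_mul_right _ h3
        _ ≤ _ := h4
    have h6 : (4 * (univ.filter fun g : Fin N → Fin L => r ≤ (coll g).card).card) *
        (128 * r * N) ≤ L ^ N * (128 * r * N) := by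
      calc _ = (univ.filter fun g : Fin N → Fin L => r ≤ (coll g).card).card * r * (512 * N) := by
            ring
        _ ≤ N ^ 2 * L ^ N := h5
        _ = L ^ N * (128 * r * N) := by rw [← hN]; ring
    exact Nat.le_of_mul_le_mul_right h6 (by
      have : 0 < N := by omega
      positivity)
  -- compatible maps
  have h3 : 4 * ((univ : Finset ι).biUnion fun a =>
      compat (A₁ a) (A₂ a) (2 * r) (20 * r)).card ≤ L ^ N := by
    have h4 : ((univ : Finset ι).biUnion fun a =>
        compat (A₁ a) (A₂ a) (2 * r) (20 * r)).card * 4 ^ (20 * r) ≤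
        2 ^ r * (2 ^ (16 * r) * L ^ N) := by
      calc _ ≤ (∑ a : ι, (compat (A₁ a) (A₂ a) (2 * r) (20 * r)).card) * 4 ^ (20 * r) :=
            Nat.mul_le_mul_right _ card_biUnion_le
        _ = ∑ a : ι, (compat (A₁ a) (A₂ a) (2 * r) (20 * r)).card * 4 ^ (20 * r) := sum_mul _ _ _
        _ ≤ ∑ _a : ι, 2 ^ (16 * r) * L ^ N := by
            apply sum_le_sum
            intro a _
            refine (card_compat (A₁ a) (A₂ a) (2 * r) (20 * r)).trans (Nat.mul_le_mul_right _ ?_)
            have h5 := card_Small (univ : Finset (Fin N)) (2 * r) 6 (2 * r)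
              (by rw [card_univ, Fintype.card_fin, hN]; ring)
            refine h5.trans (le_of_eq ?_)
            have : (4 : ℕ) = 2 ^ 2 := by norm_num
            rw [this, ← pow_mul, ← pow_add]
            congr 1; ring
        _ = Fintype.card ι * (2 ^ (16 * r) * L ^ N) := by rw [sum_const, smul_eq_mul, card_univ]
        _ ≤ _ := Nat.mul_le_mul_right _ hι
    have h5 : (4 : ℕ) ^ (20 * r) = 2 ^ r * 2 ^ (16 * r) * 2 ^ (23 * r) := by
      have : (4 : ℕ) = 2 ^ 2 := by norm_num
      rw [this, ← pow_mul, ← pow_add, ← pow_add]; congr 1; ring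
    rw [h5] at h4
    have h6 : ((univ : Finset ι).biUnion fun a =>
        compat (A₁ a) (A₂ a) (2 * r) (20 * r)).card * 2 ^ (23 * r) * (2 ^ r * 2 ^ (16 * r)) ≤
        L ^ N * (2 ^ r * 2 ^ (16 * r)) := by
      calc _ = ((univ : Finset ι).biUnion fun a =>
            compat (A₁ a) (A₂ a) (2 * r) (20 * r)).card * (2 ^ r * 2 ^ (16 * r) * 2 ^ (23 * r)) := by
            ring
        _ ≤ _ := h4
        _ = _ := by ring
    have h7 := Nat.le_of_mul_le_mul_right h6 (by positivity)
    have h8 : 4 ≤ 2 ^ (23 * r) := by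
      calc 4 = 2 ^ 2 := by norm_num
        _ ≤ 2 ^ (23 * r) := Nat.pow_le_pow_right (by norm_num) (by omega)
    calc 4 * _ ≤ 2 ^ (23 * r) * _ := Nat.mul_le_mul_right _ h8
      _ = _ * 2 ^ (23 * r) := mul_comm _ _
      _ ≤ _ := h7
  have h9 : 0 < L ^ N := by positivity
  omega

end Pool.Agent.TH708.Shr
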