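import Pool.Agent.TH708.Shr.Main

/-!
# Circuits of fan-in two: the size is at most exponential in the depth
-/

set_option autoImplicit false
set_option linter.unusedSectionVars false

namespace Pool.Agent.TH708.Shr

open Finset

variable {X : Type} {k s : ℕ}

/-- The inputs of a node. -/
def inputs (C : Net X k s) (g : Fin s) : Finset (Fin s) :=
  match C g with
  | Kind.and l => l
  | Kind.or l => l
  | _ => ∅

/-- The nodes which are reached from `o` in exactly `j` steps. -/
def levelSet (C : Net X k s) (o : Fin s) : ℕ → Finset (Fin s)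
  | 0 => {o}
  | j + 1 => (levelSet C o j).biUnion (inputs C)

/-- A circuit of fan-in at most two and depth `dep o` without superfluous nodes has less than
`2 ^ (dep o + 1)` nodes. -/
theorem size_lt_of_depth {C : Net X k s} {o : Fin s} (dep : Fin s → ℕ)
    (hand : ∀ g l, C g = Kind.and l → l.card ≤ 2 ∧ ∀ a ∈ l, dep a < dep g)
    (hor : ∀ g l, C g = Kind.or l → l.card ≤ 2 ∧ ∀ a ∈ l, dep a < dep g)
    (hreach : ∀ g, ∃ M, Walk C o g M) : s < 2 ^ (dep o + 1) := by
  have hin : ∀ g, (inputs C g).card ≤ 2 ∧ ∀ a ∈ inputs C g, dep a < dep g := by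
    intro g
    unfold inputs
    split
    · next l h => exact hand g l h
    · next l h => exact hor g l h
    · exact ⟨by simp, by simp⟩
  have hcard : ∀ j, (levelSet C o j).card ≤ 2 ^ j := by
    intro j
    induction j with
    | zero => simp [levelSet]
    | succ j ih =>
      refine card_biUnion_le.trans ?_
      refine (sum_le_card_nsmul _ _ 2 fun g _ => (hin g).1).trans ?_
      rw [smul_eq_mul, pow_succ]
      exact Nat.mul_le_mul_right _ ih
  have hdep : ∀ j, ∀ g ∈ levelSet C o j, dep g + j ≤ dep o := by
    intro j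
    induction j with
    | zero => intro g hg; rw [levelSet, mem_singleton] at hg; rw [hg]; rfl
    | succ j ih =>
      intro g hg
      rw [levelSet, mem_biUnion] at hg
      obtain ⟨h, h1, h2⟩ := hg
      have h3 := ih h h1
      have h4 := (hin h).2 g h2
      omega
  have hw : ∀ g M, Walk C o g M → ∃ j, g ∈ levelSet C o j := by
    intro g M h
    induction h with
    | start => exact ⟨0, by simp [levelSet]⟩
    | and g M l a _ h1 h2 ih =>
      obtain ⟨j, hj⟩ := ih
      refine ⟨j + 1, ?_⟩
      rw [levelSet, mem_biUnion]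
      exact ⟨g, hj, by simp only [inputs, h1]; exact h2⟩
    | or g M l a _ h1 h2 ih =>
      obtain ⟨j, hj⟩ := ih
      refine ⟨j + 1, ?_⟩
      rw [levelSet, mem_biUnion]
      exact ⟨g, hj, by simp only [inputs, h1]; exact h2⟩
  have hsub : (univ : Finset (Fin s)) ⊆ (range (dep o + 1)).biUnion (levelSet C o) := by
    intro g _
    obtain ⟨M, hM⟩ := hreach g
    obtain ⟨j, hj⟩ := hw g M hM
    rw [mem_biUnion]
    have := hdep j g hj
    exact ⟨j, by rw [mem_range]; omega, hj⟩
  have h1 := card_le_card hsub
  rw [card_univ, Fintype.card_fin] at h1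
  have h2 : ∑ j ∈ range (dep o + 1), 2 ^ j < 2 ^ (dep o + 1) := by
    have h3 := Nat.geomSum_eq (m := 2) le_rfl (dep o + 1)
    have h4 : 1 ≤ 2 ^ (dep o + 1) := Nat.one_le_two_pow
    simp only [Nat.reduceSub, Nat.div_one] at h3
    omega
  exact lt_of_le_of_lt (h1.trans (card_biUnion_le.trans (sum_le_sum fun j _ => hcard j))) h2

end Pool.Agent.TH708.Shr
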