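import Pool.Agent.TH708.Shr.Main

/-!
# Vertex covers: narrow circuits with little sharing, shallow circuits with much sharing
-/

set_option autoImplicit false
set_option linter.unusedSectionVars false

namespace Pool.Agent.TH708.Shr.Vc

open Finset

variable {k : ℕ}

/-- The set given by the bits `y` is a vertex cover of the graph. -/
def Covers (G : SimpleGraph (Fin k)) (y : Fin k → Bool) : Prop :=
  ∀ i j, G.Adj i j → y i = true ∨ y j = true

/-- The graph whose edges are the pairs. -/
def pairGraph (π : Pairing k) : SimpleGraph (Fin k) where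
  Adj i j := ∃ a, (i = π.e a ∧ j = π.e' a) ∨ (i = π.e' a ∧ j = π.e a)
  symm := ⟨fun i j ⟨a, h⟩ => ⟨a, h.symm.imp And.symm And.symm⟩⟩
  loopless := ⟨by
    rintro i ⟨a, ⟨h1, h2⟩ | ⟨h1, h2⟩⟩
    · exact π.ne a a (h1.symm.trans h2)
    · exact π.ne a a (h2.symm.trans h1)⟩

theorem covers_pairGraph (π : Pairing k) (y : Fin k → Bool) :
    Covers (pairGraph π) y ↔ ∀ a, y (π.e a) = true ∨ y (π.e' a) = true := by
  constructor
  · intro h a
    exact h _ _ ⟨a, Or.inl ⟨rfl, rfl⟩⟩
  · rintro h i j ⟨a, ⟨rfl, rfl⟩ | ⟨rfl, rfl⟩⟩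
    · exact h a
    · exact (h a).symm

theorem lower {s : ℕ} (C : Net (SimpleGraph (Fin k)) k s) (o : Fin s)
    (hdec : ∀ G (y : Fin k → Bool), (Val C G y o ↔ Covers G y))
    (m : ℕ) (hsh : SharesLe C o m) : k ≤ 2 ^ 26 * (m + Nat.log 2 s + 1) :=
  size_lower hsh fun π _ => ⟨pairGraph π, fun y _ => (hdec _ y).trans (covers_pairGraph π y)⟩

/-! ## Inversion -/

section inv

variable {X : Type} {s : ℕ} {C : Net X k s} {x : X} {y : Fin k → Bool} {g : Fin s}

theorem val_lit {i : Fin k} {b : Bool} (h : C g = Kind.lit i b) : Val C x y g ↔ y i = b := by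
  constructor
  · intro hv
    cases hv with
    | lit g i' b' h1 h2 => rw [h] at h1; cases h1; exact h2
    | fn g φ h1 h2 => rw [h] at h1; cases h1
    | and g l h1 h2 => rw [h] at h1; cases h1
    | or g l a h1 h2 h3 => rw [h] at h1; cases h1
  · exact Val.lit g i b h

theorem val_fn {φ : X → Prop} (h : C g = Kind.fn φ) : Val C x y g ↔ φ x := by
  constructor
  · intro hv
    cases hv with
    | lit g i' b' h1 h2 => rw [h] at h1; cases h1
    | fn g φ h1 h2 => rw [h] at h1; cases h1; exact h2
    | and g l h1 h2 => rw [h] at h1; cases h1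
    | or g l a h1 h2 h3 => rw [h] at h1; cases h1
  · exact Val.fn g φ h

theorem val_and {l : Finset (Fin s)} (h : C g = Kind.and l) :
    Val C x y g ↔ ∀ a ∈ l, Val C x y a := by
  constructor
  · intro hv
    cases hv with
    | lit g i' b' h1 h2 => rw [h] at h1; cases h1
    | fn g φ h1 h2 => rw [h] at h1; cases h1
    | and g l h1 h2 => rw [h] at h1; cases h1; exact h2
    | or g l a h1 h2 h3 => rw [h] at h1; cases h1
  · exact Val.and g l h

theorem val_or {l : Finset (Fin s)} (h : C g = Kind.or l) :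
    Val C x y g ↔ ∃ a ∈ l, Val C x y a := by
  constructor
  · intro hv
    cases hv with
    | lit g i' b' h1 h2 => rw [h] at h1; cases h1
    | fn g φ h1 h2 => rw [h] at h1; cases h1
    | and g l h1 h2 => rw [h] at h1; cases h1
    | or g l a h1 h2 h3 => rw [h] at h1; cases h1; exact ⟨a, h2, h3⟩
  · rintro ⟨a, ha, hv⟩
    exact Val.or g l a h ha hv

theorem reads_lit {i j : Fin k} {b : Bool} (h : C g = Kind.lit i b) (hr : Reads C j g) :
    j = i := by
  cases hr with
  | lit g b' h1 => rw [h] at h1; cases h1; rfl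
  | and g l a h1 h2 h3 => rw [h] at h1; cases h1
  | or g l a h1 h2 h3 => rw [h] at h1; cases h1

theorem reads_fn {j : Fin k} {φ : X → Prop} (h : C g = Kind.fn φ) : ¬ Reads C j g := by
  intro hr
  cases hr with
  | lit g b' h1 => rw [h] at h1; cases h1
  | and g l a h1 h2 h3 => rw [h] at h1; cases h1
  | or g l a h1 h2 h3 => rw [h] at h1; cases h1

theorem reads_or {j : Fin k} {l : Finset (Fin s)} (h : C g = Kind.or l) (hr : Reads C j g) :
    ∃ a ∈ l, Reads C j a := by
  cases hr with
  | lit g b' h1 => rw [h] at h1; cases h1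
  | and g l a h1 h2 h3 => rw [h] at h1; cases h1
  | or g l a h1 h2 h3 => rw [h] at h1; cases h1; exact ⟨a, h2, h3⟩

end inv

/-! ## The narrow circuit -/

/-- The nodes of the narrow circuit: six for each ordered pair of vertices. -/
def nd (t : Fin (k * k)) (r : Fin 6) : Fin (k * k * 6) := finProdFinEquiv (t, r)

theorem nd_val (t : Fin (k * k)) (r : Fin 6) : (nd t r : ℕ) = r + 6 * t := rfl

/-- The first vertex of the pair with number `t`. -/
def p1 (t : Fin (k * k)) : Fin k := (finProdFinEquiv.symm t).1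

/-- The second vertex of the pair with number `t`. -/
def p2 (t : Fin (k * k)) : Fin k := (finProdFinEquiv.symm t).2

/-- The inputs of the AND gate with number `t`. -/
def ins (t : Fin (k * k)) : Finset (Fin (k * k * 6)) :=
  if h : (t : ℕ) = 0 then {nd t 4} else {nd t 4, nd ⟨t - 1, by omega⟩ 5}

/-- The narrow circuit: one pair of vertices after the other. -/
def narrow : Net (SimpleGraph (Fin k)) k (k * k * 6) := fun g =>
  ![Kind.lit (p1 (finProdFinEquiv.symm g).1) true,
    Kind.lit (p2 (finProdFinEquiv.symm g).1) true,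
    Kind.fn fun G => ¬ G.Adj (p1 (finProdFinEquiv.symm g).1) (p2 (finProdFinEquiv.symm g).1),
    Kind.or {nd (finProdFinEquiv.symm g).1 0, nd (finProdFinEquiv.symm g).1 1},
    Kind.or {nd (finProdFinEquiv.symm g).1 2, nd (finProdFinEquiv.symm g).1 3},
    Kind.and (ins (finProdFinEquiv.symm g).1)] (finProdFinEquiv.symm g).2

theorem symm_nd (t : Fin (k * k)) (r : Fin 6) : finProdFinEquiv.symm (nd t r) = (t, r) := by
  unfold nd
  exact Equiv.symm_apply_apply _ _

theorem narrow0 (t : Fin (k * k)) : narrow (nd t 0) = Kind.lit (p1 t) true := by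
  unfold narrow; rw [symm_nd]; rfl

theorem narrow1 (t : Fin (k * k)) : narrow (nd t 1) = Kind.lit (p2 t) true := by
  unfold narrow; rw [symm_nd]; rfl

theorem narrow2 (t : Fin (k * k)) :
    narrow (nd t 2) = Kind.fn fun G => ¬ G.Adj (p1 t) (p2 t) := by
  unfold narrow; rw [symm_nd]; rfl

theorem narrow3 (t : Fin (k * k)) : narrow (nd t 3) = Kind.or {nd t 0, nd t 1} := by
  unfold narrow; rw [symm_nd]; rfl

theorem narrow4 (t : Fin (k * k)) : narrow (nd t 4) = Kind.or {nd t 2, nd t 3} := by
  unfold narrow; rw [symm_nd]; rfl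

theorem narrow5 (t : Fin (k * k)) : narrow (nd t 5) = Kind.and (ins t) := by
  unfold narrow; rw [symm_nd]; rfl

theorem exists_nd (g : Fin (k * k * 6)) : ∃ t r, g = nd t r :=
  ⟨(finProdFinEquiv.symm g).1, (finProdFinEquiv.symm g).2, by
    unfold nd; exact (Equiv.apply_symm_apply _ _).symm⟩

variable (G : SimpleGraph (Fin k)) (y : Fin k → Bool)

theorem val4 (t : Fin (k * k)) : Val narrow G y (nd t 4) ↔
    (G.Adj (p1 t) (p2 t) → y (p1 t) = true ∨ y (p2 t) = true) := by
  rw [val_or (narrow4 t)]
  simp only [mem_insert, mem_singleton, exists_eq_or_imp, exists_eq_left]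
  rw [val_fn (narrow2 t), val_or (narrow3 t)]
  simp only [mem_insert, mem_singleton, exists_eq_or_imp, exists_eq_left]
  rw [val_lit (narrow0 t), val_lit (narrow1 t)]
  tauto

theorem val5 : ∀ (n : ℕ) (t : Fin (k * k)), (t : ℕ) = n → (Val narrow G y (nd t 5) ↔
    ∀ t' : Fin (k * k), (t' : ℕ) ≤ t →
      G.Adj (p1 t') (p2 t') → y (p1 t') = true ∨ y (p2 t') = true) := by
  intro n
  induction n with
  | zero =>
    intro t ht
    have hins : ins t = {nd t 4} := by unfold ins; rw [dif_pos ht]
    rw [val_and (narrow5 t), hins]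
    simp only [mem_singleton, forall_eq]
    rw [val4]
    constructor
    · intro h t' ht'
      have : t' = t := Fin.ext (by omega)
      rw [this]; exact h
    · intro h; exact h t le_rfl
  | succ n ih =>
    intro t ht
    have h0 : ¬ (t : ℕ) = 0 := by omega
    have hins : ins t = {nd t 4, nd ⟨t - 1, by omega⟩ 5} := by unfold ins; rw [dif_neg h0]
    rw [val_and (narrow5 t), hins]
    simp only [mem_insert, mem_singleton, forall_eq_or_imp, forall_eq]
    rw [val4, ih ⟨t - 1, by omega⟩ (by simp only; omega)]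
    constructor
    · rintro ⟨h1, h2⟩ t' ht'
      by_cases he : t' = t
      · rw [he]; exact h1
      · have : (t' : ℕ) ≠ t := fun h => he (Fin.ext h)
        exact h2 t' (by simp only; omega)
    · intro h
      refine ⟨h t le_rfl, fun t' ht' => h t' ?_⟩
      simp only at ht'
      omega

theorem reads4 {t : Fin (k * k)} {i : Fin k} (h : Reads (narrow (k := k)) i (nd t 4)) :
    i = p1 t ∨ i = p2 t := by
  obtain ⟨a, ha, h1⟩ := reads_or (narrow4 t) h
  rw [mem_insert, mem_singleton] at ha
  rcases ha with rfl | rfl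
  · exact absurd h1 (reads_fn (narrow2 t))
  · obtain ⟨b, hb, h2⟩ := reads_or (narrow3 t) h1
    rw [mem_insert, mem_singleton] at hb
    rcases hb with rfl | rfl
    · exact Or.inl (reads_lit (narrow0 t) h2)
    · exact Or.inr (reads_lit (narrow1 t) h2)

theorem ins_card (t : Fin (k * k)) : (ins t).card ≤ 2 := by
  unfold ins
  split_ifs
  · simp
  · exact card_le_two

theorem ins_mem {t : Fin (k * k)} {a : Fin (k * k * 6)} (h : a ∈ ins t) :
    a = nd t 4 ∨ (a : ℕ) + 6 = nd t 5 := by
  unfold ins at h
  split_ifs at h with h0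
  · rw [mem_singleton] at h; exact Or.inl h
  · rw [mem_insert, mem_singleton] at h
    rcases h with h | h
    · exact Or.inl h
    · right
      rw [h, nd_val, nd_val]
      simp only
      omega

theorem upper (hk : 1 ≤ k) : ∃ (C : Net (SimpleGraph (Fin k)) k (k * k * 6))
    (o : Fin (k * k * 6)),
    (∀ G y, Val C G y o ↔ Covers G y) ∧
    (∀ g φ, C g = Kind.fn φ → ∃ i j, φ = fun G => ¬ G.Adj i j) ∧
    (∀ g l, (C g = Kind.and l ∨ C g = Kind.or l) →
      l.card ≤ 2 ∧ ∀ a ∈ l, a < g ∧ (g : ℕ) ≤ a + 6) ∧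
    ∀ g, (shared C g).ncard ≤ 2 := by
  have hkk : 0 < k * k := Nat.mul_pos hk hk
  refine ⟨narrow, nd ⟨k * k - 1, by omega⟩ 5, ?_, ?_, ?_, ?_⟩
  · intro G y
    rw [val5 G y (k * k - 1) _ rfl]
    constructor
    · intro h i j hij
      have h1 := h (finProdFinEquiv (i, j)) (by
        have := (finProdFinEquiv (i, j)).2
        simp only
        omega)
      have h2 : p1 (finProdFinEquiv (i, j)) = i := by unfold p1; rw [Equiv.symm_apply_apply]
      have h3 : p2 (finProdFinEquiv (i, j)) = j := by unfold p2; rw [Equiv.symm_apply_apply]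
      rw [h2, h3] at h1
      exact h1 hij
    · intro h t' _ hadj
      exact h _ _ hadj
  · intro g φ hg
    obtain ⟨t, r, rfl⟩ := exists_nd g
    fin_cases r
    · rw [show nd t ((fun i => i) ⟨0, by omega⟩) = nd t 0 from rfl, narrow0] at hg; cases hg
    · rw [show nd t ((fun i => i) ⟨1, by omega⟩) = nd t 1 from rfl, narrow1] at hg; cases hg
    · rw [show nd t ((fun i => i) ⟨2, by omega⟩) = nd t 2 from rfl, narrow2] at hg
      cases hg
      exact ⟨_, _, rfl⟩
    · rw [show nd t ((fun i => i) ⟨3, by omega⟩) = nd t 3 from rfl, narrow3] at hg; cases hg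
    · rw [show nd t ((fun i => i) ⟨4, by omega⟩) = nd t 4 from rfl, narrow4] at hg; cases hg
    · rw [show nd t ((fun i => i) ⟨5, by omega⟩) = nd t 5 from rfl, narrow5] at hg; cases hg
  · intro g l hg
    obtain ⟨t, r, rfl⟩ := exists_nd g
    fin_cases r
    · rw [show nd t ((fun i => i) ⟨0, by omega⟩) = nd t 0 from rfl, narrow0] at hg
      rcases hg with hg | hg <;> cases hg
    · rw [show nd t ((fun i => i) ⟨1, by omega⟩) = nd t 1 from rfl, narrow1] at hg
      rcases hg with hg | hg <;> cases hg
    · rw [show nd t ((fun i => i) ⟨2, by omega⟩) = nd t 2 from rfl, narrow2] at hg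
      rcases hg with hg | hg <;> cases hg
    · rw [show nd t ((fun i => i) ⟨3, by omega⟩) = nd t 3 from rfl, narrow3] at hg
      rcases hg with hg | hg
      · cases hg
      · cases hg
        refine ⟨card_le_two, fun a ha => ?_⟩
        rw [mem_insert, mem_singleton] at ha
        rw [show nd t ((fun i => i) ⟨3, by omega⟩) = nd t 3 from rfl, Fin.lt_def, nd_val]
        rcases ha with rfl | rfl <;> rw [nd_val] <;> simp <;> omega
    · rw [show nd t ((fun i => i) ⟨4, by omega⟩) = nd t 4 from rfl, narrow4] at hg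
      rcases hg with hg | hg
      · cases hg
      · cases hg
        refine ⟨card_le_two, fun a ha => ?_⟩
        rw [mem_insert, mem_singleton] at ha
        rw [show nd t ((fun i => i) ⟨4, by omega⟩) = nd t 4 from rfl, Fin.lt_def, nd_val]
        rcases ha with rfl | rfl <;> rw [nd_val] <;> simp <;> omega
    · rw [show nd t ((fun i => i) ⟨5, by omega⟩) = nd t 5 from rfl, narrow5] at hg
      rcases hg with hg | hg
      · cases hg
        refine ⟨ins_card t, fun a ha => ?_⟩
        rw [show nd t ((fun i => i) ⟨5, by omega⟩) = nd t 5 from rfl, Fin.lt_def]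
        rcases ins_mem ha with rfl | h
        · rw [nd_val, nd_val]; simp; omega
        · omega
      · cases hg
  · intro g
    by_cases hne : (shared (narrow (k := k)) g).Nonempty
    · obtain ⟨i₀, l₀, h₀, _⟩ := hne
      obtain ⟨t, r, rfl⟩ := exists_nd g
      have hr : r = 5 := by
        fin_cases r
        · rw [show nd t ((fun i => i) ⟨0, by omega⟩) = nd t 0 from rfl, narrow0] at h₀; cases h₀
        · rw [show nd t ((fun i => i) ⟨1, by omega⟩) = nd t 1 from rfl, narrow1] at h₀; cases h₀
        · rw [show nd t ((fun i => i) ⟨2, by omega⟩) = nd t 2 from rfl, narrow2] at h₀; cases h₀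
        · rw [show nd t ((fun i => i) ⟨3, by omega⟩) = nd t 3 from rfl, narrow3] at h₀; cases h₀
        · rw [show nd t ((fun i => i) ⟨4, by omega⟩) = nd t 4 from rfl, narrow4] at h₀; cases h₀
        · rfl
      subst hr
      have hsub : shared (narrow (k := k)) (nd t 5) ⊆ {p1 t, p2 t} := by
        rintro i ⟨l, hl, a, ha, b, hb, hab, ra, rb⟩
        rw [narrow5] at hl
        cases hl
        rw [Set.mem_insert_iff, Set.mem_singleton_iff]
        rcases ins_mem ha with rfl | h1
        · exact reads4 ra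
        · rcases ins_mem hb with rfl | h2
          · exact reads4 rb
          · exact absurd (Fin.ext (by omega)) hab
      refine (Set.ncard_le_ncard hsub (Set.toFinite _)).trans ?_
      exact (Set.ncard_insert_le _ _).trans (by rw [Set.ncard_singleton])
    · rw [Set.not_nonempty_iff_eq_empty] at hne
      rw [hne, Set.ncard_empty]
      exact Nat.zero_le _

end Pool.Agent.TH708.Shr.Vc
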